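import Pool.Agent.CT.TStmts

set_option autoImplicit false

/-! # T6: basic facts about disc tilings -/

namespace Pool.Agent.CT

open Set Metric Topology

/-- a compact set meets finitely many tiles -/
theorem basic_compact (K : DiscTiling) {C : Set ℂ} (hC : IsCompact C) :
    {t ∈ K.T | (t ∩ C).Nonempty}.Finite := by
  have h1 : ∀ p : ℂ, ∃ r > 0, {t ∈ K.T | (t ∩ closedBall p r).Nonempty}.Finite := by
    intro p
    have h2 := K.nosing p
    unfold Singular at h2
    push Not at h2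
    obtain ⟨r, hr, h3⟩ := h2
    exact ⟨r, hr, h3⟩
  choose r hr hfin using h1
  obtain ⟨I, -, hI⟩ := hC.elim_nhds_subcover (fun p => closedBall p (r p))
    (fun p _ => closedBall_mem_nhds p (hr p))
  refine (I.finite_toSet.biUnion (fun p _ => hfin p)).subset ?_
  rintro t ⟨ht, x, hxt, hxC⟩
  obtain ⟨p, hp, hx⟩ := mem_iUnion₂.mp (hI hxC)
  exact mem_iUnion₂.mpr ⟨p, hp, ht, x, hxt, hx⟩

theorem basic (hD : Stmt_Disc) : Stmt_Basic := by
  intro K
  have hfin_at : ∀ p : ℂ, (K.tilesAt p).Finite := by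
    intro p
    refine (basic_compact K (isCompact_singleton (x := p))).subset ?_
    rintro t ⟨ht, hp⟩
    exact ⟨ht, p, hp, rfl⟩
  have hne : ∀ p : ℂ, (K.tilesAt p).Nonempty := by
    intro p
    have h1 : p ∈ ⋃₀ K.T := by
      rw [K.tiling.cover]
      trivial
    obtain ⟨t, ht, hp⟩ := h1
    exact ⟨t, ht, hp⟩
  have hint : ∀ t ∈ K.T, ∀ t' ∈ K.T, t ≠ t' → Disjoint (interior t) t' := by
    intro t ht t' ht' hne'
    obtain ⟨c, γ, h⟩ := hD t' (K.n1 t' ht')
    have h1 := (K.tiling.disj t ht t' ht' hne').closure_right isOpen_interior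
    rwa [h.clos] at h1
  have hnb : ∀ p : ℂ, ∃ r > 0, ∀ t ∈ K.T, (t ∩ ball p r).Nonempty → p ∈ t := by
    intro p
    have hS : {t ∈ K.T | (t ∩ closedBall p 1).Nonempty ∧ p ∉ t}.Finite := by
      refine (basic_compact K (isCompact_closedBall p 1)).subset ?_
      rintro t ⟨ht, h, -⟩
      exact ⟨ht, h⟩
    have hcl : IsClosed (⋃₀ {t ∈ K.T | (t ∩ closedBall p 1).Nonempty ∧ p ∉ t}) := by
      rw [sUnion_eq_biUnion]
      exact hS.isClosed_biUnion (fun t ht => K.tiling.closed t ht.1)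
    have hpn : (⋃₀ {t ∈ K.T | (t ∩ closedBall p 1).Nonempty ∧ p ∉ t})ᶜ ∈ 𝓝 p := by
      refine hcl.isOpen_compl.mem_nhds ?_
      rintro ⟨t, ⟨-, -, h⟩, hp⟩
      exact h hp
    obtain ⟨ε, hε, hball⟩ := Metric.mem_nhds_iff.mp hpn
    refine ⟨min ε 1, lt_min hε one_pos, fun t ht hx => ?_⟩
    obtain ⟨x, hxt, hx⟩ := hx
    by_contra hpt
    have h1 : x ∈ ball p ε := ball_subset_ball (min_le_left _ _) hx
    refine hball h1 ⟨t, ⟨ht, ⟨x, hxt, ?_⟩, hpt⟩, hxt⟩
    exact ball_subset_closedBall (ball_subset_ball (min_le_right _ _) hx)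
  refine
    { locfin := fun r => basic_compact K (isCompact_closedBall 0 r)
      nbhd := hnb
      fin_at := hfin_at
      ne_at := hne
      int_disj := hint
      mem_frontier := ?_
      other := ?_
      touch_fin := ?_
      at_int := ?_ }
  · rintro t ht t' ht' hne' x ⟨hx, hx'⟩
    exact ⟨subset_closure hx, fun h => disjoint_left.mp (hint t ht t' ht' hne') h hx'⟩
  · intro t ht p hp
    obtain ⟨r, hr, h⟩ := hnb p
    have h1 : ¬ ball p r ⊆ t := by
      intro hsub
      exact hp.2 (mem_interior.mpr ⟨ball p r, hsub, isOpen_ball, mem_ball_self hr⟩)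
    obtain ⟨y, hy, hyt⟩ := not_subset.mp h1
    obtain ⟨t', ht', hyt'⟩ := hne y
    refine ⟨t', ht', ?_, h t' ht' ⟨y, hyt', hy⟩⟩
    rintro rfl
    exact hyt hyt'
  · intro t ht
    obtain ⟨c, γ, h⟩ := hD t (K.n1 t ht)
    refine (basic_compact K h.compact).subset ?_
    rintro t' ⟨ht', x, hx, hx'⟩
    exact ⟨ht', x, hx', hx⟩
  · intro t ht p hp
    ext t'
    constructor
    · rintro ⟨ht', hp'⟩
      by_contra hne'
      exact disjoint_left.mp (hint t ht t' ht' (Ne.symm hne')) hp hp'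
    · intro h
      rw [mem_singleton_iff] at h
      rw [h]
      exact ⟨ht, interior_subset hp⟩

end Pool.Agent.CT
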