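import Pool.Agent.CT.TStmts

set_option autoImplicit false

/-! # Block T5: connectivity of regions of the plane -/

namespace Pool.Agent.CT

open Set Metric

theorem connT_ball (x : ℂ) (r : ℝ) (hr : 0 < r) (C : Set ℂ) (hC : C.Countable) :
    IsPreconnected (ball x r \ C) := by
  have h1 := OpenPartialHomeomorph.univBall_source x r
  have h2 := OpenPartialHomeomorph.univBall_target x hr
  set e := OpenPartialHomeomorph.univBall x r with he
  have hinj : Function.Injective e := by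
    intro a b hab
    exact e.injOn (by rw [h1]; trivial) (by rw [h1]; trivial) hab
  have hcont : Continuous e := by
    have := e.continuousOn
    rw [h1] at this
    exact continuousOn_univ.1 this
  have hpre : (e ⁻¹' C).Countable := hC.preimage_of_injOn hinj.injOn
  have h3 : IsPreconnected ((e ⁻¹' C)ᶜ) := by
    have : 1 < Module.rank ℝ ℂ := by
      rw [Complex.rank_real_complex]
      norm_num
    exact (hpre.isPathConnected_compl_of_one_lt_rank this).isConnected.isPreconnected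
  have h4 : ball x r \ C = e '' ((e ⁻¹' C)ᶜ) := by
    ext z
    constructor
    · rintro ⟨hz, hzC⟩
      rw [← h2] at hz
      refine ⟨e.symm z, ?_, e.right_inv hz⟩
      simp only [mem_compl_iff, mem_preimage]
      rw [e.right_inv hz]
      exact hzC
    · rintro ⟨y, hy, rfl⟩
      refine ⟨?_, hy⟩
      rw [← h2]
      exact e.map_source (by rw [h1]; trivial)
  rw [h4]
  exact h3.image _ hcont.continuousOn

theorem connT_ball_ne (x : ℂ) (r : ℝ) (hr : 0 < r) (C : Set ℂ) (hC : C.Countable) :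
    (ball x r \ C).Nonempty := by
  by_contra h
  rw [not_nonempty_iff_eq_empty, sdiff_eq_empty] at h
  have h1 := Set.Countable.dense_compl ℝ hC
  obtain ⟨y, hy, hyC⟩ := h1.inter_open_nonempty (ball x r) isOpen_ball ⟨x, mem_ball_self hr⟩
  exact hyC (h hy)

theorem compl : Stmt_Compl := by
  intro U C hU hUc hC A B hA hB hcov ⟨a, haU, haA⟩ ⟨b, hbU, hbB⟩
  by_contra hcon
  have hdis : ∀ z ∈ U \ C, z ∈ A → z ∈ B → False := by
    intro z hz hzA hzB
    exact hcon ⟨z, hz, hzA, hzB⟩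
  set A' : Set ℂ := {x | ∃ r > 0, ball x r ⊆ U ∧ ball x r \ C ⊆ A} with hA'
  set B' : Set ℂ := {x | ∃ r > 0, ball x r ⊆ U ∧ ball x r \ C ⊆ B} with hB'
  have hopen : ∀ D : Set ℂ, IsOpen {x | ∃ r > 0, ball x r ⊆ U ∧ ball x r \ C ⊆ D} := by
    intro D
    rw [Metric.isOpen_iff]
    rintro x ⟨r, hr, h1, h2⟩
    refine ⟨r, hr, ?_⟩
    intro y hy
    have hsub : ball y (r - dist y x) ⊆ ball x r := ball_subset_ball' (by linarith)
    refine ⟨r - dist y x, by rw [mem_ball] at hy; linarith, hsub.trans h1, ?_⟩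
    exact (sdiff_subset_sdiff_left hsub).trans h2
  have hball : ∀ x ∈ U, ∃ r > 0, ball x r ⊆ U := fun x hx => Metric.isOpen_iff.1 hU x hx
  have hpt : ∀ x r, 0 < r → ball x r ⊆ U → (ball x r \ C ⊆ A ∨ ball x r \ C ⊆ B) := by
    intro x r hr hsub
    have hp := connT_ball x r hr C hC
    have hcov' : ball x r \ C ⊆ A ∪ B := (sdiff_subset_sdiff_left hsub).trans hcov
    have hemp : ball x r \ C ∩ (A ∩ B) = ∅ := by
      rw [← not_nonempty_iff_eq_empty]
      rintro ⟨z, hz, hzA, hzB⟩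
      exact hdis z ⟨hsub hz.1, hz.2⟩ hzA hzB
    exact isPreconnected_iff_subset_of_disjoint.1 hp A B hA hB hcov' hemp
  have hcovU : U ⊆ A' ∪ B' := by
    intro x hx
    obtain ⟨r, hr, hsub⟩ := hball x hx
    rcases hpt x r hr hsub with h | h
    · exact Or.inl ⟨r, hr, hsub, h⟩
    · exact Or.inr ⟨r, hr, hsub, h⟩
  have haA' : a ∈ A' := by
    obtain ⟨r, hr, hsub⟩ := hball a haU.1
    rcases hpt a r hr hsub with h | h
    · exact ⟨r, hr, hsub, h⟩
    · exact absurd (h ⟨mem_ball_self hr, haU.2⟩) (fun hh => hdis a haU haA hh)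
  have hbB' : b ∈ B' := by
    obtain ⟨r, hr, hsub⟩ := hball b hbU.1
    rcases hpt b r hr hsub with h | h
    · exact absurd (h ⟨mem_ball_self hr, hbU.2⟩) (fun hh => hdis b hbU hh hbB)
    · exact ⟨r, hr, hsub, h⟩
  obtain ⟨x, hxU, ⟨r, hr, hs1, hs2⟩, ⟨r', hr', hs1', hs2'⟩⟩ :=
    hUc A' B' (hopen A) (hopen B) hcovU ⟨a, haU.1, haA'⟩ ⟨b, hbU.1, hbB'⟩
  obtain ⟨z, hz, hzC⟩ := connT_ball_ne x (min r r') (lt_min hr hr') C hC
  have hz1 : z ∈ ball x r := ball_subset_ball (min_le_left _ _) hz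
  have hz2 : z ∈ ball x r' := ball_subset_ball (min_le_right _ _) hz
  exact hdis z ⟨hs1 hz1, hzC⟩ (hs2 ⟨hz1, hzC⟩) (hs2' ⟨hz2, hzC⟩)

theorem outside : Stmt_Outside := by
  intro r
  by_cases hr : r < 0
  · have : {z : ℂ | r < ‖z‖} = univ := by
      ext z
      simp only [mem_univ, iff_true]
      exact lt_of_lt_of_le hr (norm_nonneg z)
    rw [this]
    exact isPreconnected_univ
  · push Not at hr
    have himg : {z : ℂ | r < ‖z‖} =
        (fun p : ℝ × ℝ => (p.1 : ℂ) * Complex.exp (p.2 * Complex.I)) '' (Ioi r ×ˢ univ) := by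
      ext z
      constructor
      · intro hz
        refine ⟨(‖z‖, z.arg), ⟨hz, trivial⟩, ?_⟩
        exact Complex.norm_mul_exp_arg_mul_I z
      · rintro ⟨⟨ρ, θ⟩, ⟨hρ, -⟩, rfl⟩
        have hρ' : r < ρ := hρ
        show r < ‖(ρ : ℂ) * Complex.exp (θ * Complex.I)‖
        rw [norm_mul, Complex.norm_exp_ofReal_mul_I, mul_one, Complex.norm_real, Real.norm_eq_abs]
        exact lt_of_lt_of_le hρ' (le_abs_self ρ)
    rw [himg]
    refine IsPreconnected.image ?_ _ ?_
    · exact (isPreconnected_Ioi).prod isPreconnected_univ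
    · refine Continuous.continuousOn ?_
      fun_prop

end Pool.Agent.CT
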