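import Pool.Agent.CT.TStmts

set_option autoImplicit false

/-! # T11: local structure along the frontier of a tile -/

namespace Pool.Agent.CT

open Set Metric

namespace CornerAux

/-- a point strictly between is not an integer translate -/
theorem ne_of_lt {γ : ℝ → ℂ} (per : ∀ x y, γ x = γ y ↔ ∃ n : ℤ, y = x + n) {x y : ℝ}
    (h : x < y) (h' : y < x + 1) : γ x ≠ γ y := by
  intro he
  obtain ⟨n, hn⟩ := (per x y).1 he
  have h1 : (0 : ℝ) < (n : ℝ) := by linarith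
  have h2 : (n : ℝ) < 1 := by linarith
  have h3 : (0 : ℤ) < n := by exact_mod_cast h1
  have h4 : n < (1 : ℤ) := by exact_mod_cast h2
  omega

theorem shift {γ : ℝ → ℂ} (per : ∀ x y, γ x = γ y ↔ ∃ n : ℤ, y = x + n) (x : ℝ) (n : ℤ) :
    γ (x + n) = γ x := ((per x (x + n)).2 ⟨n, rfl⟩).symm

theorem image_shift {γ : ℝ → ℂ} (per : ∀ x y, γ x = γ y ↔ ∃ n : ℤ, y = x + n) (a b : ℝ) (n : ℤ) :
    γ '' Icc a b = γ '' Icc (a + n) (b + n) := by
  apply Subset.antisymm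
  · rintro _ ⟨y, hy, rfl⟩
    exact ⟨y + n, ⟨by linarith [hy.1], by linarith [hy.2]⟩, shift per y n⟩
  · rintro _ ⟨y, hy, rfl⟩
    refine ⟨y + ((-n : ℤ) : ℝ), ⟨?_, ?_⟩, shift per y (-n)⟩
    · push_cast
      linarith [hy.1]
    · push_cast
      linarith [hy.2]

/-- An arc with parameter interval `Icc a b` between vertices, such that a given parameter `y` is in
it: shifted version. -/
theorem inter_at (hI : Stmt_InterT) (K : DiscTiling) {t t' : Set ℂ} (ht : t ∈ K.T) (ht' : t' ∈ K.T)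
    (hne : t ≠ t') (hnt : (t ∩ t').Nontrivial) {c : ℂ} {γ : ℝ → ℂ} (hγ : DiscData t c γ) {y : ℝ}
    (hy : γ y ∈ t') :
    ∃ a b : ℝ, a < b ∧ b < a + 1 ∧ y ∈ Icc a b ∧ t ∩ t' = γ '' Icc a b ∧
      ∀ x ∈ Icc a b, (3 ≤ (K.tilesAt (γ x)).ncard ↔ (x = a ∨ x = b)) := by
  obtain ⟨a, b, hab, hab1, hA, hv⟩ := hI K t ht t' ht' hne hnt c γ hγ
  have hyt : γ y ∈ t := hγ.compact.isClosed.frontier_subset (hγ.range ▸ mem_range_self y)
  have hyA : γ y ∈ γ '' Icc a b := hA ▸ ⟨hyt, hy⟩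
  obtain ⟨x, hx, hxy⟩ := hyA
  obtain ⟨n, hn⟩ := (hγ.per x y).1 hxy
  refine ⟨a + n, b + n, by linarith, by linarith, ⟨by linarith [hx.1], by linarith [hx.2]⟩, ?_, ?_⟩
  · rw [hA]
    exact image_shift hγ.per a b n
  · intro z hz
    have hz' : z - n ∈ Icc a b := ⟨by linarith [hz.1], by linarith [hz.2]⟩
    have h1 := hv (z - n) hz'
    have h2 : γ (z - n) = γ z := by
      have := shift hγ.per (z - n) n
      rw [sub_add_cancel] at this
      exact this.symm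
    rw [h2] at h1
    rw [h1]
    constructor
    · rintro (h | h)
      · left; linarith
      · right; linarith
    · rintro (h | h)
      · left; linarith
      · right; linarith

/-- near a parameter there are no vertices except possibly the point itself -/
theorem no_vertex_near (h3 : Stmt_ThreeFin) (K : DiscTiling) {t : Set ℂ} (ht : t ∈ K.T) {c : ℂ}
    {γ : ℝ → ℂ} (hγ : DiscData t c γ) (x₀ : ℝ) :
    ∃ δ > 0, δ < 1 ∧ ∀ y, |y - x₀| < δ → y ≠ x₀ → ¬ 3 ≤ (K.tilesAt (γ y)).ncard := by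
  have hfin := (h3 K).2.1 t ht
  set S := {p ∈ t | 3 ≤ (K.tilesAt p).ncard} \ {γ x₀} with hS
  have hSfin : S.Finite := hfin.subset sdiff_subset
  have hopen : IsOpen Sᶜ := hSfin.isClosed.isOpen_compl
  have hmem : γ x₀ ∈ Sᶜ := fun h => h.2 rfl
  obtain ⟨r, hr, hr'⟩ := Metric.isOpen_iff.1 hopen (γ x₀) hmem
  obtain ⟨δ, hδ, hδ'⟩ := Metric.continuous_iff.1 hγ.cont x₀ r hr
  refine ⟨min δ (1 / 2), lt_min hδ (by norm_num), lt_of_le_of_lt (min_le_right _ _) (by norm_num),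
    ?_⟩
  intro y hy hyx h
  have hy1 : |y - x₀| < δ := lt_of_lt_of_le hy (min_le_left _ _)
  have hy2 : |y - x₀| < 1 / 2 := lt_of_lt_of_le hy (min_le_right _ _)
  have hball : γ y ∈ ball (γ x₀) r := hδ' y (by rwa [Real.dist_eq])
  apply hr' hball
  refine ⟨⟨hγ.compact.isClosed.frontier_subset (hγ.range ▸ mem_range_self y), h⟩, ?_⟩
  intro he
  have he' : γ y = γ x₀ := he
  rw [abs_lt] at hy2
  rcases lt_or_gt_of_ne hyx with h1 | h1
  · exact ne_of_lt hγ.per h1 (by linarith) he'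
  · exact ne_of_lt hγ.per h1 (by linarith) he'.symm

theorem eq_pair (K : DiscTiling) (hB : Basic K) {t t' : Set ℂ} (ht : t ∈ K.T) (ht' : t' ∈ K.T)
    (hne : t' ≠ t) {p : ℂ} (hp : p ∈ t) (hp' : p ∈ t') (h3 : ¬ 3 ≤ (K.tilesAt p).ncard) :
    K.tilesAt p = {t, t'} := by
  symm
  apply Set.eq_of_subset_of_ncard_le _ _ (hB.fin_at p)
  · rintro s (rfl | rfl)
    · exact ⟨ht, hp⟩
    · exact ⟨ht', hp'⟩
  · rw [Set.ncard_pair hne.symm]
    omega

end CornerAux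

open CornerAux

/-- T11: at a frontier point which is not a vertex there is exactly one other tile. -/
theorem nonVertex (hD : Stmt_Disc) (hB : Stmt_Basic) : Stmt_NonVertex := by
  intro K t ht p hp h3
  have hBK := hB K
  obtain ⟨c, γ, hγ⟩ := hD t (K.n1 t ht)
  obtain ⟨t', ht', hne, hpt'⟩ := hBK.other t ht p hp
  have hpt : p ∈ t := hγ.compact.isClosed.frontier_subset hp
  have hpair := eq_pair K hBK ht ht' hne hpt hpt' h3
  refine ⟨t', ht', hne, ?_, hpair⟩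
  rw [← hγ.range] at hp
  obtain ⟨x₀, rfl⟩ := hp
  obtain ⟨r, hr, hr'⟩ := hBK.nbhd (γ x₀)
  obtain ⟨δ, hδ, hδ'⟩ := Metric.continuous_iff.1 hγ.cont x₀ r hr
  set ε := min (δ / 2) (1 / 2) with hε
  have hε0 : 0 < ε := lt_min (by linarith) (by norm_num)
  have hε1 : ε ≤ δ / 2 := min_le_left _ _
  have hε2 : ε ≤ 1 / 2 := min_le_right _ _
  have hball : γ (x₀ + ε) ∈ ball (γ x₀) r := hδ' _ (by
    rw [Real.dist_eq, show x₀ + ε - x₀ = ε by ring, abs_of_pos hε0]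
    linarith)
  have hfr : γ (x₀ + ε) ∈ frontier t := hγ.range ▸ mem_range_self _
  obtain ⟨s, hs, hst, hys⟩ := hBK.other t ht _ hfr
  have hxs : γ x₀ ∈ s := hr' s hs ⟨_, hys, hball⟩
  have hsmem : s ∈ K.tilesAt (γ x₀) := ⟨hs, hxs⟩
  rw [hpair] at hsmem
  have hst' : s = t' := by
    rcases hsmem with h | h
    · exact absurd h hst
    · exact h
  subst hst'
  refine ⟨γ x₀, ⟨hpt, hpt'⟩, γ (x₀ + ε), ⟨hγ.compact.isClosed.frontier_subset hfr, hys⟩, ?_⟩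
  exact ne_of_lt hγ.per (by linarith) (by linarith)

namespace CornerAux

/-- The arc to the right of a vertex. -/
theorem right_arc (h3 : Stmt_ThreeFin) (hI : Stmt_InterT) (hNV : Stmt_NonVertex) (K : DiscTiling)
    {t : Set ℂ} (ht : t ∈ K.T) {c : ℂ} {γ : ℝ → ℂ} (hγ : DiscData t c γ) (x₀ : ℝ)
    (hv : 3 ≤ (K.tilesAt (γ x₀)).ncard) :
    ∃ t₁ ∈ K.T, t₁ ≠ t ∧ (t ∩ t₁).Nontrivial ∧ ∃ b, x₀ < b ∧ b < x₀ + 1 ∧
      t ∩ t₁ = γ '' Icc x₀ b ∧ ∀ y ∈ Ioo x₀ b, K.tilesAt (γ y) = {t, t₁} := by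
  obtain ⟨δ, hδ, hδ1, hδ'⟩ := no_vertex_near h3 K ht hγ x₀
  have hy : ∀ y, x₀ < y → y < x₀ + δ → ¬ 3 ≤ (K.tilesAt (γ y)).ncard := by
    intro y hy1 hy2
    apply hδ' y
    · rw [abs_lt]
      constructor <;> linarith
    · exact ne_of_gt hy1
  have hfr : ∀ y, γ y ∈ frontier t := fun y => hγ.range ▸ mem_range_self y
  obtain ⟨t₁, ht₁, hne, hnt, hpair⟩ := hNV K t ht (γ (x₀ + δ / 2)) (hfr _)
    (hy _ (by linarith) (by linarith))
  have hmem : γ (x₀ + δ / 2) ∈ t₁ := by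
    have : t₁ ∈ K.tilesAt (γ (x₀ + δ / 2)) := by
      rw [hpair]
      exact Or.inr rfl
    exact this.2
  obtain ⟨a, b, hab, hab1, hyab, hA, hver⟩ := inter_at hI K ht ht₁ hne.symm hnt hγ hmem
  have ha : a ≤ x₀ := by
    by_contra hcon
    push Not at hcon
    have := hy a hcon (by linarith [hyab.1])
    exact this ((hver a ⟨le_refl _, hab.le⟩).2 (Or.inl rfl))
  have hb : x₀ < b := by linarith [hyab.2]
  have hxa : x₀ = a := by
    rcases (hver x₀ ⟨ha, hb.le⟩).1 hv with h | h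
    · exact h
    · exact absurd h (_root_.ne_of_lt hb)
  subst hxa
  refine ⟨t₁, ht₁, hne, hnt, b, hb, hab1, hA, ?_⟩
  intro y hy'
  have hyA : γ y ∈ t ∩ t₁ := by
    rw [hA]
    exact ⟨y, ⟨hy'.1.le, hy'.2.le⟩, rfl⟩
  have hnv : ¬ 3 ≤ (K.tilesAt (γ y)).ncard := by
    intro h
    rcases (hver y ⟨hy'.1.le, hy'.2.le⟩).1 h with h | h
    · exact absurd h (ne_of_gt hy'.1)
    · exact absurd h (_root_.ne_of_lt hy'.2)
  obtain ⟨s, hs, hsne, hsnt, hpair'⟩ := hNV K t ht (γ y) (hfr y) hnv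
  have h1 : t₁ ∈ K.tilesAt (γ y) := ⟨ht₁, hyA.2⟩
  rw [hpair'] at h1
  rcases h1 with h1 | h1
  · exact absurd h1 hne
  · have h1' : t₁ = s := h1
    rw [h1', hpair']

/-- The arc to the left of a vertex. -/
theorem left_arc (h3 : Stmt_ThreeFin) (hI : Stmt_InterT) (hNV : Stmt_NonVertex) (K : DiscTiling)
    {t : Set ℂ} (ht : t ∈ K.T) {c : ℂ} {γ : ℝ → ℂ} (hγ : DiscData t c γ) (x₀ : ℝ)
    (hv : 3 ≤ (K.tilesAt (γ x₀)).ncard) :
    ∃ t₁ ∈ K.T, t₁ ≠ t ∧ (t ∩ t₁).Nontrivial ∧ ∃ a, a < x₀ ∧ x₀ < a + 1 ∧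
      t ∩ t₁ = γ '' Icc a x₀ ∧ ∀ y ∈ Ioo a x₀, K.tilesAt (γ y) = {t, t₁} := by
  obtain ⟨δ, hδ, hδ1, hδ'⟩ := no_vertex_near h3 K ht hγ x₀
  have hy : ∀ y, y < x₀ → x₀ - δ < y → ¬ 3 ≤ (K.tilesAt (γ y)).ncard := by
    intro y hy1 hy2
    apply hδ' y
    · rw [abs_lt]
      constructor <;> linarith
    · exact _root_.ne_of_lt hy1
  have hfr : ∀ y, γ y ∈ frontier t := fun y => hγ.range ▸ mem_range_self y
  obtain ⟨t₁, ht₁, hne, hnt, hpair⟩ := hNV K t ht (γ (x₀ - δ / 2)) (hfr _)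
    (hy _ (by linarith) (by linarith))
  have hmem : γ (x₀ - δ / 2) ∈ t₁ := by
    have : t₁ ∈ K.tilesAt (γ (x₀ - δ / 2)) := by
      rw [hpair]
      exact Or.inr rfl
    exact this.2
  obtain ⟨a, b, hab, hab1, hyab, hA, hver⟩ := inter_at hI K ht ht₁ hne.symm hnt hγ hmem
  have hb : x₀ ≤ b := by
    by_contra hcon
    push Not at hcon
    have := hy b hcon (by linarith [hyab.2])
    exact this ((hver b ⟨hab.le, le_refl _⟩).2 (Or.inr rfl))
  have ha : a < x₀ := by linarith [hyab.1]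
  have hxb : x₀ = b := by
    rcases (hver x₀ ⟨ha.le, hb⟩).1 hv with h | h
    · exact absurd h (ne_of_gt ha)
    · exact h
  subst hxb
  refine ⟨t₁, ht₁, hne, hnt, a, ha, hab1, hA, ?_⟩
  intro y hy'
  have hyA : γ y ∈ t ∩ t₁ := by
    rw [hA]
    exact ⟨y, ⟨hy'.1.le, hy'.2.le⟩, rfl⟩
  have hnv : ¬ 3 ≤ (K.tilesAt (γ y)).ncard := by
    intro h
    rcases (hver y ⟨hy'.1.le, hy'.2.le⟩).1 h with h | h
    · exact absurd h (ne_of_gt hy'.1)
    · exact absurd h (_root_.ne_of_lt hy'.2)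
  obtain ⟨s, hs, hsne, hsnt, hpair'⟩ := hNV K t ht (γ y) (hfr y) hnv
  have h1 : t₁ ∈ K.tilesAt (γ y) := ⟨ht₁, hyA.2⟩
  rw [hpair'] at h1
  rcases h1 with h1 | h1
  · exact absurd h1 hne
  · have h1' : t₁ = s := h1
    rw [h1', hpair']

end CornerAux

/-- T11: at a vertex of `t` exactly two tiles meet `t` in an edge containing the vertex. -/
theorem cornerT (hD : Stmt_Disc) (hB : Stmt_Basic) (h3 : Stmt_ThreeFin) (hI : Stmt_InterT)
    (hNV : Stmt_NonVertex) : Stmt_Corner := by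
  intro K t ht p hpt hv
  have hBK := hB K
  obtain ⟨c, γ, hγ⟩ := hD t (K.n1 t ht)
  have hpf : p ∈ frontier t := by
    rw [hγ.compact.isClosed.frontier_eq]
    refine ⟨hpt, fun hpi => ?_⟩
    rw [hBK.at_int t ht p hpi, Set.ncard_singleton] at hv
    omega
  rw [← hγ.range] at hpf
  obtain ⟨x₀, rfl⟩ := hpf
  obtain ⟨t₁, ht₁, hne₁, hnt₁, b, hb, hb1, hA₁, hin₁⟩ := right_arc h3 hI hNV K ht hγ x₀ hv
  obtain ⟨t₂, ht₂, hne₂, hnt₂, a, ha, ha1, hA₂, hin₂⟩ := left_arc h3 hI hNV K ht hγ x₀ hv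
  have hp₁ : γ x₀ ∈ t ∩ t₁ := by
    rw [hA₁]
    exact ⟨x₀, ⟨le_refl _, hb.le⟩, rfl⟩
  have hp₂ : γ x₀ ∈ t ∩ t₂ := by
    rw [hA₂]
    exact ⟨x₀, ⟨ha.le, le_refl _⟩, rfl⟩
  refine ⟨t₁, ht₁, t₂, ht₂, hne₁, hne₂, ?_, hp₁.2, hp₂.2, hnt₁, hnt₂, ?_⟩
  · rintro rfl
    set ε := min (x₀ - a) ((x₀ + 1 - b) / 2) with hε
    have hε0 : 0 < ε := lt_min (by linarith) (by linarith)
    have hε1 : ε ≤ x₀ - a := min_le_left _ _
    have hε2 : ε ≤ (x₀ + 1 - b) / 2 := min_le_right _ _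
    have hmem : γ (x₀ - ε) ∈ γ '' Icc x₀ b := by
      rw [← hA₁, hA₂]
      exact ⟨x₀ - ε, ⟨by linarith, by linarith⟩, rfl⟩
    obtain ⟨y, hy, hy'⟩ := hmem
    exact CornerAux.ne_of_lt hγ.per (x := x₀ - ε) (y := y) (by linarith [hy.1])
      (by linarith [hy.2]) hy'.symm
  · intro t₃ ht₃ hne₃ hp₃ hnt₃
    obtain ⟨a', b', hab', hab1', hx', hA', hver'⟩ := inter_at hI K ht ht₃ hne₃.symm hnt₃ hγ hp₃
    rcases (hver' x₀ hx').1 hv with h | h
    · left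
      subst h
      set z := (x₀ + min b b') / 2 with hz
      have h1 : x₀ < min b b' := lt_min hb hab'
      have h2 : min b b' ≤ b := min_le_left _ _
      have h4 : min b b' ≤ b' := min_le_right _ _
      have hzA : γ z ∈ t ∩ t₃ := by
        rw [hA']
        exact ⟨z, ⟨by linarith, by linarith⟩, rfl⟩
      have hz3 : t₃ ∈ K.tilesAt (γ z) := ⟨ht₃, hzA.2⟩
      rw [hin₁ z ⟨by linarith, by linarith⟩] at hz3
      rcases hz3 with h5 | h5
      · exact absurd h5 hne₃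
      · exact h5
    · right
      subst h
      set z := (x₀ + max a a') / 2 with hz
      have h1 : max a a' < x₀ := max_lt ha hab'
      have h2 : a ≤ max a a' := le_max_left _ _
      have h4 : a' ≤ max a a' := le_max_right _ _
      have hzA : γ z ∈ t ∩ t₃ := by
        rw [hA']
        exact ⟨z, ⟨by linarith, by linarith⟩, rfl⟩
      have hz3 : t₃ ∈ K.tilesAt (γ z) := ⟨ht₃, hzA.2⟩
      rw [hin₂ z ⟨by linarith, by linarith⟩] at hz3
      rcases hz3 with h5 | h5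
      · exact absurd h5 hne₃
      · exact h5

end Pool.Agent.CT
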