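import Pool.Agent.CT.TStmts

set_option autoImplicit false

/-! # Block T4: closed discs -/

namespace Pool.Agent.CT

open Set Metric

open Classical in
/-- The parametrisation of a disc as a function on the plane. -/
noncomputable def discExt {t : Set ℂ} (ψ : closedBall (0 : ℂ) 1 ≃ₜ t) (z : ℂ) : ℂ :=
  if h : z ∈ closedBall (0 : ℂ) 1 then ((ψ ⟨z, h⟩ : t) : ℂ) else 0

open Classical in
/-- The inverse of the parametrisation as a function on the plane. -/
noncomputable def discInv {t : Set ℂ} (ψ : closedBall (0 : ℂ) 1 ≃ₜ t) (z : ℂ) : ℂ :=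
  if h : z ∈ t then ((ψ.symm ⟨z, h⟩ : closedBall (0 : ℂ) 1) : ℂ) else 0

theorem discExt_of {t : Set ℂ} (ψ : closedBall (0 : ℂ) 1 ≃ₜ t) (z : ℂ)
    (h : z ∈ closedBall (0 : ℂ) 1) : discExt ψ z = ((ψ ⟨z, h⟩ : t) : ℂ) := by
  unfold discExt
  rw [dif_pos h]

theorem discInv_of {t : Set ℂ} (ψ : closedBall (0 : ℂ) 1 ≃ₜ t) (z : ℂ) (h : z ∈ t) :
    discInv ψ z = ((ψ.symm ⟨z, h⟩ : closedBall (0 : ℂ) 1) : ℂ) := by
  unfold discInv
  rw [dif_pos h]

theorem discExt_cont {t : Set ℂ} (ψ : closedBall (0 : ℂ) 1 ≃ₜ t) :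
    ContinuousOn (discExt ψ) (closedBall 0 1) := by
  rw [continuousOn_iff_continuous_domRestrict]
  have h : (closedBall (0 : ℂ) 1).domRestrict (discExt ψ) = fun z => ((ψ z : t) : ℂ) := by
    funext z
    exact discExt_of ψ z.1 z.2
  rw [h]
  exact continuous_subtype_val.comp ψ.continuous

theorem discInv_cont {t : Set ℂ} (ψ : closedBall (0 : ℂ) 1 ≃ₜ t) :
    ContinuousOn (discInv ψ) t := by
  rw [continuousOn_iff_continuous_domRestrict]
  have h : t.domRestrict (discInv ψ) = fun z => ((ψ.symm z : closedBall (0 : ℂ) 1) : ℂ) := by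
    funext z
    exact discInv_of ψ z.1 z.2
  rw [h]
  exact continuous_subtype_val.comp ψ.symm.continuous

theorem discExt_inj {t : Set ℂ} (ψ : closedBall (0 : ℂ) 1 ≃ₜ t) :
    InjOn (discExt ψ) (closedBall 0 1) := by
  intro a ha b hb hab
  rw [discExt_of ψ a ha, discExt_of ψ b hb] at hab
  have := ψ.injective (Subtype.ext hab)
  exact congrArg Subtype.val this

theorem discInv_inj {t : Set ℂ} (ψ : closedBall (0 : ℂ) 1 ≃ₜ t) :
    InjOn (discInv ψ) t := by
  intro a ha b hb hab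
  rw [discInv_of ψ a ha, discInv_of ψ b hb] at hab
  have := ψ.symm.injective (Subtype.ext hab)
  exact congrArg Subtype.val this

theorem discExt_image {t : Set ℂ} (ψ : closedBall (0 : ℂ) 1 ≃ₜ t) :
    discExt ψ '' closedBall 0 1 = t := by
  ext z
  constructor
  · rintro ⟨w, hw, rfl⟩
    rw [discExt_of ψ w hw]
    exact (ψ ⟨w, hw⟩).2
  · intro hz
    refine ⟨(ψ.symm ⟨z, hz⟩).1, (ψ.symm ⟨z, hz⟩).2, ?_⟩
    rw [discExt_of ψ _ (ψ.symm ⟨z, hz⟩).2]
    simp

theorem disc_isCompact {t : Set ℂ} (ψ : closedBall (0 : ℂ) 1 ≃ₜ t) : IsCompact t := by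
  rw [← discExt_image ψ]
  exact (isCompact_closedBall 0 1).image_of_continuousOn (discExt_cont ψ)

theorem disc_interior (h : Stmt_InvDomT) {t : Set ℂ} (ψ : closedBall (0 : ℂ) 1 ≃ₜ t)
    (z : closedBall (0 : ℂ) 1) : ((ψ z : t) : ℂ) ∈ interior t ↔ ‖(z : ℂ)‖ < 1 := by
  constructor
  · intro hz
    obtain ⟨ρ, hρ, hsub⟩ := Metric.isOpen_iff.1 isOpen_interior _ hz
    have hsub' : closedBall ((ψ z : t) : ℂ) (ρ / 2) ⊆ t :=
      (closedBall_subset_ball (by linarith)).trans (hsub.trans interior_subset)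
    have h1 := h ((ψ z : t) : ℂ) (ρ / 2) (by linarith) (discInv ψ)
      ((discInv_cont ψ).mono hsub') ((discInv_inj ψ).mono hsub')
    have h2 : discInv ψ ((ψ z : t) : ℂ) = z := by
      rw [discInv_of ψ _ (ψ z).2]
      simp
    rw [h2] at h1
    have h3 : discInv ψ '' closedBall ((ψ z : t) : ℂ) (ρ / 2) ⊆ closedBall 0 1 := by
      rintro w ⟨v, hv, rfl⟩
      rw [discInv_of ψ v (hsub' hv)]
      exact (ψ.symm ⟨v, hsub' hv⟩).2
    have h4 := interior_mono h3 h1
    rw [interior_closedBall _ one_ne_zero, mem_ball_zero_iff] at h4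
    exact h4
  · intro hz
    have hsub : closedBall (z : ℂ) (1 - ‖(z : ℂ)‖) ⊆ closedBall 0 1 := by
      apply closedBall_subset_closedBall'
      rw [dist_zero_right]
      linarith
    have h1 := h (z : ℂ) (1 - ‖(z : ℂ)‖) (by linarith) (discExt ψ)
      ((discExt_cont ψ).mono hsub) ((discExt_inj ψ).mono hsub)
    rw [discExt_of ψ _ z.2] at h1
    have h3 : discExt ψ '' closedBall (z : ℂ) (1 - ‖(z : ℂ)‖) ⊆ t := by
      refine (image_mono hsub).trans ?_
      rw [discExt_image]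
    exact interior_mono h3 h1

theorem front (h : Stmt_InvDomT) : Stmt_Front := by
  intro t ψ z
  have h1 := disc_interior h ψ z
  have h2 : ‖(z : ℂ)‖ ≤ 1 := mem_closedBall_zero_iff.1 z.2
  rw [(disc_isCompact ψ).isClosed.frontier_eq, mem_sdiff, h1]
  constructor
  · rintro ⟨-, h3⟩
    exact le_antisymm h2 (not_lt.1 h3)
  · intro h3
    exact ⟨(ψ z).2, by rw [h3]; exact lt_irrefl _⟩

theorem disc_int_eq (h : Stmt_InvDomT) {t : Set ℂ} (ψ : closedBall (0 : ℂ) 1 ≃ₜ t) :
    discExt ψ '' ball 0 1 = interior t := by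
  ext z
  constructor
  · rintro ⟨w, hw, rfl⟩
    rw [discExt_of ψ w (ball_subset_closedBall hw)]
    exact (disc_interior h ψ _).2 (mem_ball_zero_iff.1 hw)
  · intro hz
    have hzt : z ∈ t := interior_subset hz
    have h1 : ((ψ (ψ.symm ⟨z, hzt⟩) : t) : ℂ) ∈ interior t := by simpa using hz
    have h2 := (disc_interior h ψ _).1 h1
    refine ⟨(ψ.symm ⟨z, hzt⟩).1, mem_ball_zero_iff.2 h2, ?_⟩
    rw [discExt_of ψ _ (ψ.symm ⟨z, hzt⟩).2]
    simp

theorem disc_sphere_eq (h : Stmt_InvDomT) {t : Set ℂ} (ψ : closedBall (0 : ℂ) 1 ≃ₜ t) :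
    discExt ψ '' sphere 0 1 = frontier t := by
  ext z
  constructor
  · rintro ⟨w, hw, rfl⟩
    rw [discExt_of ψ w (sphere_subset_closedBall hw)]
    exact (front h t ψ _).2 (mem_sphere_zero_iff_norm.1 hw)
  · intro hz
    have hzt : z ∈ t := (disc_isCompact ψ).isClosed.frontier_subset hz
    have h1 : ((ψ (ψ.symm ⟨z, hzt⟩) : t) : ℂ) ∈ frontier t := by simpa using hz
    have h2 := (front h t ψ _).1 h1
    refine ⟨(ψ.symm ⟨z, hzt⟩).1, mem_sphere_zero_iff_norm.2 h2, ?_⟩
    rw [discExt_of ψ _ (ψ.symm ⟨z, hzt⟩).2]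
    simp

theorem disc_exp_norm (x : ℝ) : ‖Complex.exp (2 * Real.pi * Complex.I * x)‖ = 1 := by
  have : (2 * Real.pi * Complex.I * x : ℂ) = ((2 * Real.pi * x : ℝ) : ℂ) * Complex.I := by
    push_cast
    ring
  rw [this, Complex.norm_exp_ofReal_mul_I]

theorem disc (h : Stmt_InvDomT) : Stmt_Disc := by
  rintro t ⟨ψ'⟩
  set ψ := ψ'.symm with hψ
  have h01 : (0 : ℂ) ∈ closedBall (0 : ℂ) 1 := mem_closedBall_self zero_le_one
  have hexp : ∀ x : ℝ, Complex.exp (2 * Real.pi * Complex.I * x) ∈ closedBall (0 : ℂ) 1 := by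
    intro x
    rw [mem_closedBall_zero_iff, disc_exp_norm]
  refine ⟨discExt ψ 0, fun x => discExt ψ (Complex.exp (2 * Real.pi * Complex.I * x)), ?_⟩
  refine ⟨disc_isCompact ψ, ?_, ?_, ?_, ?_, ?_, ?_, ?_⟩
  · refine (discExt_cont ψ).comp_continuous ?_ hexp
    fun_prop
  · intro x y
    constructor
    · intro hxy
      have h1 := discExt_inj ψ (hexp x) (hexp y) hxy
      rw [Complex.exp_eq_exp_iff_exists_int] at h1
      obtain ⟨n, hn⟩ := h1
      refine ⟨-n, ?_⟩
      have h2 : (2 * Real.pi * Complex.I : ℂ) ≠ 0 := Complex.two_pi_I_ne_zero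
      have h3 : (2 * Real.pi * Complex.I : ℂ) * (x - y - n) = 0 := by
        linear_combination hn
      have h4 : ((x : ℂ) - y - n) = 0 := by
        rcases mul_eq_zero.1 h3 with h5 | h5
        · exact absurd h5 h2
        · exact h5
      have h5 : (x - y - n : ℝ) = 0 := by exact_mod_cast h4
      push_cast
      linarith
    · rintro ⟨n, rfl⟩
      have : Complex.exp (2 * Real.pi * Complex.I * x) =
          Complex.exp (2 * Real.pi * Complex.I * ((x + n : ℝ) : ℂ)) := by
        rw [Complex.exp_eq_exp_iff_exists_int]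
        refine ⟨-n, ?_⟩
        push_cast
        ring
      show discExt ψ _ = discExt ψ _
      rw [this]
  · rw [← disc_sphere_eq h ψ]
    ext z
    constructor
    · rintro ⟨x, rfl⟩
      exact ⟨_, mem_sphere_zero_iff_norm.2 (disc_exp_norm x), rfl⟩
    · rintro ⟨w, hw, rfl⟩
      refine ⟨w.arg / (2 * Real.pi), ?_⟩
      show discExt ψ _ = discExt ψ _
      congr 1
      have h1 := Complex.norm_mul_exp_arg_mul_I w
      rw [mem_sphere_zero_iff_norm.1 hw] at h1
      have h2 : (2 * Real.pi * Complex.I * ((w.arg / (2 * Real.pi) : ℝ) : ℂ)) =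
          w.arg * Complex.I := by
        have : (Real.pi : ℂ) ≠ 0 := by exact_mod_cast Real.pi_ne_zero
        push_cast
        field_simp
      rw [h2]
      simpa using h1
  · rw [← disc_int_eq h ψ]
    exact ⟨0, mem_ball_self one_pos, rfl⟩
  · apply Subset.antisymm
    · exact (closure_mono interior_subset).trans (disc_isCompact ψ).isClosed.closure_subset
    · have hcl : closure (ball (0 : ℂ) 1) = closedBall 0 1 := closure_ball 0 one_ne_zero
      have h1 : ContinuousOn (discExt ψ) (closure (ball (0 : ℂ) 1)) := by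
        rw [hcl]; exact discExt_cont ψ
      have h2 := h1.image_closure
      rw [hcl, discExt_image, disc_int_eq h] at h2
      exact h2
  · rw [← disc_int_eq h ψ]
    refine IsPathConnected.image' ?_ ((discExt_cont ψ).mono ball_subset_closedBall)
    exact (convex_ball (0 : ℂ) 1).isPathConnected ⟨0, mem_ball_self one_pos⟩
  · intro x hx
    rw [← disc_sphere_eq h ψ] at hx
    obtain ⟨w, hw, rfl⟩ := hx
    rw [← disc_int_eq h ψ, ← image_insert_eq]
    have hwn : ‖w‖ = 1 := mem_sphere_zero_iff_norm.1 hw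
    have hsub : insert w (ball (0 : ℂ) 1) ⊆ closedBall 0 1 :=
      insert_subset (sphere_subset_closedBall hw) ball_subset_closedBall
    refine JoinedIn.map_continuousOn ?_ ((discExt_cont ψ).mono hsub)
    refine JoinedIn.of_segment_subset ?_
    intro z hz
    rw [segment_eq_image] at hz
    obtain ⟨θ, hθ, rfl⟩ := hz
    by_cases h0 : θ = 0
    · left
      rw [h0]
      simp
    · right
      rw [mem_ball_zero_iff]
      show ‖(1 - θ) • w + θ • (0 : ℂ)‖ < 1
      rw [smul_zero, add_zero, norm_smul, hwn, mul_one, Real.norm_eq_abs,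
        abs_of_nonneg (by linarith [hθ.2])]
      have : 0 < θ := lt_of_le_of_ne hθ.1 (Ne.symm h0)
      linarith

end Pool.Agent.CT
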