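import Pool.Agent.CT.TStmts

set_option autoImplicit false

/-! # T18: connectivity, ends, infinity -/

namespace Pool.Agent.CT

open Set Metric

theorem ends_tile_compact (K : DiscTiling) {t : Set ℂ} (ht : t ∈ K.T) : IsCompact t := by
  obtain ⟨φ⟩ := K.n1 t ht
  have : CompactSpace t := φ.symm.compactSpace
  exact isCompact_iff_compactSpace.2 this

theorem ends_tile_nonempty (K : DiscTiling) {t : Set ℂ} (ht : t ∈ K.T) : t.Nonempty := by
  obtain ⟨φ⟩ := K.n1 t ht
  exact ⟨φ.symm ⟨0, by simp⟩, Subtype.coe_prop _⟩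

/-- A finite family of tiles is in a ball. -/
theorem ends_bound (K : DiscTiling) (S : Set (Set ℂ)) (hS : S.Finite) (hT : S ⊆ K.T) :
    ∃ R : ℝ, ∀ t ∈ S, t ⊆ closedBall 0 R := by
  have h : IsCompact (⋃₀ S) := hS.isCompact_sUnion fun t ht => ends_tile_compact K (hT ht)
  obtain ⟨R, hR⟩ := h.isBounded.subset_closedBall 0
  exact ⟨R, fun t ht => (subset_sUnion_of_mem ht).trans hR⟩

theorem ends (hB : Stmt_Basic) (hR : Stmt_Region) (hO : Stmt_Outside) (hV : Stmt_Verts) :
    Stmt_Ends := by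
  intro K M hM
  have B := hB K
  -- basic incidence facts
  have vface : ∀ v : K.V, ∃ f : K.F, M.vf v f := by
    intro v
    have h3 := M.vert_card v
    have hne : {e | M.ve v e}.Nonempty := by
      by_contra h
      rw [not_nonempty_iff_eq_empty] at h
      rw [h, ncard_empty] at h3
      omega
    obtain ⟨e, he⟩ := hne
    obtain ⟨f, g, _, hfg⟩ := M.edge_faces e
    exact ⟨f, e, he, (hfg f).2 (Or.inl rfl)⟩
  have fvert : ∀ f : K.F, ∃ v : K.V, M.vf v f := by
    intro f
    have h3 := M.face_card f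
    have hne : {e | M.ef e f}.Nonempty := by
      by_contra h
      rw [not_nonempty_iff_eq_empty] at h
      rw [h, ncard_empty] at h3
      omega
    obtain ⟨e, he⟩ := hne
    obtain ⟨u, v, _, huv⟩ := M.edge_verts e
    exact ⟨u, e, (huv u).2 (Or.inl rfl), he⟩
  have vfmem : ∀ (v : K.V) (f : K.F), M.vf v f → v.1 ∈ f.1 := by
    rintro v f ⟨e, h1, h2⟩
    exact (hM.ef e f).1 h2 ((hM.ve v e).1 h1)
  have vfin : ∀ f : K.F, {v : K.V | M.vf v f}.Finite := by
    intro f
    have : {v : K.V | M.vf v f} ⊆ ⋃ e ∈ {e | M.ef e f}, {v | M.ve v e} := by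
      rintro v ⟨e, h1, h2⟩
      exact mem_biUnion h2 h1
    refine ((M.face_fin f).biUnion fun e _ => ?_).subset this
    obtain ⟨u, v, _, huv⟩ := M.edge_verts e
    refine (Set.toFinite {u, v}).subset ?_
    intro w hw
    exact (huv w).1 hw
  have ffin : ∀ v : K.V, {f : K.F | M.vf v f}.Finite := by
    intro v
    have h1 := B.fin_at v.1
    refine Set.Finite.of_finite_image (f := Subtype.val) (h1.subset ?_) Subtype.val_injective.injOn
    rintro _ ⟨f, hf, rfl⟩
    exact ⟨f.2, vfmem v f hf⟩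
  -- the tiles outside a ball
  have outF : ∀ R : ℝ, ConnIn M.fadj {t : K.F | (t.1 ∩ {z : ℂ | R < ‖z‖}).Nonempty} := by
    intro R
    exact hR K M.toInc hM _ (isOpen_lt continuous_const continuous_norm) (hO R)
  have inFin : ∀ R : ℝ, {t : K.F | (t.1 ∩ {z : ℂ | R < ‖z‖}).Nonempty}ᶜ.Finite := by
    intro R
    refine Set.Finite.of_finite_image (f := Subtype.val) ((B.locfin R).subset ?_)
      Subtype.val_injective.injOn
    rintro _ ⟨f, hf, rfl⟩
    refine ⟨f.2, ?_⟩
    obtain ⟨z, hz⟩ := ends_tile_nonempty K f.2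
    refine ⟨z, hz, ?_⟩
    rw [mem_closedBall_zero_iff]
    by_contra h
    exact hf ⟨z, hz, not_le.1 h⟩
  have sub_not : ∀ (R : ℝ) (f : K.F), f.1 ⊆ closedBall 0 R →
      ¬ (f.1 ∩ {z : ℂ | R < ‖z‖}).Nonempty := by
    rintro R f hf ⟨z, h1, h2⟩
    have := mem_closedBall_zero_iff.1 (hf h1)
    exact absurd h2 (not_lt.2 this)
  have fconn : ConnIn M.fadj univ := by
    have h := hR K M.toInc hM univ isOpen_univ isPreconnected_univ
    have : {t : K.F | (t.1 ∩ univ).Nonempty} = univ := by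
      ext t
      simp only [inter_univ, mem_univ, iff_true]
      exact ends_tile_nonempty K t.2
    rwa [this] at h
  have vconn : ConnIn M.vadj univ := by
    have h := hV _ _ _ M univ fconn
    have : {v : K.V | ∃ f ∈ (univ : Set K.F), M.vf v f} = univ := by
      ext v
      constructor
      · intro _
        trivial
      · intro _
        obtain ⟨f, hf⟩ := vface v
        exact ⟨f, mem_univ _, hf⟩
    rwa [this] at h
  have finf : Infinite K.F := by
    by_contra h
    rw [not_infinite_iff_finite] at h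
    have hT : K.T.Finite := Set.toFinite _
    have hc : IsCompact (⋃₀ K.T) := hT.isCompact_sUnion fun t ht => ends_tile_compact K ht
    rw [K.tiling.cover] at hc
    exact noncompact_univ ℂ hc
  have vinf : Infinite K.V := by
    by_contra h
    rw [not_infinite_iff_finite] at h
    have : (univ : Set K.F) ⊆ ⋃ v : K.V, {f : K.F | M.vf v f} := by
      intro f _
      obtain ⟨v, hv⟩ := fvert f
      exact mem_iUnion.2 ⟨v, hv⟩
    have hfin : (univ : Set K.F).Finite := (finite_iUnion fun v => ffin v).subset this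
    exact (Set.infinite_univ_iff.2 finf) hfin
  refine ⟨vconn, fconn, ?_, ?_, vinf, finf⟩
  · -- one-endedness of the vertices
    intro S hS
    obtain ⟨R, hRb⟩ := ends_bound K (⋃ v ∈ S, K.tilesAt v.1)
      (hS.biUnion fun v _ => B.fin_at v.1) (by
        intro t ht
        obtain ⟨v, _, hv⟩ := mem_iUnion₂.1 ht
        exact hv.1)
    refine ⟨{v | ∃ f ∈ {t : K.F | (t.1 ∩ {z : ℂ | R < ‖z‖}).Nonempty}, M.vf v f}, ?_, ?_,
      hV _ _ _ M _ (outF R)⟩
    · have : {v | ∃ f ∈ {t : K.F | (t.1 ∩ {z : ℂ | R < ‖z‖}).Nonempty}, M.vf v f}ᶜ ⊆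
          ⋃ f ∈ {t : K.F | (t.1 ∩ {z : ℂ | R < ‖z‖}).Nonempty}ᶜ, {v | M.vf v f} := by
        intro v hv
        obtain ⟨f, hf⟩ := vface v
        refine mem_biUnion ?_ hf
        intro hf'
        exact hv ⟨f, hf', hf⟩
      exact ((inFin R).biUnion fun f _ => vfin f).subset this
    · rw [Set.disjoint_left]
      rintro v ⟨f, hf, hvf⟩ hvS
      refine sub_not R f (hRb f.1 ?_) hf
      exact mem_biUnion hvS ⟨f.2, vfmem v f hvf⟩
  · -- one-endedness of the faces
    intro S hS
    obtain ⟨R, hRb⟩ := ends_bound K (Subtype.val '' S) (hS.image _) (by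
      rintro _ ⟨f, _, rfl⟩
      exact f.2)
    refine ⟨{t : K.F | (t.1 ∩ {z : ℂ | R < ‖z‖}).Nonempty}, inFin R, ?_, outF R⟩
    rw [Set.disjoint_left]
    intro f hf hfS
    exact sub_not R f (hRb f.1 ⟨f, hfS, rfl⟩) hf

end Pool.Agent.CT
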