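import Pool.Agent.CT.TStmts

set_option autoImplicit false

/-! # Block T8: gluing of tiles, closed families, the star of a point -/

namespace Pool.Agent.CT

open Set Metric

namespace GlueAux

theorem isClosed_tile (K : DiscTiling) {t : Set ℂ} (ht : t ∈ K.T) : IsClosed t :=
  K.tiling.closed t ht

/-- a tile at `p` has points different from `p` arbitrarily near `p` -/
theorem exists_ne (hD : Stmt_Disc) (K : DiscTiling) {t : Set ℂ} (ht : t ∈ K.T) {p : ℂ}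
    (hp : p ∈ t) {r : ℝ} (hr : 0 < r) : ∃ q ∈ t, q ∈ ball p r ∧ q ≠ p := by
  obtain ⟨c, γ, hd⟩ := hD t (K.n1 t ht)
  have hpc : p ∈ closure (interior t) := by rw [hd.clos]; exact hp
  obtain ⟨z, hz1, hz2⟩ := mem_closure_iff.1 hpc (ball p r) isOpen_ball (mem_ball_self hr)
  have ho : IsOpen (ball p r ∩ interior t) := isOpen_ball.inter isOpen_interior
  have hinf : (ball p r ∩ interior t).Infinite := infinite_of_mem_nhds z (ho.mem_nhds ⟨hz1, hz2⟩)
  obtain ⟨q, hq, hqp⟩ := hinf.exists_notMem_finset {p}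
  exact ⟨q, interior_subset hq.2, hq.1, by simpa using hqp⟩

/-- The punctured ball argument. -/
theorem split (hC : Stmt_Compl) (hD : Stmt_Disc) (K : DiscTiling) (hK : Basic K) (p : ℂ)
    (A B : Set (Set ℂ)) (hAB : K.tilesAt p = A ∪ B) (hA : A.Nonempty) (hB : B.Nonempty)
    (r : ℝ) (hr : 0 < r)
    (h : ∀ q ∈ ball p r, q ≠ p → ∀ t ∈ A, ∀ t' ∈ B, q ∈ t → q ∈ t' → False) : False := by
  obtain ⟨r₁, hr₁, hn⟩ := hK.nbhd p
  have hs : 0 < min r r₁ := lt_min hr hr₁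
  have hsr : ball p (min r r₁) ⊆ ball p r := ball_subset_ball (min_le_left _ _)
  have hsr₁ : ball p (min r r₁) ⊆ ball p r₁ := ball_subset_ball (min_le_right _ _)
  have hfin := hK.fin_at p
  rw [hAB] at hfin
  have hAf : A.Finite := hfin.subset subset_union_left
  have hBf : B.Finite := hfin.subset subset_union_right
  have hAt : ∀ t ∈ A, t ∈ K.T ∧ p ∈ t := by
    intro t ht
    have : t ∈ K.tilesAt p := by rw [hAB]; exact Or.inl ht
    exact this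
  have hBt : ∀ t ∈ B, t ∈ K.T ∧ p ∈ t := by
    intro t ht
    have : t ∈ K.tilesAt p := by rw [hAB]; exact Or.inr ht
    exact this
  have hXc : IsClosed (⋃₀ A) := by
    rw [sUnion_eq_biUnion]
    exact hAf.isClosed_biUnion fun t ht => isClosed_tile K (hAt t ht).1
  have hYc : IsClosed (⋃₀ B) := by
    rw [sUnion_eq_biUnion]
    exact hBf.isClosed_biUnion fun t ht => isClosed_tile K (hBt t ht).1
  have hpre : IsPreconnected (ball p (min r r₁) \ {p}) :=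
    hC _ _ isOpen_ball (convex_ball p _).isPreconnected (countable_singleton p)
  rw [isPreconnected_closed_iff] at hpre
  have hcov : ball p (min r r₁) \ {p} ⊆ ⋃₀ A ∪ ⋃₀ B := by
    intro q hq
    have hqu : q ∈ ⋃₀ K.T := by rw [K.tiling.cover]; trivial
    obtain ⟨t, ht, hqt⟩ := hqu
    have hpt : p ∈ t := hn t ht ⟨q, hqt, hsr₁ hq.1⟩
    have : t ∈ A ∪ B := by rw [← hAB]; exact ⟨ht, hpt⟩
    rcases this with h1 | h1
    · exact Or.inl ⟨t, h1, hqt⟩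
    · exact Or.inr ⟨t, h1, hqt⟩
  have hne : ∀ C : Set (Set ℂ), C.Nonempty → (∀ t ∈ C, t ∈ K.T ∧ p ∈ t) →
      ((ball p (min r r₁) \ {p}) ∩ ⋃₀ C).Nonempty := by
    rintro C ⟨t, ht⟩ hC
    obtain ⟨q, hq1, hq2, hq3⟩ := exists_ne hD K (hC t ht).1 (hC t ht).2 hs
    exact ⟨q, ⟨hq2, hq3⟩, t, ht, hq1⟩
  obtain ⟨q, ⟨hq1, hq2⟩, ⟨t, ht, hqt⟩, ⟨t', ht', hqt'⟩⟩ :=
    hpre _ _ hXc hYc hcov (hne A hA hAt) (hne B hB hBt)
  exact h q (hsr hq1) hq2 t ht t' ht' hqt hqt'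

end GlueAux

open GlueAux

/-- T8 -/
theorem glue (hC : Stmt_Compl) (hD : Stmt_Disc) (hB : Stmt_Basic) (h3 : Stmt_ThreeFin) :
    Stmt_Glue := by
  intro K t ht t' ht' htt p hp r hr h1 h2
  have hK := hB K
  have hsub : {t, t'} ⊆ K.tilesAt p := by
    rintro s (rfl | rfl)
    · exact ⟨ht, hp.1⟩
    · exact ⟨ht', hp.2⟩
  by_contra hne
  have hBne : (K.tilesAt p \ {t, t'}).Nonempty := by
    rw [sdiff_nonempty]
    intro h
    exact hne (h.antisymm hsub)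
  have hfin : (⋃ t₃ ∈ K.tilesAt p \ {t, t'}, (t ∩ t' ∩ t₃)).Finite := by
    refine ((hK.fin_at p).subset sdiff_subset).biUnion ?_
    rintro t₃ ⟨h3a, h3b⟩
    refine (h3 K).1 t ht t' ht' t₃ h3a.1 htt ?_ ?_
    · rintro rfl; exact h3b (Or.inl rfl)
    · rintro rfl; exact h3b (Or.inr rfl)
  set Z := (⋃ t₃ ∈ K.tilesAt p \ {t, t'}, (t ∩ t' ∩ t₃)) \ {p} with hZ
  have hZf : Z.Finite := hfin.subset sdiff_subset
  have hnh : Zᶜ ∈ nhds p := hZf.isClosed.isOpen_compl.mem_nhds (by simp [hZ])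
  obtain ⟨r₂, hr₂, hball⟩ := Metric.mem_nhds_iff.1 hnh
  refine split hC hD K hK p {t, t'} (K.tilesAt p \ {t, t'}) ?_ ⟨t, Or.inl rfl⟩ hBne
    (min r r₂) (lt_min hr hr₂) ?_
  · rw [union_sdiff_cancel hsub]
  · intro q hq hqp s hs t₃ ht₃ hqs hq3
    have hqr : q ∈ ball p r := ball_subset_ball (min_le_left _ _) hq
    have hq2 : q ∈ ball p r₂ := ball_subset_ball (min_le_right _ _) hq
    have h3t : t₃ ∈ K.T := ht₃.1.1
    have hboth : q ∈ t ∧ q ∈ t' := by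
      rcases hs with rfl | rfl
      · have hne3 : s ≠ t₃ := by rintro rfl; exact ht₃.2 (Or.inl rfl)
        have := hK.mem_frontier s ht t₃ h3t hne3 ⟨hqs, hq3⟩
        exact ⟨hqs, h1 ⟨this, hqr⟩⟩
      · have hne3 : s ≠ t₃ := by rintro rfl; exact ht₃.2 (Or.inr rfl)
        have := hK.mem_frontier s ht' t₃ h3t hne3 ⟨hqs, hq3⟩
        exact ⟨h2 ⟨this, hqr⟩, hqs⟩
    refine hball hq2 ?_
    refine ⟨?_, hqp⟩
    rw [mem_iUnion₂]
    exact ⟨t₃, ht₃, ⟨hboth.1, hboth.2⟩, hq3⟩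

/-- T8 -/
theorem closed (hD : Stmt_Disc) (hB : Stmt_Basic) : Stmt_Closed := by
  intro K S hS hf hne h
  have hK := hB K
  have hcomp : IsCompact (⋃₀ S) := by
    refine hf.isCompact_sUnion ?_
    intro t ht
    obtain ⟨c, γ, hd⟩ := hD t (K.n1 t (hS ht))
    exact hd.compact
  have hopen : IsOpen (⋃₀ S) := by
    rw [Metric.isOpen_iff]
    intro p hp
    obtain ⟨r, hr, hn⟩ := hK.nbhd p
    refine ⟨r, hr, ?_⟩
    intro q hq
    have hqu : q ∈ ⋃₀ K.T := by rw [K.tiling.cover]; trivial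
    obtain ⟨t, ht, hqt⟩ := hqu
    have hpt : p ∈ t := hn t ht ⟨q, hqt, hq⟩
    exact ⟨t, h p hp ⟨ht, hpt⟩, hqt⟩
  have hne' : (⋃₀ S).Nonempty := by
    obtain ⟨t, ht⟩ := hne
    obtain ⟨c, γ, hd⟩ := hD t (K.n1 t (hS ht))
    exact ⟨c, t, ht, interior_subset hd.center⟩
  have huniv : ⋃₀ S = univ := IsClopen.eq_univ ⟨hcomp.isClosed, hopen⟩ hne'
  rw [huniv] at hcomp
  exact noncompact_univ ℂ hcomp

/-- T8 -/
theorem star (hC : Stmt_Compl) (hD : Stmt_Disc) (hB : Stmt_Basic) (_h3 : Stmt_ThreeFin) :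
    Stmt_Star := by
  intro K p A hA hne h
  by_contra hcon
  have hBne : (K.tilesAt p \ A).Nonempty := by
    rw [sdiff_nonempty]
    intro h'
    exact hcon (hA.antisymm h')
  refine split hC hD K (hB K) p A (K.tilesAt p \ A) ?_ hne hBne 1 one_pos ?_
  · rw [union_sdiff_cancel hA]
  · intro q _ hqp t ht t' ht' hqt hqt'
    refine ht'.2 (h t ht t' ht'.1 ?_)
    exact ⟨q, ⟨hqt, hqt'⟩, p, ⟨(hA ht).2, ht'.1.2⟩, hqp⟩

end Pool.Agent.CT
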