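import Pool.Agent.CT.TStmts

set_option autoImplicit false

/-! # T10: the intersection of two tiles is an arc between vertices -/

namespace Pool.Agent.CT

open Set Metric

namespace InterAux

theorem range_Icc {γ : ℝ → ℂ} (per : ∀ x y, γ x = γ y ↔ ∃ n : ℤ, y = x + n) (a : ℝ) :
    range γ = γ '' Icc a (a + 1) := by
  apply Subset.antisymm
  · rintro _ ⟨y, rfl⟩
    refine ⟨y - ⌊y - a⌋, ⟨?_, ?_⟩, ?_⟩
    · have := Int.floor_le (y - a)
      linarith
    · have := Int.lt_floor_add_one (y - a)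
      linarith
    · exact (per _ _).2 ⟨⌊y - a⌋, by ring⟩
  · exact image_subset_range _ _

/-- a point strictly between is not an integer translate -/
theorem ne_of_lt {γ : ℝ → ℂ} (per : ∀ x y, γ x = γ y ↔ ∃ n : ℤ, y = x + n) {x y : ℝ}
    (h : x < y) (h' : y < x + 1) : γ x ≠ γ y := by
  intro he
  obtain ⟨n, hn⟩ := (per x y).1 he
  have h1 : (0 : ℝ) < (n : ℝ) := by linarith
  have h2 : (n : ℝ) < 1 := by linarith
  have h3 : (0 : ℤ) < n := by exact_mod_cast h1
  have h4 : n < (1 : ℤ) := by exact_mod_cast h2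
  omega

/-- near an interior point of an arc there are only points of the arc -/
theorem near_arc {γ : ℝ → ℂ} (hc : Continuous γ)
    (per : ∀ x y, γ x = γ y ↔ ∃ n : ℤ, y = x + n) {a b x : ℝ} (hx : a < x) (hx' : x < b)
    (_hab : b < a + 1) : ∃ r > 0, range γ ∩ ball (γ x) r ⊆ γ '' Icc a b := by
  have hcomp : IsCompact (γ '' Icc b (a + 1)) := isCompact_Icc.image hc
  have hnot : γ x ∉ γ '' Icc b (a + 1) := by
    rintro ⟨y, ⟨hy1, hy2⟩, hy⟩
    exact ne_of_lt per (x := x) (y := y) (by linarith) (by linarith) hy.symm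
  have hopen : IsOpen (γ '' Icc b (a + 1))ᶜ := hcomp.isClosed.isOpen_compl
  obtain ⟨r, hr, hr'⟩ := Metric.isOpen_iff.1 hopen (γ x) hnot
  refine ⟨r, hr, ?_⟩
  rintro z ⟨hz, hzb⟩
  rw [range_Icc per a] at hz
  obtain ⟨y, ⟨hy1, hy2⟩, rfl⟩ := hz
  by_cases hyb : y ≤ b
  · exact ⟨y, ⟨hy1, hyb⟩, rfl⟩
  · exact absurd ⟨y, ⟨le_of_lt (not_le.1 hyb), hy2⟩, rfl⟩ (hr' hzb)

/-- three different tiles at a point make it a vertex -/
theorem three_le (K : DiscTiling) (hB : Basic K) {p : ℂ} {t t' s : Set ℂ} (ht : t ∈ K.T)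
    (ht' : t' ∈ K.T) (hs : s ∈ K.T) (h1 : t ≠ t') (h2 : s ≠ t) (h3 : s ≠ t') (hp : p ∈ t)
    (hp' : p ∈ t') (hps : p ∈ s) : 3 ≤ (K.tilesAt p).ncard := by
  have hsub : ({s, t, t'} : Set (Set ℂ)) ⊆ K.tilesAt p := by
    intro q hq
    rcases hq with rfl | rfl | rfl
    · exact ⟨hs, hps⟩
    · exact ⟨ht, hp⟩
    · exact ⟨ht', hp'⟩
  have hcard : ({s, t, t'} : Set (Set ℂ)).ncard = 3 := by
    rw [Set.ncard_eq_three]
    exact ⟨s, t, t', h2, h3, h1, rfl⟩
  rw [← hcard]
  exact Set.ncard_le_ncard hsub (hB.fin_at p)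

/-- the end points of the arc are vertices -/
theorem end_vertex (K : DiscTiling) (hB : Basic K) {t t' : Set ℂ} (ht : t ∈ K.T) (ht' : t' ∈ K.T)
    (hne : t ≠ t') {c : ℂ} {γ : ℝ → ℂ} (hD : DiscData t c γ) {a b x : ℝ}
    (hA : t ∩ t' = γ '' Icc a b) (hx : x ∈ Icc a b)
    (hlim : ∀ δ > 0, ∃ y, |y - x| < δ ∧ γ y ∉ γ '' Icc a b) :
    3 ≤ (K.tilesAt (γ x)).ncard := by
  obtain ⟨r, hr, hr'⟩ := hB.nbhd (γ x)
  obtain ⟨δ, hδ, hδ'⟩ := Metric.continuous_iff.1 hD.cont x r hr
  obtain ⟨y, hy, hyA⟩ := hlim δ hδ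
  have hball : γ y ∈ ball (γ x) r := hδ' y (by rwa [Real.dist_eq])
  have hfr : γ y ∈ frontier t := hD.range ▸ mem_range_self y
  have hyt : γ y ∈ t := hD.compact.isClosed.frontier_subset hfr
  have hyt' : γ y ∉ t' := fun h => hyA (hA ▸ ⟨hyt, h⟩)
  obtain ⟨s, hs, hst, hys⟩ := hB.other t ht (γ y) hfr
  have hst' : s ≠ t' := by
    rintro rfl
    exact hyt' hys
  have hxs : γ x ∈ s := hr' s hs ⟨γ y, hys, hball⟩
  have hxA : γ x ∈ t ∩ t' := by
    rw [hA]
    exact ⟨x, hx, rfl⟩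
  exact three_le K hB ht ht' hs hne hst hst' hxA.1 hxA.2 hxs

end InterAux

open InterAux

/-- T10: the frontier of a tile is not contained in another tile. -/
theorem notSub (hD : Stmt_Disc) (hB : Stmt_Basic) (hG : Stmt_Glue) (hCl : Stmt_Closed)
    (hM : Stmt_CircleMax) : Stmt_NotSub := by
  intro K t ht t' ht' hne hsub
  obtain ⟨c, γ, hγ⟩ := hD t (K.n1 t ht)
  obtain ⟨c', γ', hγ'⟩ := hD t' (K.n1 t' ht')
  have hBK := hB K
  have hfr : frontier t ⊆ frontier t' := fun z hz =>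
    hBK.mem_frontier t' ht' t ht hne.symm ⟨hsub hz, hγ.compact.isClosed.frontier_subset hz⟩
  have heq : frontier t = frontier t' := by
    rw [← hγ.range, ← hγ'.range]
    apply hM γ γ' hγ.cont hγ.per hγ'.cont hγ'.per
    rw [hγ.range, hγ'.range]
    exact hfr
  have hpt : ∀ p ∈ frontier t, K.tilesAt p = {t, t'} := by
    intro p hp
    apply hG K t ht t' ht' hne p ⟨hγ.compact.isClosed.frontier_subset hp, hsub hp⟩ 1 one_pos
    · exact fun z hz => hsub hz.1
    · intro z hz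
      exact hγ.compact.isClosed.frontier_subset (heq ▸ hz.1)
  apply hCl K {t, t'}
  · rintro s (rfl | rfl)
    · exact ht
    · exact ht'
  · exact (Set.finite_singleton t').insert t
  · exact ⟨t, Or.inl rfl⟩
  · rintro p ⟨s, hs, hps⟩
    rcases hs with rfl | hs
    · by_cases hpi : p ∈ interior s
      · rw [hBK.at_int s ht p hpi]
        exact fun z hz => Or.inl hz
      · have hpf : p ∈ frontier s := by
          rw [hγ.compact.isClosed.frontier_eq]
          exact ⟨hps, hpi⟩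
        rw [hpt p hpf]
    · have hs' : s = t' := hs
      subst hs'
      by_cases hpi : p ∈ interior s
      · rw [hBK.at_int s ht' p hpi]
        exact fun z hz => Or.inr hz
      · have hpf : p ∈ frontier s := by
          rw [hγ'.compact.isClosed.frontier_eq]
          exact ⟨hps, hpi⟩
        rw [hpt p (heq ▸ hpf)]

/-- T10: a nontrivial intersection of two tiles is an arc between vertices. -/
theorem inter (hD : Stmt_Disc) (hB : Stmt_Basic) (_h3 : Stmt_ThreeFin) (hG : Stmt_Glue)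
    (hN : Stmt_NotSub) (hA : Stmt_ArcLemma) (hA2 : Stmt_ArcCut) : Stmt_InterT := by
  intro K t ht t' ht' hne hnt c γ hγ
  have hBK := hB K
  obtain ⟨c', γ', hγ'⟩ := hD t' (K.n1 t' ht')
  have hcl : IsClosed (t ∩ t') := hγ.compact.isClosed.inter hγ'.compact.isClosed
  have hsub : t ∩ t' ⊆ range γ := by
    rw [hγ.range]
    exact hBK.mem_frontier t ht t' ht' hne
  have hsub' : t ∩ t' ⊆ range γ' := by
    rw [hγ'.range, inter_comm]
    exact hBK.mem_frontier t' ht' t ht hne.symm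
  have hneq : t ∩ t' ≠ range γ := by
    intro h
    apply hN K t ht t' ht' hne
    rw [← hγ.range, ← h]
    exact inter_subset_right
  have hneq' : t ∩ t' ≠ range γ' := by
    intro h
    apply hN K t' ht' t ht hne.symm
    rw [← hγ'.range, ← h]
    exact inter_subset_left
  obtain ⟨a, b, hab, hab1, hAe⟩ := hA γ hγ.cont hγ.per (t ∩ t') hsub hcl (K.n2 t ht t' ht') hnt hneq
  obtain ⟨a', b', hab', hab1', hAe'⟩ := hA γ' hγ'.cont hγ'.per (t ∩ t') hsub' hcl
    (K.n2 t ht t' ht') hnt hneq'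
  refine ⟨a, b, hab, hab1, hAe, ?_⟩
  intro x hx
  constructor
  · intro h3
    by_contra hcon
    have hxa : x ≠ a := fun h => hcon (Or.inl h)
    have hxb : x ≠ b := fun h => hcon (Or.inr h)
    have hxa' : a < x := lt_of_le_of_ne hx.1 (Ne.symm hxa)
    have hxb' : x < b := lt_of_le_of_ne hx.2 hxb
    have hp : γ x ∈ t ∩ t' := by
      rw [hAe]
      exact ⟨x, hx, rfl⟩
    have hp' : γ x ∈ γ' '' Icc a' b' := hAe' ▸ hp
    obtain ⟨x', hx', hxx'⟩ := hp'
    have hcut : ¬ IsPreconnected ((t ∩ t') \ {γ x}) := by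
      rw [hAe, hA2 γ hγ.cont hγ.per a b hab hab1 x hx]
      exact hcon
    have hcut' : ¬ (x' = a' ∨ x' = b') := by
      intro h
      apply hcut
      rw [hAe', ← hxx', hA2 γ' hγ'.cont hγ'.per a' b' hab' hab1' x' hx']
      exact h
    have hxa2 : a' < x' := lt_of_le_of_ne hx'.1 (fun h => hcut' (Or.inl h.symm))
    have hxb2 : x' < b' := lt_of_le_of_ne hx'.2 (fun h => hcut' (Or.inr h))
    obtain ⟨r, hr, hr'⟩ := near_arc hγ.cont hγ.per hxa' hxb' hab1
    obtain ⟨s, hs, hs'⟩ := near_arc hγ'.cont hγ'.per hxa2 hxb2 hab1'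
    rw [hxx', hγ'.range, ← hAe'] at hs'
    rw [hγ.range, ← hAe] at hr'
    have hglue := hG K t ht t' ht' hne (γ x) hp (min r s) (lt_min hr hs)
      (fun z hz => (hr' ⟨hz.1, ball_subset_ball (min_le_left _ _) hz.2⟩).2)
      (fun z hz => (hs' ⟨hz.1, ball_subset_ball (min_le_right _ _) hz.2⟩).1)
    rw [hglue, Set.ncard_pair hne] at h3
    omega
  · intro h
    apply end_vertex K hBK ht ht' hne hγ hAe hx
    intro δ hδ
    rcases h with rfl | rfl
    · -- x = a
      set ε := min (δ / 2) ((x + 1 - b) / 2) with hε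
      have hε0 : 0 < ε := lt_min (by linarith) (by linarith)
      have hε1 : ε ≤ δ / 2 := min_le_left _ _
      have hε2 : ε ≤ (x + 1 - b) / 2 := min_le_right _ _
      refine ⟨x - ε, ?_, ?_⟩
      · rw [show x - ε - x = -ε by ring, abs_neg, abs_of_pos hε0]
        linarith
      · rintro ⟨y, ⟨hy1, hy2⟩, hy⟩
        exact ne_of_lt hγ.per (x := x - ε) (y := y) (by linarith) (by linarith) hy.symm
    · -- x = b
      set ε := min (δ / 2) ((a + 1 - x) / 2) with hε
      have hε0 : 0 < ε := lt_min (by linarith) (by linarith)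
      have hε1 : ε ≤ δ / 2 := min_le_left _ _
      have hε2 : ε ≤ (a + 1 - x) / 2 := min_le_right _ _
      refine ⟨x + ε, ?_, ?_⟩
      · rw [show x + ε - x = ε by ring, abs_of_pos hε0]
        linarith
      · rintro ⟨y, ⟨hy1, hy2⟩, hy⟩
        exact ne_of_lt hγ.per (x := y) (y := x + ε) (by linarith) (by linarith) hy

end Pool.Agent.CT
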