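import Pool.Agent.CT.TStmts

set_option autoImplicit false

/-! # T3: invariance of domain in the plane (the centre of a disc) -/

namespace Pool.Agent.CT

open Set Metric Filter Topology

theorem t3_const {X : Type*} [TopologicalSpace X] [PreconnectedSpace X] {F : X → ℂ}
    (hF : Continuous F) {w : ℂ} (h : ∀ x, Complex.exp (F x) = w) (x y : X) : F x = F y := by
  have h1 := Complex.isCoveringMap_exp.eq_of_comp_eq (g₁ := F) (g₂ := fun _ => F y) hF
    continuous_const (by
      funext z
      apply Subtype.ext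
      simp only [Function.comp_apply]
      rw [h, h]) y rfl
  exact congrFun h1 x

theorem t3_lift {E : Type*} [NormedAddCommGroup E] [NormedSpace ℝ E] {g : E → ℂ}
    (hg : Continuous g) (h0 : ∀ x, g x ≠ 0) :
    ∃ l : E → ℂ, Continuous l ∧ ∀ x, Complex.exp (l x) = g x := by
  have hs : IsSimplyConnected (univ : Set E) :=
    (Homeomorph.Set.univ E).toHomotopyEquiv.simplyConnectedSpace
  obtain ⟨l, hl, hl2⟩ := Complex.exists_continuousOn_eqOn_exp_comp hs isOpen_univ
    (g := g) hg.continuousOn (by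
      rintro ⟨x, -, hx⟩
      exact h0 x hx)
  exact ⟨l, continuousOn_univ.1 hl, fun x => hl2 (mem_univ x)⟩

/-- The radial retraction onto the closed unit disc. -/
noncomputable def t3_proj (z : ℂ) : ℂ := z / (max 1 ‖z‖ : ℝ)

theorem t3_proj_cont : Continuous t3_proj := by
  refine continuous_id.div (Complex.continuous_ofReal.comp
    (continuous_const.max continuous_norm)) (fun z => ?_)
  simp only [ne_eq, Complex.ofReal_eq_zero]
  have : (1 : ℝ) ≤ max 1 ‖z‖ := le_max_left _ _
  intro h
  rw [h] at this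
  linarith

theorem t3_proj_mem (z : ℂ) : t3_proj z ∈ closedBall (0 : ℂ) 1 := by
  rw [mem_closedBall_zero_iff, t3_proj, norm_div, Complex.norm_real, Real.norm_eq_abs,
    abs_of_pos (lt_of_lt_of_le one_pos (le_max_left 1 ‖z‖)),
    div_le_one (lt_of_lt_of_le one_pos (le_max_left 1 ‖z‖))]
  exact le_max_right _ _

theorem t3_proj_of_mem {z : ℂ} (hz : z ∈ closedBall (0 : ℂ) 1) : t3_proj z = z := by
  rw [mem_closedBall_zero_iff] at hz
  rw [t3_proj, max_eq_left hz]
  simp

theorem t3_unit : ∀ f : ℂ → ℂ, ContinuousOn f (closedBall 0 1) →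
    InjOn f (closedBall 0 1) → f 0 ∈ interior (f '' closedBall 0 1) := by
  intro f hf hinj
  by_contra hcon
  -- a continuous extension to the plane
  set g : ℂ → ℂ := fun z => f (t3_proj z) with hg
  have hgc : Continuous g := hf.comp_continuous t3_proj_cont t3_proj_mem
  have hgf : ∀ z ∈ closedBall (0 : ℂ) 1, g z = f z := fun z hz => by
    rw [hg]
    simp only [t3_proj_of_mem hz]
  -- the minimum of |f - f 0| on the circle
  obtain ⟨z0, hz0, hmin⟩ := (isCompact_sphere (0 : ℂ) 1).exists_isMinOn
    (NormedSpace.sphere_nonempty.2 zero_le_one)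
    (f := fun z => ‖g z - g 0‖) ((hgc.sub continuous_const).norm.continuousOn)
  have h0mem : (0 : ℂ) ∈ closedBall (0 : ℂ) 1 := by simp
  have hz0mem : z0 ∈ closedBall (0 : ℂ) 1 := sphere_subset_closedBall hz0
  have hmpos : 0 < ‖g z0 - g 0‖ := by
    rw [norm_pos_iff, sub_ne_zero, hgf z0 hz0mem, hgf 0 h0mem]
    intro h
    have := hinj hz0mem h0mem h
    rw [this] at hz0
    simp at hz0
  -- a point outside the image
  obtain ⟨y, hy, hym⟩ : ∃ y, y ∉ f '' closedBall 0 1 ∧ ‖y - f 0‖ < ‖g z0 - g 0‖ := by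
    have h1 : f 0 ∈ closure ((f '' closedBall 0 1)ᶜ) := by
      rw [closure_compl]
      exact hcon
    obtain ⟨y, hy, hd⟩ := Metric.mem_closure_iff.1 h1 _ hmpos
    exact ⟨y, hy, by rwa [dist_comm, dist_eq_norm] at hd⟩
  -- the two homotopies
  set c : ℝ → ℝ := fun s => max 0 (min s 1) with hc
  have hcc : Continuous c := continuous_const.max (continuous_id.min continuous_const)
  have hc0 : ∀ s, 0 ≤ c s := fun s => le_max_left _ _
  have hc1 : ∀ s, c s ≤ 1 := fun s => max_le zero_le_one (min_le_right _ _)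
  set e : ℝ → ℂ := fun x => Complex.exp (x * Complex.I) with he
  have hec : Continuous e := by
    rw [he]
    fun_prop
  have hen : ∀ x, ‖e x‖ = 1 := fun x => Complex.norm_exp_ofReal_mul_I x
  have hepi : ∀ x, e (x + Real.pi) = - e x := by
    intro x
    simp only [he, Complex.ofReal_add, add_mul, Complex.exp_add, Complex.exp_pi_mul_I]
    ring
  have he2pi : ∀ x, e (x + 2 * Real.pi) = e x := by
    intro x
    have : x + 2 * Real.pi = (x + Real.pi) + Real.pi := by ring
    rw [this, hepi, hepi, neg_neg]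
  set U : ℝ × ℝ → ℂ := fun q => g (e q.2 / ((1 + c q.1 : ℝ) : ℂ))
    - g (-((c q.1 : ℝ) : ℂ) * e q.2 / ((1 + c q.1 : ℝ) : ℂ)) - ((c (-q.1) : ℝ) : ℂ) * (y - f 0)
    with hU
  have hden : ∀ s : ℝ, ((1 + c s : ℝ) : ℂ) ≠ 0 := by
    intro s
    rw [ne_eq, Complex.ofReal_eq_zero]
    have := hc0 s
    linarith
  have hUc : Continuous U := by
    have hc' : Continuous fun q : ℝ × ℝ => ((c q.1 : ℝ) : ℂ) :=
      Complex.continuous_ofReal.comp (hcc.comp continuous_fst)
    have hc'' : Continuous fun q : ℝ × ℝ => ((c (-q.1) : ℝ) : ℂ) :=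
      Complex.continuous_ofReal.comp (hcc.comp continuous_fst.neg)
    have hd' : Continuous fun q : ℝ × ℝ => ((1 + c q.1 : ℝ) : ℂ) :=
      Complex.continuous_ofReal.comp (continuous_const.add (hcc.comp continuous_fst))
    have he' : Continuous fun q : ℝ × ℝ => e q.2 := hec.comp continuous_snd
    refine ((hgc.comp (he'.div hd' (fun q => hden q.1))).sub
      (hgc.comp ((hc'.neg.mul he').div hd' (fun q => hden q.1)))).sub (hc''.mul continuous_const)
  have hden1 : ∀ s : ℝ, 0 < 1 + c s := fun s => by have := hc0 s; linarith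
  have hamem : ∀ q : ℝ × ℝ, e q.2 / ((1 + c q.1 : ℝ) : ℂ) ∈ closedBall (0 : ℂ) 1 := by
    intro q
    rw [mem_closedBall_zero_iff, norm_div, hen, Complex.norm_real, Real.norm_eq_abs,
      abs_of_pos (hden1 _), div_le_one (hden1 _)]
    linarith [hc0 q.1]
  have hbmem : ∀ q : ℝ × ℝ, -((c q.1 : ℝ) : ℂ) * e q.2 / ((1 + c q.1 : ℝ) : ℂ)
      ∈ closedBall (0 : ℂ) 1 := by
    intro q
    rw [mem_closedBall_zero_iff, norm_div, norm_mul, hen, norm_neg, Complex.norm_real,
      Complex.norm_real, Real.norm_eq_abs, Real.norm_eq_abs, abs_of_pos (hden1 _),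
      abs_of_nonneg (hc0 _), div_le_one (hden1 _)]
    linarith [hc1 q.1]
  have hU0 : ∀ q, U q ≠ 0 := by
    intro q hq
    rcases le_or_gt q.1 0 with hs | hs
    · have hcz : c q.1 = 0 := by
        simp only [hc]
        exact max_eq_left (le_trans (min_le_left _ _) hs)
      simp only [hU, hcz] at hq
      simp only [add_zero, Complex.ofReal_one, div_one, Complex.ofReal_zero, neg_zero, zero_mul]
        at hq
      have h1 : g (e q.2) - g 0 = ((c (-q.1) : ℝ) : ℂ) * (y - f 0) := sub_eq_zero.1 hq
      have h2 : ‖g z0 - g 0‖ ≤ ‖g (e q.2) - g 0‖ := by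
        have := hmin (show e q.2 ∈ sphere (0 : ℂ) 1 by
          rw [mem_sphere_zero_iff_norm]; exact hen _)
        exact this
      rw [h1, norm_mul, Complex.norm_real, Real.norm_eq_abs, abs_of_nonneg (hc0 _)] at h2
      have h3 : c (-q.1) * ‖y - f 0‖ ≤ 1 * ‖y - f 0‖ :=
        mul_le_mul_of_nonneg_right (hc1 _) (norm_nonneg _)
      linarith
    · have hcz : c (-q.1) = 0 := by
        simp only [hc]
        exact max_eq_left (le_trans (min_le_left _ _) (by linarith))
      simp only [hU, hcz] at hq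
      rw [Complex.ofReal_zero, zero_mul, sub_zero, sub_eq_zero, hgf _ (hamem q),
        hgf _ (hbmem q)] at hq
      have h1 := hinj (hamem q) (hbmem q) hq
      rw [div_eq_div_iff (hden _) (hden _)] at h1
      have h2 := mul_right_cancel₀ (hden q.1) h1
      have h3 : ((1 + c q.1 : ℝ) : ℂ) * e q.2 = 0 := by
        push_cast
        linear_combination h2
      rcases mul_eq_zero.1 h3 with h4 | h4
      · exact hden _ h4
      · have := hen q.2
        rw [h4, norm_zero] at this
        exact zero_ne_one this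
  obtain ⟨Λ, hΛ, hexp⟩ := t3_lift hUc hU0
  -- the map to the complement of y
  have hH0 : ∀ z, g z - y ≠ 0 := by
    intro z hz
    exact hy ⟨t3_proj z, t3_proj_mem z, sub_eq_zero.1 hz⟩
  obtain ⟨L, hL, hLexp⟩ := t3_lift (hgc.sub continuous_const) hH0
  -- the period
  have hD : Λ (1, 0 + 2 * Real.pi) - Λ (1, 0) = Λ (-1, 0 + 2 * Real.pi) - Λ (-1, 0) := by
    refine t3_const (X := ℝ × ℝ) (F := fun q => Λ (q.1, q.2 + 2 * Real.pi) - Λ (q.1, q.2))
      ?_ (w := 1) ?_ (1, 0) (-1, 0)
    · exact (hΛ.comp (continuous_fst.prodMk (continuous_snd.add continuous_const))).sub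
        (hΛ.comp (continuous_fst.prodMk continuous_snd))
    · intro q
      rw [Complex.exp_sub, hexp, hexp]
      have : U (q.1, q.2 + 2 * Real.pi) = U (q.1, q.2) := by
        simp only [hU, he2pi]
      rw [this]
      exact div_self (hU0 _)
  -- at parameter 1 it is not zero
  have hc11 : c 1 = 1 := by simp [hc]
  have hcm1 : c (-1) = 0 := by
    simp only [hc]
    exact max_eq_left (le_trans (min_le_left _ _) (by norm_num))
  have hanti : ∀ x, U (1, x + Real.pi) = - U (1, x) := by
    intro x
    simp only [hU, hc11, hcm1, hepi]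
    simp only [Complex.ofReal_zero, zero_mul, sub_zero, Complex.ofReal_one]
    rw [show (-1 : ℂ) * -e x = e x by ring, show (-1 : ℂ) * e x = - e x by ring]
    ring
  have hE : ∀ x, Complex.exp (Λ (1, x + Real.pi) - Λ (1, x)) = -1 := by
    intro x
    rw [Complex.exp_sub, hexp, hexp, hanti, neg_div, div_self (hU0 _)]
  have hEc := t3_const (X := ℝ) (F := fun x => Λ (1, x + Real.pi) - Λ (1, x))
    ((hΛ.comp (continuous_const.prodMk (continuous_id.add continuous_const))).sub
      (hΛ.comp (continuous_const.prodMk continuous_id))) hE 0 (0 + Real.pi)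
  -- at parameter -1 it is zero
  have hK := t3_const (X := ℝ) (F := fun x => Λ (-1, x) - L (e x))
    ((hΛ.comp (continuous_const.prodMk continuous_id)).sub (hL.comp hec)) (w := 1) (by
      intro x
      rw [Complex.exp_sub, hexp, hLexp]
      have : U (-1, x) = g (e x) - y := by
        simp only [hU, hcm1, neg_neg, hc11]
        simp only [add_zero, Complex.ofReal_one, div_one, Complex.ofReal_zero, neg_zero,
          zero_mul]
        rw [hgf 0 h0mem]
        ring
      rw [this]
      exact div_self (hH0 _)) 0 (0 + 2 * Real.pi)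
  simp only [he2pi] at hK
  have h2 : Λ (1, 0 + Real.pi) - Λ (1, 0) = 0 := by
    have e1 : (0 : ℝ) + 2 * Real.pi = 0 + Real.pi + Real.pi := by ring
    rw [e1] at hD hK
    have h3 : Λ (-1, 0 + Real.pi + Real.pi) - Λ (-1, 0) = 0 := by
      linear_combination -hK
    have h4 : 2 * (Λ (1, 0 + Real.pi) - Λ (1, 0)) = 0 := by
      linear_combination hD + h3 + hEc
    exact (mul_eq_zero.1 h4).resolve_left two_ne_zero
  have h3 := hE 0
  rw [h2, Complex.exp_zero] at h3
  norm_num at h3

theorem invDom : Stmt_InvDomT := by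
  intro c r hr f hf hinj
  have hr0 : (r : ℂ) ≠ 0 := by exact_mod_cast hr.ne'
  have hmaps : ∀ z ∈ closedBall (0 : ℂ) 1, c + r * z ∈ closedBall c r := by
    intro z hz
    rw [mem_closedBall_zero_iff] at hz
    rw [mem_closedBall, dist_eq_norm, add_sub_cancel_left, norm_mul, Complex.norm_real,
      Real.norm_eq_abs, abs_of_pos hr]
    nlinarith
  have h := t3_unit (fun z => f (c + r * z))
    (hf.comp (by fun_prop) hmaps)
    (fun x hx y hy hxy => by
      have h1 := hinj (hmaps x hx) (hmaps y hy) hxy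
      exact mul_left_cancel₀ hr0 (add_left_cancel h1))
  have h2 : (fun z : ℂ => f (c + r * z)) '' closedBall 0 1 ⊆ f '' closedBall c r := by
    rintro _ ⟨z, hz, rfl⟩
    exact ⟨_, hmaps z hz, rfl⟩
  have h3 := interior_mono h2 h
  simpa using h3

end Pool.Agent.CT
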