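import Pool.Agent.CT.TStmts

set_option autoImplicit false

/-! # Block T2: strong nonplanarity of the two Kuratowski graphs -/

namespace Pool.Agent.CT

open Set Metric

/-- The arithmetic behind the five point configuration. -/
theorem kur_five (n : Fin 5 → Fin 5 → Fin 5 → ℤ)
    (hn : ∀ u v w x : Fin 5, u < v → w < x → True → True → u ≠ w → u ≠ x → v ≠ w → v ≠ x →
      n u v w + n w x v - n u v x - n w x u =
        (if u < x ∧ x < v then 1 else 0) - (if u < w ∧ w < v then 1 else 0)) : False := by
  have e0 := hn 0 1 2 3 (by decide) (by decide) trivial trivial (by decide) (by decide) (by decide) (by decide)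
  rw [if_neg (by decide), if_neg (by decide)] at e0
  have e1 := hn 0 2 1 3 (by decide) (by decide) trivial trivial (by decide) (by decide) (by decide) (by decide)
  rw [if_neg (by decide), if_pos (by decide)] at e1
  have e2 := hn 0 3 1 2 (by decide) (by decide) trivial trivial (by decide) (by decide) (by decide) (by decide)
  rw [if_pos (by decide), if_pos (by decide)] at e2
  have e3 := hn 0 1 2 4 (by decide) (by decide) trivial trivial (by decide) (by decide) (by decide) (by decide)
  rw [if_neg (by decide), if_neg (by decide)] at e3
  have e4 := hn 0 2 1 4 (by decide) (by decide) trivial trivial (by decide) (by decide) (by decide) (by decide)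
  rw [if_neg (by decide), if_pos (by decide)] at e4
  have e5 := hn 0 4 1 2 (by decide) (by decide) trivial trivial (by decide) (by decide) (by decide) (by decide)
  rw [if_pos (by decide), if_pos (by decide)] at e5
  have e6 := hn 0 1 3 4 (by decide) (by decide) trivial trivial (by decide) (by decide) (by decide) (by decide)
  rw [if_neg (by decide), if_neg (by decide)] at e6
  have e7 := hn 0 3 1 4 (by decide) (by decide) trivial trivial (by decide) (by decide) (by decide) (by decide)
  rw [if_neg (by decide), if_pos (by decide)] at e7
  have e8 := hn 0 4 1 3 (by decide) (by decide) trivial trivial (by decide) (by decide) (by decide) (by decide)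
  rw [if_pos (by decide), if_pos (by decide)] at e8
  have e9 := hn 0 2 3 4 (by decide) (by decide) trivial trivial (by decide) (by decide) (by decide) (by decide)
  rw [if_neg (by decide), if_neg (by decide)] at e9
  have e10 := hn 0 3 2 4 (by decide) (by decide) trivial trivial (by decide) (by decide) (by decide) (by decide)
  rw [if_neg (by decide), if_pos (by decide)] at e10
  have e11 := hn 0 4 2 3 (by decide) (by decide) trivial trivial (by decide) (by decide) (by decide) (by decide)
  rw [if_pos (by decide), if_pos (by decide)] at e11
  have e12 := hn 1 2 3 4 (by decide) (by decide) trivial trivial (by decide) (by decide) (by decide) (by decide)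
  rw [if_neg (by decide), if_neg (by decide)] at e12
  have e13 := hn 1 3 2 4 (by decide) (by decide) trivial trivial (by decide) (by decide) (by decide) (by decide)
  rw [if_neg (by decide), if_pos (by decide)] at e13
  have e14 := hn 1 4 2 3 (by decide) (by decide) trivial trivial (by decide) (by decide) (by decide) (by decide)
  rw [if_pos (by decide), if_pos (by decide)] at e14
  omega

/-- The arithmetic behind the six point configuration. -/
theorem kur_six (n : Fin 6 → Fin 6 → Fin 6 → ℤ)
    (hn : ∀ u v w x : Fin 6, u < v → w < x → (u.val % 2 ≠ v.val % 2) → (w.val % 2 ≠ x.val % 2) →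
      u ≠ w → u ≠ x → v ≠ w → v ≠ x →
      n u v w + n w x v - n u v x - n w x u =
        (if u < x ∧ x < v then 1 else 0) - (if u < w ∧ w < v then 1 else 0)) : False := by
  have e0 := hn 0 1 2 3 (by decide) (by decide) (by decide) (by decide) (by decide) (by decide) (by decide) (by decide)
  rw [if_neg (by decide), if_neg (by decide)] at e0
  have e1 := hn 0 1 2 5 (by decide) (by decide) (by decide) (by decide) (by decide) (by decide) (by decide) (by decide)
  rw [if_neg (by decide), if_neg (by decide)] at e1
  have e2 := hn 0 1 3 4 (by decide) (by decide) (by decide) (by decide) (by decide) (by decide) (by decide) (by decide)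
  rw [if_neg (by decide), if_neg (by decide)] at e2
  have e3 := hn 0 1 4 5 (by decide) (by decide) (by decide) (by decide) (by decide) (by decide) (by decide) (by decide)
  rw [if_neg (by decide), if_neg (by decide)] at e3
  have e4 := hn 0 3 1 2 (by decide) (by decide) (by decide) (by decide) (by decide) (by decide) (by decide) (by decide)
  rw [if_pos (by decide), if_pos (by decide)] at e4
  have e5 := hn 0 3 1 4 (by decide) (by decide) (by decide) (by decide) (by decide) (by decide) (by decide) (by decide)
  rw [if_neg (by decide), if_pos (by decide)] at e5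
  have e6 := hn 0 3 2 5 (by decide) (by decide) (by decide) (by decide) (by decide) (by decide) (by decide) (by decide)
  rw [if_neg (by decide), if_pos (by decide)] at e6
  have e7 := hn 0 3 4 5 (by decide) (by decide) (by decide) (by decide) (by decide) (by decide) (by decide) (by decide)
  rw [if_neg (by decide), if_neg (by decide)] at e7
  have e8 := hn 0 5 1 2 (by decide) (by decide) (by decide) (by decide) (by decide) (by decide) (by decide) (by decide)
  rw [if_pos (by decide), if_pos (by decide)] at e8
  have e9 := hn 0 5 1 4 (by decide) (by decide) (by decide) (by decide) (by decide) (by decide) (by decide) (by decide)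
  rw [if_pos (by decide), if_pos (by decide)] at e9
  have e10 := hn 0 5 2 3 (by decide) (by decide) (by decide) (by decide) (by decide) (by decide) (by decide) (by decide)
  rw [if_pos (by decide), if_pos (by decide)] at e10
  have e11 := hn 0 5 3 4 (by decide) (by decide) (by decide) (by decide) (by decide) (by decide) (by decide) (by decide)
  rw [if_pos (by decide), if_pos (by decide)] at e11
  have e12 := hn 1 2 3 4 (by decide) (by decide) (by decide) (by decide) (by decide) (by decide) (by decide) (by decide)
  rw [if_neg (by decide), if_neg (by decide)] at e12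
  have e13 := hn 1 2 4 5 (by decide) (by decide) (by decide) (by decide) (by decide) (by decide) (by decide) (by decide)
  rw [if_neg (by decide), if_neg (by decide)] at e13
  have e14 := hn 1 4 2 3 (by decide) (by decide) (by decide) (by decide) (by decide) (by decide) (by decide) (by decide)
  rw [if_pos (by decide), if_pos (by decide)] at e14
  have e15 := hn 1 4 2 5 (by decide) (by decide) (by decide) (by decide) (by decide) (by decide) (by decide) (by decide)
  rw [if_neg (by decide), if_pos (by decide)] at e15
  have e16 := hn 2 3 4 5 (by decide) (by decide) (by decide) (by decide) (by decide) (by decide) (by decide) (by decide)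
  rw [if_neg (by decide), if_neg (by decide)] at e16
  have e17 := hn 2 5 3 4 (by decide) (by decide) (by decide) (by decide) (by decide) (by decide) (by decide) (by decide)
  rw [if_pos (by decide), if_pos (by decide)] at e17
  omega

/-- Paths from joined points. -/
theorem kur_paths {N : ℕ} (h : Stmt_Turn) (p : Fin N → ℂ) (H : Fin N → Fin N → Prop)
    (Z : Fin N → Fin N → Set ℂ)
    (hJ : ∀ u v, u < v → H u v → JoinedIn (Z u v) (p u) (p v))
    (hD : ∀ u v w x, u < v → w < x → H u v → H w x → u ≠ w → u ≠ x → v ≠ w → v ≠ x →
      Disjoint (Z u v) (Z w x)) :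
    ∃ n : Fin N → Fin N → Fin N → ℤ, ∀ u v w x, u < v → w < x → H u v → H w x →
      u ≠ w → u ≠ x → v ≠ w → v ≠ x →
      n u v w + n w x v - n u v x - n w x u =
        (if u < x ∧ x < v then 1 else 0) - (if u < w ∧ w < v then 1 else 0) := by
  classical
  have hg : ∀ u v, ∃ g : C(unitInterval, ℂ), u < v → H u v →
      (g 0 = p u ∧ g 1 = p v ∧ ∀ t, g t ∈ Z u v) := by
    intro u v
    by_cases h1 : u < v ∧ H u v
    · obtain ⟨γ, hγ⟩ := hJ u v h1.1 h1.2
      exact ⟨γ.toContinuousMap, fun _ _ => ⟨γ.source, γ.target, hγ⟩⟩
    · exact ⟨ContinuousMap.const _ 0, fun h2 h3 => absurd ⟨h2, h3⟩ h1⟩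
  choose g hg using hg
  refine h N p H g (fun u v h1 h2 => ⟨(hg u v h1 h2).1, (hg u v h1 h2).2.1⟩) ?_
  intro u v w x h1 h2 h3 h4 h5 h6 h7 h8 s t hst
  have h9 := (hg u v h1 h3).2.2 s
  have h10 := (hg w x h2 h4).2.2 t
  rw [← hst] at h10
  exact Set.disjoint_left.1 (hD u v w x h1 h2 h3 h4 h5 h6 h7 h8) h9 h10

theorem k5 (h : Stmt_Turn) : Stmt_K5 := by
  intro p Z hJ hD
  obtain ⟨n, hn⟩ := kur_paths h p (fun _ _ => True) Z (fun u v h1 _ => hJ u v h1)
    (fun u v w x h1 h2 _ _ h5 h6 h7 h8 => hD u v w x h1 h2 h5 h6 h7 h8)
  exact kur_five n hn

/-- Half of the index. -/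
def kurHalf (u : Fin 6) : Fin 3 := ⟨u.val / 2, by omega⟩

theorem kurHalf_ne {u v : Fin 6} (h : u ≠ v) (h2 : u.val % 2 = v.val % 2) :
    kurHalf u ≠ kurHalf v := by
  intro h3
  have h4 : u.val / 2 = v.val / 2 := congrArg Fin.val h3
  apply h
  apply Fin.ext
  omega

theorem k33 (h : Stmt_Turn) : Stmt_K33 := by
  intro a b Z hJ hD
  obtain ⟨n, hn⟩ := kur_paths h
    (fun u : Fin 6 => if u.val % 2 = 0 then a (kurHalf u) else b (kurHalf u))
    (fun u v => u.val % 2 ≠ v.val % 2)
    (fun u v => if u.val % 2 = 0 then Z (kurHalf u) (kurHalf v) else Z (kurHalf v) (kurHalf u))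
    (by
      intro u v _ hp
      by_cases hu : u.val % 2 = 0
      · have hv : ¬ v.val % 2 = 0 := fun h1 => hp (by rw [hu, h1])
        simp only [hu, hv, if_true, if_false]
        exact hJ _ _
      · have hv : v.val % 2 = 0 := by omega
        simp only [hu, hv, if_true, if_false]
        exact (hJ _ _).symm)
    (by
      intro u v w x _ _ hp hq h1 h2 h3 h4
      by_cases hu : u.val % 2 = 0
      · by_cases hw : w.val % 2 = 0
        · simp only [hu, hw, if_true]
          exact hD _ _ _ _ (kurHalf_ne h1 (by omega)) (kurHalf_ne h4 (by omega))
        · simp only [hu, hw, if_true, if_false]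
          exact hD _ _ _ _ (kurHalf_ne h2 (by omega)) (kurHalf_ne h3 (by omega))
      · by_cases hw : w.val % 2 = 0
        · simp only [hu, hw, if_true, if_false]
          exact hD _ _ _ _ (kurHalf_ne h3 (by omega)) (kurHalf_ne h2 (by omega))
        · simp only [hu, hw, if_false]
          exact hD _ _ _ _ (kurHalf_ne h4 (by omega)) (kurHalf_ne h1 (by omega)))
  exact kur_six n hn

end Pool.Agent.CT
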