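import Pool.Agent.CT.TStmts

set_option autoImplicit false

/-! # Assembly of `Stmt_Map` -/

namespace Pool.Agent.CT

open Set Metric

theorem mapT (hPoly : Stmt_Poly) (hPl : Stmt_Planar) (hE : Stmt_Ends) : Stmt_Map := by
  intro K
  obtain ⟨M, hM⟩ := hPoly K
  obtain ⟨h1, h2, h3, h4, h5, h6⟩ := hE K M hM
  exact ⟨⟨M, h1, h2, hPl K M hM, h3, h4, h5, h6⟩, hM⟩

end Pool.Agent.CT
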