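import Pool.Agent.CT.TStmts

set_option autoImplicit false

/-! # T15: the cell graph of a disc tiling is strongly planar -/

namespace Pool.Agent.CT

open Set Metric

section planarT

variable {K : DiscTiling}

/-- The point set of a cell. -/
def plCs (K : DiscTiling) : Cell K.V K.E K.F → Set ℂ
  | .vert v => {v.1}
  | .edge e => {z | z ∈ e.1 ∧ ¬ 3 ≤ (K.tilesAt z).ncard}
  | .face f => interior f.1

theorem pl_edge_param (hD : Stmt_Disc) (hI : Stmt_InterT) (e : K.E) :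
    ∃ (γ : ℝ → ℂ) (a b : ℝ), Continuous γ ∧ a < b ∧ e.1 = γ '' Icc a b ∧
      (∀ x ∈ Icc a b, (3 ≤ (K.tilesAt (γ x)).ncard ↔ (x = a ∨ x = b))) := by
  obtain ⟨hn, t, ht, t', ht', hne, he⟩ := e.2
  obtain ⟨c, γ, hd⟩ := hD t (K.n1 t ht)
  obtain ⟨a, b, hab, -, h1, h2⟩ := hI K t ht t' ht' hne (he ▸ hn) c γ hd
  exact ⟨γ, a, b, hd.cont, hab, by rw [he, h1], h2⟩

theorem pl_edge_cs (e : K.E) {γ : ℝ → ℂ} {a b : ℝ} (he : e.1 = γ '' Icc a b)
    (h2 : ∀ x ∈ Icc a b, (3 ≤ (K.tilesAt (γ x)).ncard ↔ (x = a ∨ x = b))) :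
    plCs K (.edge e) = γ '' Ioo a b := by
  ext z
  constructor
  · rintro ⟨hz, hv⟩
    rw [he] at hz
    obtain ⟨x, hx, rfl⟩ := hz
    rw [h2 x hx] at hv
    push Not at hv
    exact ⟨x, ⟨lt_of_le_of_ne hx.1 (Ne.symm hv.1), lt_of_le_of_ne hx.2 hv.2⟩, rfl⟩
  · rintro ⟨x, hx, rfl⟩
    have hx' := Ioo_subset_Icc_self hx
    refine ⟨?_, ?_⟩
    · rw [he]
      exact mem_image_of_mem _ hx'
    · rw [h2 x hx']
      rintro (h | h)
      · exact hx.1.ne' h
      · exact hx.2.ne h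

theorem pl_nonempty (hD : Stmt_Disc) (hI : Stmt_InterT) (A : Cell K.V K.E K.F) :
    (plCs K A).Nonempty := by
  cases A with
  | vert v => exact ⟨v.1, rfl⟩
  | edge e =>
    obtain ⟨γ, a, b, -, hab, he, h2⟩ := pl_edge_param hD hI e
    rw [pl_edge_cs e he h2]
    exact (nonempty_Ioo.2 hab).image _
  | face f =>
    obtain ⟨c, γ, hd⟩ := hD f.1 (K.n1 f.1 f.2)
    exact ⟨c, hd.center⟩

theorem pl_int_not (hB : Basic K) {f : K.F} {z : ℂ} (hz : z ∈ interior f.1) {t : Set ℂ}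
    (ht : t ∈ K.T) (hzt : z ∈ t) : t = f.1 := by
  have h := hB.at_int f.1 f.2 z hz
  have : t ∈ K.tilesAt z := ⟨ht, hzt⟩
  rw [h] at this
  exact this

theorem pl_int_not3 (hB : Basic K) {f : K.F} {z : ℂ} (hz : z ∈ interior f.1) :
    ¬ 3 ≤ (K.tilesAt z).ncard := by
  rw [hB.at_int f.1 f.2 z hz, ncard_singleton]
  omega

theorem pl_disj (hB : Basic K) (hP : PreMap K) (A B : Cell K.V K.E K.F) {z : ℂ}
    (hA : z ∈ plCs K A) (hBz : z ∈ plCs K B) : A = B := by
  have vf : ∀ (v : K.V) (f : K.F), z ∈ plCs K (.vert v) → z ∈ plCs K (.face f) → False := by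
    intro v f h1 h2
    have h1' : z = v.1 := h1
    apply pl_int_not3 hB (f := f) h2
    rw [h1']
    exact v.2
  have ve : ∀ (v : K.V) (e : K.E), z ∈ plCs K (.vert v) → z ∈ plCs K (.edge e) → False := by
    intro v e h1 h2
    have h1' : z = v.1 := h1
    apply h2.2
    rw [h1']
    exact v.2
  have ef : ∀ (e : K.E) (f : K.F), z ∈ plCs K (.edge e) → z ∈ plCs K (.face f) → False := by
    intro e f h1 h2
    obtain ⟨hn, t, ht, t', ht', hne, he⟩ := e.2
    have h3 : z ∈ t ∩ t' := he ▸ h1.1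
    exact hne ((pl_int_not hB h2 ht h3.1).trans (pl_int_not hB h2 ht' h3.2).symm)
  cases A with
  | vert v =>
    cases B with
    | vert w =>
      have h1 : z = v.1 := hA
      have h2 : z = w.1 := hBz
      rw [Subtype.ext (h1.symm.trans h2)]
    | edge e => exact (ve v e hA hBz).elim
    | face f => exact (vf v f hA hBz).elim
  | edge e =>
    cases B with
    | vert w => exact (ve w e hBz hA).elim
    | edge d =>
      by_contra hne
      have hed : e ≠ d := fun h => hne (by rw [h])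
      obtain ⟨v, hv⟩ := hP.edge_inter e d hed z hA.1 hBz.1
      apply hA.2
      rw [← hv]
      exact v.2
    | face f => exact (ef e f hA hBz).elim
  | face f =>
    cases B with
    | vert w => exact (vf w f hBz hA).elim
    | edge d => exact (ef d f hBz hA).elim
    | face g =>
      by_contra hne
      have hfg : f.1 ≠ g.1 := fun h => hne (by rw [Subtype.ext h])
      exact (disjoint_left.1 (K.tiling.disj f.1 f.2 g.1 g.2 hfg)) hA hBz

theorem pl_arc_joined {γ : ℝ → ℂ} (hγ : Continuous γ) {s : Set ℝ} (hs : Convex ℝ s) {Z : Set ℂ}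
    (hZ : γ '' s ⊆ Z) {x y : ℝ} (hx : x ∈ s) (hy : y ∈ s) : JoinedIn Z (γ x) (γ y) := by
  have h1 : IsPathConnected s := hs.isPathConnected ⟨x, hx⟩
  have h2 : IsPathConnected (γ '' s) := h1.image hγ
  exact (h2.joinedIn _ (mem_image_of_mem _ hx) _ (mem_image_of_mem _ hy)).mono hZ

theorem pl_same (hD : Stmt_Disc) (hI : Stmt_InterT) (A : Cell K.V K.E K.F) {x y : ℂ}
    (hx : x ∈ plCs K A) (hy : y ∈ plCs K A) : JoinedIn (plCs K A) x y := by
  cases A with
  | vert v =>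
    have h1 : x = v.1 := hx
    have h2 : y = v.1 := hy
    rw [h1, h2]
    exact JoinedIn.refl rfl
  | edge e =>
    obtain ⟨γ, a, b, hγ, hab, he, h2⟩ := pl_edge_param hD hI e
    have h3 := pl_edge_cs e he h2
    rw [h3] at hx hy ⊢
    obtain ⟨s, hs, rfl⟩ := hx
    obtain ⟨t, ht, rfl⟩ := hy
    exact pl_arc_joined hγ (convex_Ioo a b) Subset.rfl hs ht
  | face f =>
    obtain ⟨c, γ, hd⟩ := hD f.1 (K.n1 f.1 f.2)
    exact hd.pc.joinedIn _ hx _ hy

theorem pl_inc (hD : Stmt_Disc) (hB : Basic K) (hI : Stmt_InterT) {M : Inc K.V K.E K.F}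
    (hM : K.IsMap M) (A B : Cell K.V K.E K.F) (hAB : CellInc M A B) {x y : ℂ}
    (hx : x ∈ plCs K A) (hy : y ∈ plCs K B) : JoinedIn (plCs K A ∪ plCs K B) x y := by
  have radial : ∀ (f : K.F) (x y : ℂ), (∃ e : K.E, x ∈ e.1 ∧ e.1 ⊆ f.1) → y ∈ interior f.1 →
      JoinedIn ({x} ∪ interior f.1) x y := by
    rintro f x y ⟨e, hxe, hef⟩ hy
    obtain ⟨c, γ, hd⟩ := hD f.1 (K.n1 f.1 f.2)
    have hfr : x ∈ frontier f.1 := by
      obtain ⟨hn, t, ht, t', ht', hne, he⟩ := e.2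
      have hx2 : x ∈ t ∩ t' := he ▸ hxe
      by_cases htf : t = f.1
      · have hne' : f.1 ≠ t' := fun h => hne (htf.trans h)
        exact hB.mem_frontier f.1 f.2 t' ht' hne' ⟨hef hxe, hx2.2⟩
      · exact hB.mem_frontier f.1 f.2 t ht (Ne.symm htf) ⟨hef hxe, hx2.1⟩
    have h1 := hd.rad x hfr
    have h2 : JoinedIn ({x} ∪ interior f.1) x c := by
      refine h1.mono ?_
      rw [insert_eq]
    refine h2.trans ?_
    exact (hd.pc.joinedIn _ hd.center _ hy).mono subset_union_right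
  cases hAB with
  | ve h =>
    rename_i v e
    have hx' : x = v.1 := hx
    subst hx'
    obtain ⟨γ, a, b, hγ, hab, he, h2⟩ := pl_edge_param hD hI e
    have h3 := pl_edge_cs e he h2
    rw [h3] at hy ⊢
    obtain ⟨t, ht, rfl⟩ := hy
    have hve := (hM.ve v e).1 h
    rw [he] at hve
    obtain ⟨s, hs, hsv⟩ := hve
    have hs2 : s = a ∨ s = b := by
      rw [← h2 s hs, hsv]
      exact v.2
    rw [← hsv]
    rcases hs2 with rfl | rfl
    · refine pl_arc_joined hγ (convex_Ico s b) ?_ (left_mem_Ico.2 hab) ⟨ht.1.le, ht.2⟩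
      rintro _ ⟨u, hu, rfl⟩
      rcases eq_or_lt_of_le hu.1 with h | h
      · left
        show γ u = v.1
        rw [← h, hsv]
      · right
        exact ⟨u, ⟨h, hu.2⟩, rfl⟩
    · refine pl_arc_joined hγ (convex_Ioc a s) ?_ (right_mem_Ioc.2 hab) ⟨ht.1, ht.2.le⟩
      rintro _ ⟨u, hu, rfl⟩
      rcases eq_or_lt_of_le hu.2 with h | h
      · left
        show γ u = v.1
        rw [h, hsv]
      · right
        exact ⟨u, ⟨hu.1, h⟩, rfl⟩
  | ef h =>
    rename_i e f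
    refine (radial f x y ⟨e, hx.1, (hM.ef e f).1 h⟩ hy).mono ?_
    exact union_subset_union_left _ (singleton_subset_iff.2 hx)
  | vf h =>
    rename_i v f
    obtain ⟨e, h1, h2⟩ := h
    have hx' : x = v.1 := hx
    refine (radial f x y ⟨e, hx' ▸ (hM.ve v e).1 h1, (hM.ef e f).1 h2⟩ hy).mono ?_
    exact union_subset_union_left _ (singleton_subset_iff.2 hx)

theorem pl_adj (hD : Stmt_Disc) (hB : Basic K) (hI : Stmt_InterT) {M : Inc K.V K.E K.F}
    (hM : K.IsMap M) (A B : Cell K.V K.E K.F) (hAB : M.cellGraph.Adj A B) {x y : ℂ}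
    (hx : x ∈ plCs K A) (hy : y ∈ plCs K B) : JoinedIn (plCs K A ∪ plCs K B) x y := by
  rcases hAB with h | h
  · exact pl_inc hD hB hI hM A B h hx hy
  · rw [union_comm]
    exact (pl_inc hD hB hI hM B A h hy hx).symm

theorem pl_reach (hD : Stmt_Disc) (hB : Basic K) (hI : Stmt_InterT) {M : Inc K.V K.E K.F}
    (hM : K.IsMap M) (Z : Set (Cell K.V K.E K.F)) (A B : Cell K.V K.E K.F) (hA : A ∈ Z)
    (hAB : ReachIn M.cellGraph Z A B) : ∀ {x y : ℂ}, x ∈ plCs K A → y ∈ plCs K B →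
      JoinedIn (⋃ C ∈ Z, plCs K C) x y := by
  induction hAB with
  | refl =>
    intro x y hx hy
    exact (pl_same hD hI A hx hy).mono (subset_biUnion_of_mem (u := plCs K) hA)
  | tail h1 h2 ih =>
    rename_i B C
    intro x y hx hy
    obtain ⟨z, hz⟩ := pl_nonempty hD hI B
    refine (ih hx hz).trans ((pl_adj hD hB hI hM B C h2.1 hz hy).mono ?_)
    exact union_subset (subset_biUnion_of_mem (u := plCs K) h2.2.1)
      (subset_biUnion_of_mem (u := plCs K) h2.2.2)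

theorem pl_union_disj (hB : Basic K) (hP : PreMap K) {Z W : Set (Cell K.V K.E K.F)}
    (h : Disjoint Z W) : Disjoint (⋃ C ∈ Z, plCs K C) (⋃ C ∈ W, plCs K C) := by
  rw [disjoint_left]
  intro z hz hw
  simp only [mem_iUnion, exists_prop] at hz hw
  obtain ⟨C, hC, hzC⟩ := hz
  obtain ⟨D, hD', hzD⟩ := hw
  have := pl_disj hB hP C D hzC hzD
  subst this
  exact disjoint_left.1 h hC hD'

theorem planar (h5 : Stmt_K5) (h33 : Stmt_K33) (hD : Stmt_Disc) (hB : Stmt_Basic)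
    (hI : Stmt_InterT) (hP : Stmt_Pre) : Stmt_Planar := by
  intro K M hM
  choose pt hpt using fun A : Cell K.V K.E K.F => pl_nonempty hD hI A
  constructor
  · intro c Z hZ hd
    refine h5 (fun i => pt (c i)) (fun i j => ⋃ C ∈ Z i j, plCs K C) ?_ ?_
    · intro i j hij
      obtain ⟨h1, h2, h3⟩ := hZ i j hij
      exact pl_reach hD (hB K) hI hM (Z i j) (c i) (c j) h1 (h3 _ h1 _ h2) (hpt _) (hpt _)
    · intro i j k l h1 h2 h3 h4 h6 h7
      exact pl_union_disj (hB K) (hP K) (hd i j k l h1 h2 h3 h4 h6 h7)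
  · intro a b Z hZ hd
    refine h33 (fun i => pt (a i)) (fun i => pt (b i)) (fun i j => ⋃ C ∈ Z i j, plCs K C) ?_ ?_
    · intro i j
      obtain ⟨h1, h2, h3⟩ := hZ i j
      exact pl_reach hD (hB K) hI hM (Z i j) (a i) (b j) h1 (h3 _ h1 _ h2) (hpt _) (hpt _)
    · intro i j k l h1 h2
      exact pl_union_disj (hB K) (hP K) (hd i j k l h1 h2)

end planarT

end Pool.Agent.CT
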