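import Pool.Agent.CT.TStmts

set_option autoImplicit false

/-! # T13: the polyhedral map of a disc tiling -/

namespace Pool.Agent.CT

open Set Metric

namespace PolyAux

variable {K : DiscTiling}

theorem tile_of_edge (P : PreMap K) (e : K.E) (f : K.F) (h : e.1 ⊆ f.1) :
    ∃ g : K.F, f ≠ g ∧ e.1 = f.1 ∩ g.1 ∧ ∀ h : K.F, e.1 ⊆ h.1 ↔ (h = f ∨ h = g) := by
  obtain ⟨f0, g0, hne, heq, hall⟩ := P.edge_faces e
  rcases (hall f).1 h with rfl | rfl
  · exact ⟨g0, hne, heq, hall⟩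
  · refine ⟨f0, hne.symm, by rw [heq, inter_comm], fun h => ?_⟩
    rw [hall h]
    exact or_comm

theorem ends (P : PreMap K) (e : K.E) (u v : K.V) (huv : u ≠ v) (hu : u.1 ∈ e.1)
    (hv : v.1 ∈ e.1) (w : K.V) (hw : w.1 ∈ e.1) : w = u ∨ w = v := by
  obtain ⟨a, b, _, hall⟩ := P.edge_verts e
  rcases (hall u).1 hu with rfl | rfl <;> rcases (hall v).1 hv with rfl | rfl
  · exact absurd rfl huv
  · exact (hall w).1 hw
  · exact ((hall w).1 hw).symm
  · exact absurd rfl huv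

theorem corner2 (P : PreMap K) (v : K.V) (f : K.F) (e e' : K.E) (hne : e ≠ e')
    (h1 : v.1 ∈ e.1) (h2 : e.1 ⊆ f.1) (h3 : v.1 ∈ e'.1) (h4 : e'.1 ⊆ f.1) (d : K.E)
    (h5 : v.1 ∈ d.1) (h6 : d.1 ⊆ f.1) : d = e ∨ d = e' := by
  obtain ⟨e'', _, hall⟩ := P.corner v e f h1 h2
  have h := (hall e').1 ⟨h3, h4⟩
  have h' := (hall d).1 ⟨h5, h6⟩
  rcases h with h | h
  · exact absurd h.symm hne
  · rw [h]
    exact h'

theorem tilesAt_of_two (P : Basic K) (p : ℂ) (f g : K.F) (hne : f ≠ g) (hf : p ∈ f.1)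
    (hg : p ∈ g.1) (hp : ¬ 3 ≤ (K.tilesAt p).ncard) : K.tilesAt p = {f.1, g.1} := by
  have hsub : ({f.1, g.1} : Set (Set ℂ)) ⊆ K.tilesAt p := by
    rintro x (rfl | rfl)
    · exact ⟨f.2, hf⟩
    · exact ⟨g.2, hg⟩
  have hne' : f.1 ≠ g.1 := fun h => hne (Subtype.ext h)
  exact (Set.eq_of_subset_of_ncard_le hsub (by rw [Set.ncard_pair hne']; omega)
    (P.fin_at p)).symm

/-- At least three edges at a vertex. -/
theorem vert_card (P : PreMap K) (v : K.V) : 3 ≤ {e : K.E | v.1 ∈ e.1}.ncard := by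
  by_contra hcon
  have hfin := P.vert_fin v
  -- any tile at `v` has two edges at `v`
  have htwo : ∀ f : K.F, v.1 ∈ f.1 → ∃ e e' : K.E, e ≠ e' ∧ v.1 ∈ e.1 ∧ e.1 ⊆ f.1 ∧ v.1 ∈ e'.1 ∧
      e'.1 ⊆ f.1 := by
    intro f hf
    obtain ⟨e, h1, h2⟩ := P.vf v f hf
    obtain ⟨e', hne, hall⟩ := P.corner v e f h1 h2
    have h3 := (hall e').2 (Or.inr rfl)
    exact ⟨e, e', hne.symm, h1, h2, h3.1, h3.2⟩
  have hpair : ∀ e e' : K.E, e ≠ e' → v.1 ∈ e.1 → v.1 ∈ e'.1 →
      {e : K.E | v.1 ∈ e.1} = {e, e'} := by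
    intro e e' hne h1 h2
    have hsub : ({e, e'} : Set K.E) ⊆ {e : K.E | v.1 ∈ e.1} := by
      rintro x (rfl | rfl)
      · exact h1
      · exact h2
    exact (Set.eq_of_subset_of_ncard_le hsub (by rw [Set.ncard_pair hne]; omega) hfin).symm
  -- take a tile at `v`
  have hne : (K.tilesAt v.1).Nonempty := by
    rw [Set.nonempty_iff_ne_empty]
    intro h
    have := v.2
    rw [h, Set.ncard_empty] at this
    omega
  obtain ⟨t, ht⟩ := hne
  obtain ⟨e, e', hee, h1, h2, h3, h4⟩ := htwo ⟨t, ht.1⟩ ht.2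
  have hE := hpair e e' hee h1 h3
  obtain ⟨f, g, hfg, _, hall⟩ := P.edge_faces e
  have hsub : K.tilesAt v.1 ⊆ {f.1, g.1} := by
    intro s hs
    obtain ⟨d, d', hdd, k1, k2, k3, k4⟩ := htwo ⟨s, hs.1⟩ hs.2
    have hD := hpair d d' hdd k1 k3
    have he : e ∈ ({d, d'} : Set K.E) := by rw [← hD]; exact h1
    have hes : e.1 ⊆ s := by
      rcases he with rfl | rfl
      · exact k2
      · exact k4
    rcases (hall ⟨s, hs.1⟩).1 hes with h | h
    · left; rw [← h]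
    · right; rw [mem_singleton_iff, ← h]
  have := Set.ncard_le_ncard hsub (by simp)
  have h2' : ({f.1, g.1} : Set (Set ℂ)).ncard ≤ 2 := by
    have := Set.ncard_insert_le f.1 ({g.1} : Set (Set ℂ))
    rw [Set.ncard_singleton] at this
    exact this
  have := v.2
  omega

/-- If `t1` has the two edges `a`, `b` with the same two ends `u`, `v`, these are all its edges. -/
theorem edges_of_two (P : PreMap K) (t : K.F) (a b : K.E) (u v : K.V) (huv : u ≠ v) (hab : a ≠ b)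
    (ha : a.1 ⊆ t.1) (hb : b.1 ⊆ t.1) (hua : u.1 ∈ a.1) (hva : v.1 ∈ a.1) (hub : u.1 ∈ b.1)
    (hvb : v.1 ∈ b.1) (d : K.E) (hd : d.1 ⊆ t.1) : d = a ∨ d = b := by
  have h := P.face_conn t {a, b} (by
    rintro x (rfl | rfl)
    · exact ha
    · exact hb) ⟨a, Or.inl rfl⟩ (by
    intro e he d hd hw
    obtain ⟨w, hwe, hwd⟩ := hw
    have hw2 : w = u ∨ w = v := by
      rcases he with rfl | rfl
      · exact ends P _ u v huv hua hva w hwe
      · exact ends P _ u v huv hub hvb w hwe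
    rcases hw2 with rfl | rfl
    · exact corner2 P _ t a b hab hua ha hub hb d hwd hd
    · exact corner2 P _ t a b hab hva ha hvb hb d hwd hd)
  have : d ∈ ({a, b} : Set K.E) := by rw [h]; exact hd
  exact this

/-- At least three edges of a tile. -/
theorem face_card (P : PreMap K) (hB : Basic K)
    (hCl : ∀ (S : Set (Set ℂ)), S ⊆ K.T → S.Finite → S.Nonempty →
      (∀ p ∈ ⋃₀ S, K.tilesAt p ⊆ S) → False) (t : K.F) : 3 ≤ {e : K.E | e.1 ⊆ t.1}.ncard := by
  by_contra hcon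
  have hfin := P.face_fin t
  obtain ⟨e1, he1⟩ := P.face_ne t
  have he1 : e1.1 ⊆ t.1 := he1
  obtain ⟨u, v, huv, hends⟩ := P.edge_verts e1
  have hu1 : u.1 ∈ e1.1 := (hends u).2 (Or.inl rfl)
  have hv1 : v.1 ∈ e1.1 := (hends v).2 (Or.inr rfl)
  obtain ⟨e2, hne2, hcor2⟩ := P.corner u e1 t hu1 he1
  obtain ⟨hu2, he2⟩ := (hcor2 e2).2 (Or.inr rfl)
  have hE : {e : K.E | e.1 ⊆ t.1} = {e1, e2} := by
    have hsub : ({e1, e2} : Set K.E) ⊆ {e : K.E | e.1 ⊆ t.1} := by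
      rintro x (rfl | rfl)
      · exact he1
      · exact he2
    exact (Set.eq_of_subset_of_ncard_le hsub (by rw [Set.ncard_pair hne2.symm]; omega) hfin).symm
  have hv2 : v.1 ∈ e2.1 := by
    obtain ⟨e', hne', hcor'⟩ := P.corner v e1 t hv1 he1
    obtain ⟨hve', het'⟩ := (hcor' e').2 (Or.inr rfl)
    have : e' ∈ ({e1, e2} : Set K.E) := by rw [← hE]; exact het'
    rcases this with h | h
    · exact absurd h hne'
    · rw [← show e' = e2 from h]; exact hve'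
  have hEt : ∀ d : K.E, d.1 ⊆ t.1 → d = e1 ∨ d = e2 := fun d hd => by
    have : d ∈ ({e1, e2} : Set K.E) := by rw [← hE]; exact hd
    exact this
  obtain ⟨t1, htt1, heq1, hall1⟩ := tile_of_edge P e1 t he1
  obtain ⟨t2, htt2, heq2, hall2⟩ := tile_of_edge P e2 t he2
  have ht12 : t1 ≠ t2 := by
    rintro rfl
    exact hne2 (Subtype.ext (by rw [heq1, heq2]))
  have he1t1 : e1.1 ⊆ t1.1 := by rw [heq1]; exact inter_subset_right
  have he2t2 : e2.1 ⊆ t2.1 := by rw [heq2]; exact inter_subset_right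
  -- the third edge
  have huvC : u.1 ≠ v.1 := fun h => huv (Subtype.ext h)
  have hnon : (t1.1 ∩ t2.1).Nontrivial :=
    ⟨u.1, ⟨he1t1 hu1, he2t2 hu2⟩, v.1, ⟨he1t1 hv1, he2t2 hv2⟩, huvC⟩
  let e3 : K.E := ⟨t1.1 ∩ t2.1, hnon, t1.1, t1.2, t2.1, t2.2, fun h => ht12 (Subtype.ext h), rfl⟩
  have he3t1 : e3.1 ⊆ t1.1 := inter_subset_left
  have he3t2 : e3.1 ⊆ t2.1 := inter_subset_right
  have hu3 : u.1 ∈ e3.1 := ⟨he1t1 hu1, he2t2 hu2⟩
  have hv3 : v.1 ∈ e3.1 := ⟨he1t1 hv1, he2t2 hv2⟩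
  have h13 : e1 ≠ e3 := by
    intro h
    have : e1.1 ⊆ t2.1 := by rw [h]; exact he3t2
    rcases (hall1 t2).1 this with h' | h'
    · exact htt2 h'.symm
    · exact ht12 h'.symm
  have h23 : e2 ≠ e3 := by
    intro h
    have : e2.1 ⊆ t1.1 := by rw [h]; exact he3t1
    rcases (hall2 t1).1 this with h' | h'
    · exact htt1 h'.symm
    · exact ht12 h'
  have hEt1 : ∀ d : K.E, d.1 ⊆ t1.1 → d = e1 ∨ d = e3 := fun d hd =>
    edges_of_two P t1 e1 e3 u v huv h13 he1t1 he3t1 hu1 hv1 hu3 hv3 d hd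
  have hEt2 : ∀ d : K.E, d.1 ⊆ t2.1 → d = e2 ∨ d = e3 := fun d hd =>
    edges_of_two P t2 e2 e3 u v huv h23 he2t2 he3t2 hu2 hv2 hu3 hv3 d hd
  -- faces of the edges
  have hF3 : ∀ f : K.F, e3.1 ⊆ f.1 → f = t1 ∨ f = t2 := by
    intro f hf
    obtain ⟨g, hg, _, hall⟩ := tile_of_edge P e3 t1 he3t1
    have h2 : g = t2 := by
      rcases (hall t2).1 he3t2 with h | h
      · exact absurd h.symm ht12
      · exact h.symm
    rw [← h2]
    exact (hall f).1 hf
  have hfaces : ∀ e : K.E, (e = e1 ∨ e = e2 ∨ e = e3) → ∀ f : K.F, e.1 ⊆ f.1 →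
      f = t ∨ f = t1 ∨ f = t2 := by
    intro e he f hf
    rcases he with he | he | he
    · rw [he] at hf
      rcases (hall1 f).1 hf with h | h
      · exact Or.inl h
      · exact Or.inr (Or.inl h)
    · rw [he] at hf
      rcases (hall2 f).1 hf with h | h
      · exact Or.inl h
      · exact Or.inr (Or.inr h)
    · rw [he] at hf
      exact Or.inr (hF3 f hf)
  have hedges : ∀ f : K.F, (f = t ∨ f = t1 ∨ f = t2) → ∀ d : K.E, d.1 ⊆ f.1 →
      d = e1 ∨ d = e2 ∨ d = e3 := by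
    intro f hf d hd
    rcases hf with hf | hf | hf
    · rw [hf] at hd
      rcases hEt d hd with h | h
      · exact Or.inl h
      · exact Or.inr (Or.inl h)
    · rw [hf] at hd
      rcases hEt1 d hd with h | h
      · exact Or.inl h
      · exact Or.inr (Or.inr h)
    · rw [hf] at hd
      exact Or.inr (hEt2 d hd)
  have hS : ∀ f : K.F, (f = t ∨ f = t1 ∨ f = t2) → ∀ s : Set ℂ, s = f.1 →
      s = t.1 ∨ s = t1.1 ∨ s = t2.1 := by
    intro f hf s hs
    rcases hf with h | h | h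
    · left; rw [hs, h]
    · right; left; rw [hs, h]
    · right; right; rw [hs, h]
  -- edges and tiles at the two vertices
  have hat : ∀ w : K.V, w.1 ∈ e1.1 → w.1 ∈ e2.1 → w.1 ∈ e3.1 →
      ∀ f : K.F, w.1 ∈ f.1 → f = t ∨ f = t1 ∨ f = t2 := by
    intro w h1 h2 h3 f hf
    have h := P.vert_conn w {e1, e2, e3} (by
      intro x hx
      rcases hx with hx | hx | hx
      · show w.1 ∈ x.1
        rw [hx]; exact h1
      · show w.1 ∈ x.1
        rw [hx]; exact h2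
      · show w.1 ∈ x.1
        rw [show x = e3 from hx]; exact h3) ⟨e1, Or.inl rfl⟩ (by
      rintro e he d hd ⟨g, heg, hdg⟩
      have he' : e = e1 ∨ e = e2 ∨ e = e3 := he
      exact hedges g (hfaces e he' g heg) d hdg)
    obtain ⟨d, hd1, hd2⟩ := P.vf w f hf
    have hd3 : d ∈ ({e1, e2, e3} : Set K.E) := by rw [h]; exact hd1
    exact hfaces d hd3 f hd2
  -- points of the three edges
  have hpt : ∀ (e : K.E) (f g : K.F), f ≠ g → (f = t ∨ f = t1 ∨ f = t2) →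
      (g = t ∨ g = t1 ∨ g = t2) → e.1 = f.1 ∩ g.1 → (u.1 ∈ e.1) → (v.1 ∈ e.1) →
      ∀ p ∈ e.1, ∀ s ∈ K.tilesAt p, s = t.1 ∨ s = t1.1 ∨ s = t2.1 := by
    intro e f g hfg hf hg heq hue hve p hp s hs
    by_cases hv : 3 ≤ (K.tilesAt p).ncard
    · have hw := ends P e u v huv hue hve ⟨p, hv⟩ hp
      have : (⟨s, hs.1⟩ : K.F) = t ∨ (⟨s, hs.1⟩ : K.F) = t1 ∨ (⟨s, hs.1⟩ : K.F) = t2 := by
        rcases hw with h | h
        · exact hat u hu1 hu2 hu3 ⟨s, hs.1⟩ (by rw [← h]; exact hs.2)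
        · exact hat v hv1 hv2 hv3 ⟨s, hs.1⟩ (by rw [← h]; exact hs.2)
      exact hS _ this s rfl
    · rw [heq] at hp
      rw [tilesAt_of_two hB p f g hfg hp.1 hp.2 hv] at hs
      rcases hs with hs | hs
      · exact hS f hf s hs
      · exact hS g hg s hs
  refine hCl {t.1, t1.1, t2.1} ?_ (by simp) ⟨t.1, Or.inl rfl⟩ ?_
  · intro x hx
    rcases hx with hx | hx | hx
    · rw [hx]; exact t.2
    · rw [hx]; exact t1.2
    · rw [show x = t2.1 from hx]; exact t2.2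
  · rintro p ⟨x, hx, hpx⟩ s hs
    have key : ∀ f : K.F, (f = t ∨ f = t1 ∨ f = t2) → p ∈ f.1 →
        s = t.1 ∨ s = t1.1 ∨ s = t2.1 := by
      intro f hf hpf
      by_cases hpi : p ∈ interior f.1
      · have := hB.at_int f.1 f.2 p hpi
        rw [this, mem_singleton_iff] at hs
        exact hS f hf s hs
      · have hcl : IsClosed f.1 := K.tiling.closed f.1 f.2
        have hfr : p ∈ frontier f.1 := by
          rw [hcl.frontier_eq]
          exact ⟨hpf, hpi⟩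
        rw [P.bd f] at hfr
        simp only [mem_iUnion, mem_ofPred_eq] at hfr
        obtain ⟨d, hd, hpd⟩ := hfr
        rcases hedges f hf d hd with h | h | h
        · rw [h] at hpd
          exact hpt e1 t t1 htt1 (Or.inl rfl) (Or.inr (Or.inl rfl)) heq1 hu1 hv1 p hpd s hs
        · rw [h] at hpd
          exact hpt e2 t t2 htt2 (Or.inl rfl) (Or.inr (Or.inr rfl)) heq2 hu2 hv2 p hpd s hs
        · rw [h] at hpd
          exact hpt e3 t1 t2 ht12 (Or.inr (Or.inl rfl)) (Or.inr (Or.inr rfl)) rfl hu3 hv3 p hpd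
            s hs
    have hx' : ∃ f : K.F, (f = t ∨ f = t1 ∨ f = t2) ∧ f.1 = x := by
      rcases hx with hx | hx | hx
      · exact ⟨t, Or.inl rfl, hx.symm⟩
      · exact ⟨t1, Or.inr (Or.inl rfl), hx.symm⟩
      · exact ⟨t2, Or.inr (Or.inr rfl), (show x = t2.1 from hx).symm⟩
    obtain ⟨f, hf, hfx⟩ := hx'
    rw [← hfx] at hpx
    exact key f hf hpx

end PolyAux

/-- T13. -/
theorem polyT (hP : Stmt_Pre) (hCl : Stmt_Closed) (hB : Stmt_Basic) : Stmt_Poly := by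
  intro K
  have P := hP K
  refine ⟨{ ve := fun v e => v.1 ∈ e.1
            ef := fun e f => e.1 ⊆ f.1
            edge_verts := P.edge_verts
            edge_faces := fun e => by
              obtain ⟨f, g, h1, _, h3⟩ := P.edge_faces e
              exact ⟨f, g, h1, h3⟩
            corner := P.corner
            face_fin := P.face_fin
            face_card := PolyAux.face_card P (hB K) (hCl K)
            face_conn := P.face_conn
            vert_fin := P.vert_fin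
            vert_card := PolyAux.vert_card P
            vert_conn := P.vert_conn
            inter := ?_ }, ⟨fun _ _ => Iff.rfl, fun _ _ => Iff.rfl⟩⟩
  rintro f g hfg u v huv ⟨a1, a2, a3⟩ ⟨b1, b2, b3⟩ ⟨c1, c2, c3⟩ ⟨d1, d2, d3⟩
  have hne : (f.1 ∩ g.1).Nontrivial :=
    ⟨u.1, ⟨a3 a2, b3 b2⟩, v.1, ⟨c3 c2, d3 d2⟩, fun h => huv (Subtype.ext h)⟩
  exact ⟨⟨f.1 ∩ g.1, hne, f.1, f.2, g.1, g.2, fun h => hfg (Subtype.ext h), rfl⟩,
    ⟨a3 a2, b3 b2⟩, ⟨c3 c2, d3 d2⟩, inter_subset_left, inter_subset_right⟩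

end Pool.Agent.CT
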