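import Pool.Agent.CT.TStmts

set_option autoImplicit false

/-! # T12: the combinatorial map of a disc tiling without the cardinality bounds -/

namespace Pool.Agent.CT

open Set Metric

section T12

variable {K : DiscTiling}

/-- The edge formed by two tiles with nontrivial intersection. -/
def t12E {t t' : Set ℂ} (ht : t ∈ K.T) (ht' : t' ∈ K.T) (hne : t ≠ t')
    (hn : (t ∩ t').Nontrivial) : K.E := ⟨t ∩ t', hn, t, ht, t', ht', hne, rfl⟩

theorem t12_inf (e : K.E) : e.1.Infinite := by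
  obtain ⟨J, hJ, t, ht, t', ht', hne, rfl⟩ := e
  exact (K.n2 t ht t' ht').infinite_of_nontrivial hJ

theorem t12_closed (e : K.E) : IsClosed e.1 := by
  obtain ⟨J, hJ, t, ht, t', ht', hne, rfl⟩ := e
  exact (K.tiling.closed t ht).inter (K.tiling.closed t' ht')

/-- An edge lies in exactly two tiles. -/
theorem t12_two (h3 : Stmt_ThreeFin) (e : K.E) {t t' s : Set ℂ} (ht : t ∈ K.T) (ht' : t' ∈ K.T)
    (hs : s ∈ K.T) (hne : t ≠ t') (h1 : e.1 ⊆ t) (h2 : e.1 ⊆ t') (h4 : e.1 ⊆ s) :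
    s = t ∨ s = t' := by
  by_contra hcon
  push Not at hcon
  have := (h3 K).1 t ht t' ht' s hs hne (Ne.symm hcon.1) (Ne.symm hcon.2)
  exact t12_inf e (this.subset fun z hz => ⟨⟨h1 hz, h2 hz⟩, h4 hz⟩)

/-- An edge in a tile is the intersection of the tile and another one. -/
theorem t12_face (h3 : Stmt_ThreeFin) (e : K.E) {t : Set ℂ} (ht : t ∈ K.T) (h : e.1 ⊆ t) :
    ∃ t' ∈ K.T, t' ≠ t ∧ e.1 = t ∩ t' := by
  obtain ⟨J, hJ, s, hs, s', hs', hne, rfl⟩ := e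
  rcases t12_two h3 ⟨s ∩ s', hJ, s, hs, s', hs', hne, rfl⟩ hs hs' ht hne inter_subset_left
    inter_subset_right h with rfl | rfl
  · exact ⟨s', hs', hne.symm, rfl⟩
  · exact ⟨s, hs, hne, inter_comm _ _⟩

theorem t12_faces (e : K.E) : ∃ t ∈ K.T, ∃ t' ∈ K.T, t ≠ t' ∧ e.1 = t ∩ t' := e.2.2

/-- A frontier point of a tile lies on an edge of the tile. -/
theorem t12_front (hB : Stmt_Basic) (hNV : Stmt_NonVertex) (hCo : Stmt_Corner) {t : Set ℂ}
    (ht : t ∈ K.T) {p : ℂ} (hp : p ∈ frontier t) : ∃ e : K.E, p ∈ e.1 ∧ e.1 ⊆ t := by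
  have hpt : p ∈ t := (K.tiling.closed t ht).frontier_subset hp
  by_cases h : 3 ≤ (K.tilesAt p).ncard
  · obtain ⟨t₁, ht₁, t₂, ht₂, h1, h2, h12, hp1, hp2, hn1, hn2, -⟩ := hCo K t ht p hpt h
    exact ⟨t12E ht ht₁ (Ne.symm h1) hn1, ⟨hpt, hp1⟩, inter_subset_left⟩
  · obtain ⟨t', ht', hne, hn, heq⟩ := hNV K t ht p hp h
    have hp' : p ∈ t' := by
      have : t' ∈ K.tilesAt p := by rw [heq]; simp
      exact this.2
    exact ⟨t12E ht ht' (Ne.symm hne) hn, ⟨hpt, hp'⟩, inter_subset_left⟩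

theorem t12_sub_front (hB : Stmt_Basic) (h3 : Stmt_ThreeFin) {t : Set ℂ} (ht : t ∈ K.T) (e : K.E)
    (h : e.1 ⊆ t) : e.1 ⊆ frontier t := by
  obtain ⟨t', ht', hne, heq⟩ := t12_face h3 e ht h
  rw [heq]
  exact (hB K).mem_frontier t ht t' ht' (Ne.symm hne)

/-- Different edges meet at most in vertices. -/
theorem t12_edge_inter (hB : Stmt_Basic) (e d : K.E) (hed : e ≠ d) (z : ℂ) (hz : z ∈ e.1)
    (hz' : z ∈ d.1) : ∃ v : K.V, v.1 = z := by
  by_contra hcon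
  have hn : ¬ 3 ≤ (K.tilesAt z).ncard := fun h => hcon ⟨⟨z, h⟩, rfl⟩
  obtain ⟨t, ht, t', ht', hne, h1⟩ := t12_faces e
  obtain ⟨s, hs, s', hs', hne', h2⟩ := t12_faces d
  have hfin := (hB K).fin_at z
  have key : ∀ a ∈ K.tilesAt z, ∀ b ∈ K.tilesAt z, a ≠ b → K.tilesAt z = {a, b} := by
    intro a ha b hb hab
    have h5 : ({a, b} : Set (Set ℂ)) ⊆ K.tilesAt z := by
      rintro x (rfl | rfl)
      · exact ha
      · exact hb
    refine (Set.eq_of_subset_of_ncard_le h5 ?_ hfin).symm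
    rw [Set.ncard_pair hab]
    omega
  rw [h1] at hz
  rw [h2] at hz'
  have k1 := key t ⟨ht, hz.1⟩ t' ⟨ht', hz.2⟩ hne
  have k2 := key s ⟨hs, hz'.1⟩ s' ⟨hs', hz'.2⟩ hne'
  rw [k1] at k2
  apply hed
  apply Subtype.ext
  rw [h1, h2]
  have m1 : t ∈ ({s, s'} : Set (Set ℂ)) := by rw [← k2]; simp
  have m2 : t' ∈ ({s, s'} : Set (Set ℂ)) := by rw [← k2]; simp
  rcases m1 with rfl | m1 <;> rcases m2 with rfl | m2
  · exact absurd rfl hne
  · have m2' : t' = s' := m2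
    rw [m2']
  · have m1' : t = s' := m1
    rw [m1']
    exact inter_comm _ _
  · have m1' : t = s' := m1
    have m2' : t' = s' := m2
    exact absurd (m1'.trans m2'.symm) hne

theorem t12_edge_verts (hD : Stmt_Disc) (hI : Stmt_InterT) (e : K.E) :
    ∃ u v : K.V, u ≠ v ∧ ∀ w : K.V, w.1 ∈ e.1 ↔ (w = u ∨ w = v) := by
  obtain ⟨J, hJ, t, ht, t', ht', hne, rfl⟩ := e
  obtain ⟨c, γ, hγ⟩ := hD t (K.n1 t ht)
  obtain ⟨a, b, hab, hba, heq, hv⟩ := hI K t ht t' ht' hne hJ c γ hγ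
  have ha := (hv a ⟨le_refl _, hab.le⟩).2 (Or.inl rfl)
  have hb := (hv b ⟨hab.le, le_refl _⟩).2 (Or.inr rfl)
  refine ⟨⟨γ a, ha⟩, ⟨γ b, hb⟩, ?_, ?_⟩
  · intro h
    have h1 : γ a = γ b := congrArg Subtype.val h
    obtain ⟨n, hn⟩ := (hγ.per a b).1 h1
    have h2 : (0 : ℝ) < n := by linarith
    have h3 : (n : ℝ) < 1 := by linarith
    have h4 : (0 : ℤ) < n := by exact_mod_cast h2
    have h5 : n < 1 := by exact_mod_cast h3
    omega
  · rintro ⟨w, hw⟩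
    constructor
    · intro h
      change w ∈ t ∩ t' at h
      rw [heq] at h
      obtain ⟨x, hx, rfl⟩ := h
      rcases (hv x hx).1 hw with rfl | rfl
      · exact Or.inl rfl
      · exact Or.inr rfl
    · rintro (h | h)
      · have h1 : w = γ a := congrArg Subtype.val h
        change w ∈ t ∩ t'
        rw [heq, h1]
        exact ⟨a, ⟨le_refl _, hab.le⟩, rfl⟩
      · have h1 : w = γ b := congrArg Subtype.val h
        change w ∈ t ∩ t'
        rw [heq, h1]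
        exact ⟨b, ⟨hab.le, le_refl _⟩, rfl⟩

theorem t12_corner (h3 : Stmt_ThreeFin) (hCo : Stmt_Corner) (v : K.V) (e : K.E) (f : K.F)
    (hv : v.1 ∈ e.1) (hef : e.1 ⊆ f.1) :
    ∃ e' : K.E, e' ≠ e ∧ ∀ d : K.E, (v.1 ∈ d.1 ∧ d.1 ⊆ f.1) ↔ (d = e ∨ d = e') := by
  obtain ⟨t, ht⟩ := f
  obtain ⟨t₁, ht₁, t₂, ht₂, h1, h2, h12, hp1, hp2, hn1, hn2, hall⟩ :=
    hCo K t ht v.1 (hef hv) v.2
  have hvt : v.1 ∈ t := hef hv
  have hne12 : t12E ht ht₁ (Ne.symm h1) hn1 ≠ t12E ht ht₂ (Ne.symm h2) hn2 := by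
    intro h
    have heq : t ∩ t₁ = t ∩ t₂ := congrArg Subtype.val h
    rcases t12_two h3 (t12E ht ht₁ (Ne.symm h1) hn1) ht ht₁ ht₂ (Ne.symm h1) inter_subset_left
      inter_subset_right (by
        show t ∩ t₁ ⊆ t₂
        rw [heq]
        exact inter_subset_right) with h | h
    · exact h2 h
    · exact h12 h.symm
  have key : ∀ d : K.E, (v.1 ∈ d.1 ∧ d.1 ⊆ t) ↔
      (d = t12E ht ht₁ (Ne.symm h1) hn1 ∨ d = t12E ht ht₂ (Ne.symm h2) hn2) := by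
    intro d
    constructor
    · rintro ⟨hd1, hd2⟩
      obtain ⟨t₃, ht₃, hne, heq⟩ := t12_face h3 d ht hd2
      have hnt : (t ∩ t₃).Nontrivial := by
        rw [← heq]
        exact d.2.1
      have hv3 : v.1 ∈ t₃ := by
        rw [heq] at hd1
        exact hd1.2
      rcases hall t₃ ht₃ hne hv3 hnt with rfl | rfl
      · exact Or.inl (Subtype.ext heq)
      · exact Or.inr (Subtype.ext heq)
    · rintro (rfl | rfl)
      · exact ⟨⟨hvt, hp1⟩, inter_subset_left⟩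
      · exact ⟨⟨hvt, hp2⟩, inter_subset_left⟩
  rcases (key e).1 ⟨hv, hef⟩ with rfl | rfl
  · exact ⟨_, hne12.symm, key⟩
  · exact ⟨_, hne12, fun d => (key d).trans or_comm⟩

theorem t12_face_fin (hB : Stmt_Basic) (h3 : Stmt_ThreeFin) (f : K.F) :
    {e : K.E | e.1 ⊆ f.1}.Finite := by
  obtain ⟨t, ht⟩ := f
  have h1 := ((hB K).touch_fin t ht).image (fun t' => t ∩ t')
  refine Set.Finite.of_finite_image (f := fun e : K.E => e.1) (h1.subset ?_)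
    Subtype.val_injective.injOn
  rintro _ ⟨e, he, rfl⟩
  obtain ⟨t', ht', hne, heq⟩ := t12_face h3 e ht he
  refine ⟨t', ⟨ht', ?_⟩, heq.symm⟩
  rw [← heq]
  exact e.2.1.nonempty

theorem t12_vert_fin (hB : Stmt_Basic) (v : K.V) : {e : K.E | v.1 ∈ e.1}.Finite := by
  have h0 := (hB K).fin_at v.1
  have h1 := (h0.prod h0).image (fun z => z.1 ∩ z.2)
  refine Set.Finite.of_finite_image (f := fun e : K.E => e.1) (h1.subset ?_)
    Subtype.val_injective.injOn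
  rintro _ ⟨e, he, rfl⟩
  obtain ⟨t, ht, t', ht', hne, heq⟩ := t12_faces e
  have he' : v.1 ∈ t ∩ t' := by
    rw [← heq]
    exact he
  exact ⟨(t, t'), ⟨⟨ht, he'.1⟩, ⟨ht', he'.2⟩⟩, heq.symm⟩

theorem t12_face_conn (hD : Stmt_Disc) (hB : Stmt_Basic) (h3 : Stmt_ThreeFin)
    (hNV : Stmt_NonVertex) (hCo : Stmt_Corner) (f : K.F) (A : Set K.E)
    (hA : A ⊆ {e | e.1 ⊆ f.1}) (hne : A.Nonempty)
    (hcl : ∀ e ∈ A, ∀ d : K.E, d.1 ⊆ f.1 → (∃ v : K.V, v.1 ∈ e.1 ∧ v.1 ∈ d.1) → d ∈ A) :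
    A = {e | e.1 ⊆ f.1} := by
  obtain ⟨t, ht⟩ := f
  obtain ⟨c, γ, hγ⟩ := hD t (K.n1 t ht)
  have hpre : IsPreconnected (frontier t) := by
    rw [← hγ.range]
    exact isPreconnected_range hγ.cont
  refine hA.antisymm ?_
  intro d hd
  by_contra hdA
  have hfin := t12_face_fin hB h3 ⟨t, ht⟩
  have hc1 : IsClosed (⋃ e ∈ A, e.1) :=
    (hfin.subset hA).isClosed_biUnion fun e _ => t12_closed e
  have hc2 : IsClosed (⋃ e ∈ {e : K.E | e.1 ⊆ t} \ A, e.1) :=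
    (hfin.subset sdiff_subset).isClosed_biUnion fun e _ => t12_closed e
  have hcov : frontier t ⊆ (⋃ e ∈ A, e.1) ∪ ⋃ e ∈ {e : K.E | e.1 ⊆ t} \ A, e.1 := by
    intro p hp
    obtain ⟨e, hpe, het⟩ := t12_front hB hNV hCo ht hp
    by_cases heA : e ∈ A
    · exact Or.inl (mem_biUnion heA hpe)
    · exact Or.inr (mem_biUnion (show e ∈ {e : K.E | e.1 ⊆ t} \ A from ⟨het, heA⟩) hpe)
  obtain ⟨e0, he0⟩ := hne
  obtain ⟨z0, hz0⟩ := e0.2.1.nonempty
  obtain ⟨z1, hz1⟩ := d.2.1.nonempty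
  have hn1 : (frontier t ∩ ⋃ e ∈ A, e.1).Nonempty :=
    ⟨z0, t12_sub_front hB h3 ht e0 (hA he0) hz0, mem_biUnion he0 hz0⟩
  have hn2 : (frontier t ∩ ⋃ e ∈ {e : K.E | e.1 ⊆ t} \ A, e.1).Nonempty :=
    ⟨z1, t12_sub_front hB h3 ht d hd hz1,
      mem_biUnion (show d ∈ {e : K.E | e.1 ⊆ t} \ A from ⟨hd, hdA⟩) hz1⟩
  obtain ⟨z, hz, hzA, hzB⟩ := isPreconnected_closed_iff.1 hpre _ _ hc1 hc2 hcov hn1 hn2
  obtain ⟨e, heA, hze⟩ := mem_iUnion₂.1 hzA
  obtain ⟨e', he', hze'⟩ := mem_iUnion₂.1 hzB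
  have hee : e ≠ e' := fun h => he'.2 (h ▸ heA)
  obtain ⟨v, rfl⟩ := t12_edge_inter hB e e' hee z hze hze'
  exact he'.2 (hcl e heA e' he'.1 ⟨v, hze, hze'⟩)

theorem t12_vert_conn (hS : Stmt_Star) (v : K.V) (A : Set K.E) (hA : A ⊆ {e | v.1 ∈ e.1})
    (hne : A.Nonempty)
    (hcl : ∀ e ∈ A, ∀ d : K.E, v.1 ∈ d.1 → (∃ f : K.F, e.1 ⊆ f.1 ∧ d.1 ⊆ f.1) → d ∈ A) :
    A = {e | v.1 ∈ e.1} := by
  have key : {t | t ∈ K.tilesAt v.1 ∧ ∃ e ∈ A, e.1 ⊆ t} = K.tilesAt v.1 := by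
    apply hS K v.1
    · exact fun t ht => ht.1
    · obtain ⟨e, he⟩ := hne
      obtain ⟨t, ht, t', ht', hne, heq⟩ := t12_faces e
      have hsub : e.1 ⊆ t := by
        rw [heq]
        exact inter_subset_left
      exact ⟨t, ⟨ht, hsub (hA he)⟩, e, he, hsub⟩
    · rintro t ⟨ht, e, he, het⟩ t' ht' hn
      refine ⟨ht', ?_⟩
      by_cases h : t = t'
      · subst h
        exact ⟨e, he, het⟩
      · refine ⟨t12E ht.1 ht'.1 h hn, ?_, inter_subset_right⟩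
        exact hcl e he _ ⟨ht.2, ht'.2⟩ ⟨⟨t, ht.1⟩, het, inter_subset_left⟩
  refine hA.antisymm ?_
  intro d hd
  obtain ⟨t, ht, t', ht', hne, heq⟩ := t12_faces d
  have hsub : d.1 ⊆ t := by
    rw [heq]
    exact inter_subset_left
  have hmem : t ∈ {t | t ∈ K.tilesAt v.1 ∧ ∃ e ∈ A, e.1 ⊆ t} := by
    rw [key]
    exact ⟨ht, hsub hd⟩
  obtain ⟨-, e, he, het⟩ := hmem
  exact hcl e he d hd ⟨⟨t, ht⟩, het, hsub⟩

end T12

/-- T12. -/
theorem pre (hD : Stmt_Disc) (hB : Stmt_Basic) (h3 : Stmt_ThreeFin) (hS : Stmt_Star)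
    (hI : Stmt_InterT) (hNV : Stmt_NonVertex) (hCo : Stmt_Corner) : Stmt_Pre := by
  intro K
  refine ⟨t12_edge_verts hD hI, ?_, t12_corner h3 hCo, ?_, t12_face_fin hB h3, ?_,
    t12_face_conn hD hB h3 hNV hCo, t12_vert_fin hB, t12_vert_conn hS, ?_, t12_edge_inter hB⟩
  · intro e
    obtain ⟨t, ht, t', ht', hne, heq⟩ := t12_faces e
    have h1 : e.1 ⊆ t := by rw [heq]; exact inter_subset_left
    have h2 : e.1 ⊆ t' := by rw [heq]; exact inter_subset_right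
    refine ⟨⟨t, ht⟩, ⟨t', ht'⟩, fun h => hne (congrArg Subtype.val h), heq, ?_⟩
    rintro ⟨s, hs⟩
    constructor
    · intro h
      rcases t12_two h3 e ht ht' hs hne h1 h2 h with rfl | rfl
      · exact Or.inl rfl
      · exact Or.inr rfl
    · rintro (h | h)
      · have : s = t := congrArg Subtype.val h
        show e.1 ⊆ s
        rw [this]
        exact h1
      · have : s = t' := congrArg Subtype.val h
        show e.1 ⊆ s
        rw [this]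
        exact h2
  · intro v f hv
    obtain ⟨t₁, ht₁, t₂, ht₂, h1, h2, h12, hp1, hp2, hn1, hn2, -⟩ := hCo K f.1 f.2 v.1 hv v.2
    exact ⟨t12E f.2 ht₁ (Ne.symm h1) hn1, ⟨hv, hp1⟩, inter_subset_left⟩
  · intro f
    obtain ⟨c, γ, hγ⟩ := hD f.1 (K.n1 f.1 f.2)
    have hp : γ 0 ∈ frontier f.1 := by
      rw [← hγ.range]
      exact mem_range_self 0
    obtain ⟨e, -, he⟩ := t12_front hB hNV hCo f.2 hp
    exact ⟨e, he⟩
  · intro t
    ext p
    simp only [mem_iUnion]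
    constructor
    · intro hp
      obtain ⟨e, hpe, het⟩ := t12_front hB hNV hCo t.2 hp
      exact ⟨e, het, hpe⟩
    · rintro ⟨e, het, hpe⟩
      exact t12_sub_front hB h3 t.2 e het hpe

end Pool.Agent.CT
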