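import Pool.Agent.CT.TStmts
import Pool.Agent.CT.Conn

set_option autoImplicit false

/-! # Block T16: tiles meeting an open connected region -/

namespace Pool.Agent.CT

open Set Metric

/-- Unions of families of tiles are closed. -/
theorem isClosed_tileUnion (K : DiscTiling) (hBK : Basic K) (A : Set K.F) :
    IsClosed (⋃ t ∈ A, t.1) := by
  rw [← isOpen_compl_iff, Metric.isOpen_iff]
  intro p hp
  obtain ⟨r, hr, h⟩ := hBK.nbhd p
  refine ⟨r, hr, fun q hq hqA => hp ?_⟩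
  obtain ⟨t, htA, hqt⟩ := mem_iUnion₂.1 hqA
  exact mem_iUnion₂.2 ⟨t, htA, h t.1 t.2 ⟨q, hqt, hq⟩⟩

/-- A tile meeting an open set has an interior point in it. -/
theorem tile_meets_open (K : DiscTiling) (hD : Stmt_Disc) (t : K.F) (U : Set ℂ) (hU : IsOpen U)
    (h : (t.1 ∩ U).Nonempty) : ∃ q, q ∈ interior t.1 ∧ q ∈ U := by
  obtain ⟨c, γ, hd⟩ := hD t.1 (K.n1 t.1 t.2)
  obtain ⟨p, hpt, hpU⟩ := h
  rw [← hd.clos] at hpt
  obtain ⟨q, hqU, hqt⟩ := mem_closure_iff.1 hpt U hU hpU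
  exact ⟨q, hqt, hqU⟩

theorem region (hC : Stmt_Compl) (hD : Stmt_Disc) (hB : Stmt_Basic) (h3 : Stmt_ThreeFin)
    (hNV : Stmt_NonVertex) : Stmt_Region := by
  intro K M hM U hU hUc a ha b hb
  by_contra hcon
  have hBK := hB K
  obtain ⟨_, _, hcount⟩ := h3 K
  set S : Set K.F := {t | (t.1 ∩ U).Nonempty} with hS
  set A : Set K.F := compIn M.fadj S a with hA
  have hpre : IsPreconnected (U \ {p : ℂ | 3 ≤ (K.tilesAt p).ncard}) := hC U _ hU hUc hcount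
  have hclosed := isPreconnected_closed_iff.1 hpre (⋃ t ∈ A, t.1) (⋃ t ∈ Aᶜ, t.1)
    (isClosed_tileUnion K hBK A) (isClosed_tileUnion K hBK Aᶜ)
  have hcover : U \ {p : ℂ | 3 ≤ (K.tilesAt p).ncard} ⊆ (⋃ t ∈ A, t.1) ∪ ⋃ t ∈ Aᶜ, t.1 := by
    intro p _
    have hp : p ∈ ⋃₀ K.T := by rw [K.tiling.cover]; trivial
    obtain ⟨t, ht, hpt⟩ := hp
    by_cases htA : (⟨t, ht⟩ : K.F) ∈ A
    · exact Or.inl (mem_iUnion₂.2 ⟨⟨t, ht⟩, htA, hpt⟩)
    · exact Or.inr (mem_iUnion₂.2 ⟨⟨t, ht⟩, htA, hpt⟩)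
  have hne : ∀ t : K.F, t ∈ S → ∃ q, q ∈ U \ {p : ℂ | 3 ≤ (K.tilesAt p).ncard} ∧ q ∈ t.1 := by
    intro t ht
    obtain ⟨q, hqi, hqU⟩ := tile_meets_open K hD t U hU ht
    refine ⟨q, ⟨hqU, ?_⟩, interior_subset hqi⟩
    intro hq
    have hq' : 3 ≤ (K.tilesAt q).ncard := hq
    rw [hBK.at_int t.1 t.2 q hqi, ncard_singleton] at hq'
    omega
  obtain ⟨q1, hq1, hq1a⟩ := hne a ha
  obtain ⟨q2, hq2, hq2b⟩ := hne b hb
  have haA : a ∈ A := mem_compIn_self a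
  have hbA : b ∈ Aᶜ := hcon
  obtain ⟨p, hp, hpA, hpB⟩ := hclosed hcover ⟨q1, hq1, mem_iUnion₂.2 ⟨a, haA, hq1a⟩⟩
    ⟨q2, hq2, mem_iUnion₂.2 ⟨b, hbA, hq2b⟩⟩
  obtain ⟨t, htA, hpt⟩ := mem_iUnion₂.1 hpA
  obtain ⟨t', htA', hpt'⟩ := mem_iUnion₂.1 hpB
  have hne' : t ≠ t' := fun h => htA' (h ▸ htA)
  have hne'' : t.1 ≠ t'.1 := fun h => hne' (Subtype.ext h)
  have hpf : p ∈ frontier t.1 := hBK.mem_frontier t.1 t.2 t'.1 t'.2 hne'' ⟨hpt, hpt'⟩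
  obtain ⟨t'', ht'', hn1, hn2, htiles⟩ := hNV K t.1 t.2 p hpf hp.2
  have hmem : t'.1 ∈ K.tilesAt p := ⟨t'.2, hpt'⟩
  rw [htiles] at hmem
  have heq : t'.1 = t'' := by
    rcases hmem with h | h
    · exact absurd h.symm hne''
    · exact h
  rw [← heq] at hn2
  let e : K.E := ⟨t.1 ∩ t'.1, hn2, t.1, t.2, t'.1, t'.2, hne'', rfl⟩
  have hadj : M.fadj.Adj t t' :=
    ⟨hne', e, (hM.ef e t).2 inter_subset_left, (hM.ef e t').2 inter_subset_right⟩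
  have htS : t ∈ S := ⟨p, hpt, hp.1⟩
  have htS' : t' ∈ S := ⟨p, hpt', hp.1⟩
  exact htA' (ReachIn.tail htA hadj htS htS')

theorem regions (hR : Stmt_Region) (hO : Stmt_Outside) : Stmt_Regions := by
  intro K M hM
  refine ⟨fun r => ?_, fun y => ?_, fun y => ?_⟩
  · exact hR K M hM _ (isOpen_lt continuous_const continuous_norm) (hO r)
  · exact hR K M hM _ (isOpen_lt continuous_const Complex.continuous_im)
      (convex_halfSpace_im_gt y).isPreconnected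
  · exact hR K M hM _ (isOpen_lt Complex.continuous_im continuous_const)
      (convex_halfSpace_im_lt y).isPreconnected

end Pool.Agent.CT
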