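import Pool.Agent.CT.TStmts

set_option autoImplicit false

/-! # Block T7: three tiles have at most two common points -/

namespace Pool.Agent.CT

open Set Metric

theorem three (hD : Stmt_Disc) (hB : Stmt_Basic) (hK : Stmt_K33) : Stmt_Three := by
  intro K t x ht hti hxi hx
  have hBK := hB K
  have hne : ∀ j : Fin 3, ∃ j' : Fin 3, j ≠ j' := by
    intro j
    fin_cases j
    · exact ⟨1, by decide⟩
    · exact ⟨0, by decide⟩
    · exact ⟨0, by decide⟩
  have hfr : ∀ i j, x i ∈ frontier (t j) := by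
    intro i j
    obtain ⟨j', hj'⟩ := hne j
    exact hBK.mem_frontier (t j) (ht j) (t j') (ht j') (fun h => hj' (hti h)) ⟨hx i j, hx i j'⟩
  have hni : ∀ i j, x i ∉ interior (t j) := by
    intro i j
    exact (hfr i j).2
  have hdata : ∀ j, ∃ (c : ℂ) (γ : ℝ → ℂ), DiscData (t j) c γ := fun j => hD (t j) (K.n1 _ (ht j))
  choose c γ hd using hdata
  refine hK x c (fun i j => insert (x i) (interior (t j))) ?_ ?_
  · intro i j
    exact (hd j).rad (x i) (hfr i j)
  · intro i j k l hik hjl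
    rw [Set.disjoint_left]
    intro z hz hz'
    have htt : t j ≠ t l := fun h => hjl (hti h)
    rcases hz with hz | hz
    · rcases hz' with hz' | hz'
      · exact hik (hxi (hz.symm.trans hz'))
      · rw [hz] at hz'
        exact hni i l hz'
    · rcases hz' with hz' | hz'
      · rw [hz'] at hz
        exact hni k j hz
      · exact Set.disjoint_left.1 (hBK.int_disj (t j) (ht j) (t l) (ht l) htt) hz
          (interior_subset hz')

theorem threeFin (hB : Stmt_Basic) (h3 : Stmt_Three) : Stmt_ThreeFin := by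
  intro K
  have hBK := hB K
  have P1 : ∀ t₁ ∈ K.T, ∀ t₂ ∈ K.T, ∀ t₃ ∈ K.T, t₁ ≠ t₂ → t₁ ≠ t₃ → t₂ ≠ t₃ →
      (t₁ ∩ t₂ ∩ t₃).Finite := by
    intro t₁ h1 t₂ h2 t₃ h3' h12 h13 h23
    by_contra hinf
    obtain ⟨s, hs, hcard⟩ := (show (t₁ ∩ t₂ ∩ t₃).Infinite from hinf).exists_subset_card_eq 3
    obtain ⟨x, y, z, hxy, hxz, hyz, hsxyz⟩ := Finset.card_eq_three.1 hcard
    have hmem : ∀ w ∈ s, w ∈ t₁ ∧ w ∈ t₂ ∧ w ∈ t₃ := by
      intro w hw
      have := hs (Finset.mem_coe.2 hw)
      exact ⟨this.1.1, this.1.2, this.2⟩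
    have hx := hmem x (by rw [hsxyz]; simp)
    have hy := hmem y (by rw [hsxyz]; simp)
    have hz := hmem z (by rw [hsxyz]; simp)
    refine h3 K ![t₁, t₂, t₃] ![x, y, z] ?_ ?_ ?_ ?_
    · intro i
      fin_cases i
      · exact h1
      · exact h2
      · exact h3'
    · intro i j hij
      fin_cases i <;> fin_cases j
      · rfl
      · exact absurd hij h12
      · exact absurd hij h13
      · exact absurd hij h12.symm
      · rfl
      · exact absurd hij h23
      · exact absurd hij h13.symm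
      · exact absurd hij h23.symm
      · rfl
    · intro i j hij
      fin_cases i <;> fin_cases j
      · rfl
      · exact absurd hij hxy
      · exact absurd hij hxz
      · exact absurd hij hxy.symm
      · rfl
      · exact absurd hij hyz
      · exact absurd hij hxz.symm
      · exact absurd hij hyz.symm
      · rfl
    · intro i j
      fin_cases i <;> fin_cases j
      · exact hx.1
      · exact hx.2.1
      · exact hx.2.2
      · exact hy.1
      · exact hy.2.1
      · exact hy.2.2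
      · exact hz.1
      · exact hz.2.1
      · exact hz.2.2
  have P2 : ∀ t ∈ K.T, {p ∈ t | 3 ≤ (K.tilesAt p).ncard}.Finite := by
    intro t ht
    set N : Set (Set ℂ) := {t' ∈ K.T | (t ∩ t').Nonempty} with hN
    have hNf : N.Finite := hBK.touch_fin t ht
    have hfin : (⋃ a ∈ N, ⋃ b ∈ N, {p : ℂ | p ∈ t ∩ a ∩ b ∧ t ≠ a ∧ t ≠ b ∧ a ≠ b}).Finite := by
      refine hNf.biUnion (fun a ha => hNf.biUnion (fun b hb => ?_))
      by_cases hh : t ≠ a ∧ t ≠ b ∧ a ≠ b
      · exact (P1 t ht a ha.1 b hb.1 hh.1 hh.2.1 hh.2.2).subset (fun p hp => hp.1)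
      · refine (Set.finite_empty).subset (fun p hp => hh hp.2)
    refine hfin.subset ?_
    rintro p ⟨hpt, hp3⟩
    have hf := hBK.fin_at p
    have htp : t ∈ K.tilesAt p := ⟨ht, hpt⟩
    have h1 : 1 < (K.tilesAt p \ {t}).ncard := by
      have := Set.ncard_sdiff_singleton_add_one htp hf
      omega
    obtain ⟨a, ha, b, hb, hab⟩ := (Set.one_lt_ncard (hf.subset sdiff_subset)).1 h1
    simp only [mem_iUnion]
    have ha1 : a ∈ K.tilesAt p := ha.1
    have hb1 : b ∈ K.tilesAt p := hb.1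
    have ha2 : a ≠ t := ha.2
    have hb2 : b ≠ t := hb.2
    exact ⟨a, ⟨ha1.1, ⟨p, hpt, ha1.2⟩⟩, b, ⟨hb1.1, ⟨p, hpt, hb1.2⟩⟩,
      ⟨⟨hpt, ha1.2⟩, hb1.2⟩, ha2.symm, hb2.symm, hab⟩
  refine ⟨P1, P2, ?_⟩
  have hcount : (⋃ n : ℕ, ⋃ t ∈ {t ∈ K.T | (t ∩ closedBall 0 (n : ℝ)).Nonempty},
      {p ∈ t | 3 ≤ (K.tilesAt p).ncard}).Countable := by
    refine countable_iUnion (fun n => ?_)
    refine (hBK.locfin n).countable.biUnion (fun t ht => (P2 t ht.1).countable)
  refine hcount.mono ?_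
  intro p hp
  have hp' : 3 ≤ (K.tilesAt p).ncard := hp
  have hne : (K.tilesAt p).Nonempty := by
    by_contra h
    rw [not_nonempty_iff_eq_empty] at h
    rw [h, ncard_empty] at hp'
    omega
  obtain ⟨t, ht, hpt⟩ := hne
  obtain ⟨n, hn⟩ := exists_nat_ge ‖p‖
  simp only [mem_iUnion]
  exact ⟨n, t, ⟨ht, p, hpt, by rw [mem_closedBall_zero_iff]; exact hn⟩, hpt, hp'⟩

end Pool.Agent.CT
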