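import Pool.Agent.CT.TStmts

set_option autoImplicit false

/-! # Block T14: the facts needed for the homeomorphism -/

namespace Pool.Agent.CT

open Set Metric

theorem topo (hB : Stmt_Basic) (hF : Stmt_Front) (hD : Stmt_Disc) (hI : Stmt_InterT)
    (hNV : Stmt_NonVertex) (hP : Stmt_Pre) : Stmt_Topo := by
  intro K
  have hBK := hB K
  have hPK := hP K
  refine ⟨hBK.locfin, fun t _ ψ z => hF t ψ z, ?_, hPK.bd, hPK.edge_inter, ?_⟩
  · intro e
    obtain ⟨hn, t, ht, t', ht', hne, he⟩ := e.2
    obtain ⟨c, δ, hd⟩ := hD t (K.n1 t ht)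
    have hn' : (t ∩ t').Nontrivial := he ▸ hn
    obtain ⟨a, b, hab, hba, hA, hv⟩ := hI K t ht t' ht' hne hn' c δ hd
    have hcont : Continuous (fun s : unitInterval => δ (a + (s : ℝ) * (b - a))) := by
      have := hd.cont
      fun_prop
    have hinj : Function.Injective (fun s : unitInterval => δ (a + (s : ℝ) * (b - a))) := by
      intro s s' hss
      have h1 : δ (a + (s : ℝ) * (b - a)) = δ (a + (s' : ℝ) * (b - a)) := hss
      obtain ⟨n, hn⟩ := (hd.per _ _).1 h1
      have hs := s.2
      have hs' := s'.2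
      have h2 : ((s' : ℝ) - s) * (b - a) = n := by linarith
      have h3 : |((s' : ℝ) - s) * (b - a)| < 1 := by
        rw [abs_mul]
        have h4 : |(s' : ℝ) - s| ≤ 1 := by
          rw [abs_le]; constructor <;> linarith [hs.1, hs.2, hs'.1, hs'.2]
        have h5 : |b - a| < 1 := by
          rw [abs_lt]; constructor <;> linarith
        calc |(s' : ℝ) - s| * |b - a| ≤ 1 * |b - a| := by
              gcongr
          _ < 1 := by linarith
      rw [h2] at h3
      have h6 : n = 0 := by
        have : |n| < 1 := by exact_mod_cast h3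
        exact Int.abs_lt_one_iff.1 this
      rw [h6] at h2
      have h7 : (s' : ℝ) - s = 0 := by
        have : b - a ≠ 0 := by linarith
        have h8 : ((s' : ℝ) - s) * (b - a) = 0 := by simpa using h2
        rcases mul_eq_zero.1 h8 with h | h
        · exact h
        · exact absurd h this
      exact Subtype.ext (by linarith)
    have hvera : 3 ≤ (K.tilesAt (δ a)).ncard := (hv a ⟨le_refl _, hab.le⟩).2 (Or.inl rfl)
    have hverb : 3 ≤ (K.tilesAt (δ b)).ncard := (hv b ⟨hab.le, le_refl _⟩).2 (Or.inr rfl)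
    have hrange : range (fun s : unitInterval => δ (a + (s : ℝ) * (b - a))) = e.1 := by
      rw [he, hA]
      ext z
      constructor
      · rintro ⟨s, rfl⟩
        have hs := s.2
        refine ⟨a + (s : ℝ) * (b - a), ⟨?_, ?_⟩, rfl⟩
        · nlinarith [hs.1]
        · nlinarith [hs.2]
      · rintro ⟨x, hx, rfl⟩
        have hba0 : (0 : ℝ) < b - a := by linarith
        refine ⟨⟨(x - a) / (b - a), ⟨?_, ?_⟩⟩, ?_⟩
        · exact div_nonneg (by linarith [hx.1]) hba0.le
        · rw [div_le_one hba0]; linarith [hx.2]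
        · show δ (a + (x - a) / (b - a) * (b - a)) = δ x
          congr 1
          field_simp
          ring
    refine ⟨⟨_, hcont⟩, hinj, hrange, ⟨δ a, hvera⟩, ⟨δ b, hverb⟩, ?_, ?_, ?_, ?_⟩
    · intro h
      have h1 : δ a = δ b := congrArg Subtype.val h
      obtain ⟨n, hn⟩ := (hd.per _ _).1 h1
      have h2 : (0 : ℝ) < n := by linarith
      have h3 : (n : ℝ) < 1 := by linarith
      have h4 : (0 : ℤ) < n := by exact_mod_cast h2
      have h5 : n < 1 := by exact_mod_cast h3
      omega
    · simp
    · simp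
    · intro w
      constructor
      · intro hw
        rw [he, hA] at hw
        obtain ⟨x, hx, hxw⟩ := hw
        have h3 : 3 ≤ (K.tilesAt (δ x)).ncard := by rw [hxw]; exact w.2
        rcases (hv x hx).1 h3 with rfl | rfl
        · exact Or.inl (Subtype.ext hxw.symm)
        · exact Or.inr (Subtype.ext hxw.symm)
      · rintro (rfl | rfl)
        · show δ a ∈ e.1
          rw [he, hA]
          exact ⟨a, ⟨le_refl _, hab.le⟩, rfl⟩
        · show δ b ∈ e.1
          rw [he, hA]
          exact ⟨b, ⟨hab.le, le_refl _⟩, rfl⟩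
  · intro t t' hne
    have hne' : t.1 ≠ t'.1 := fun h => hne (Subtype.ext h)
    by_cases hn : (t.1 ∩ t'.1).Nontrivial
    · right; right
      exact ⟨⟨t.1 ∩ t'.1, hn, t.1, t.2, t'.1, t'.2, hne', rfl⟩, rfl⟩
    · rcases (t.1 ∩ t'.1).eq_empty_or_nonempty with h0 | ⟨p, hp⟩
      · exact Or.inl h0
      · right; left
        have hsub : (t.1 ∩ t'.1).Subsingleton := Set.not_nontrivial_iff.1 hn
        have heq : t.1 ∩ t'.1 = {p} := hsub.eq_singleton_of_mem hp
        by_cases hv : 3 ≤ (K.tilesAt p).ncard
        · exact ⟨⟨p, hv⟩, heq⟩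
        · exfalso
          have hpf : p ∈ frontier t.1 := hBK.mem_frontier t.1 t.2 t'.1 t'.2 hne' hp
          obtain ⟨t'', ht'', hne'', hn'', htiles⟩ := hNV K t.1 t.2 p hpf hv
          have hmem : t'.1 ∈ K.tilesAt p := ⟨t'.2, hp.2⟩
          rw [htiles] at hmem
          rcases hmem with h | h
          · exact hne' h.symm
          · rw [mem_singleton_iff] at h
            rw [← h] at hn''
            exact hn hn''

end Pool.Agent.CT
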