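import Pool.Agent.CT.TStmts

set_option autoImplicit false

/-! # T1: the crossing relation -/

namespace Pool.Agent.CT

open Set Metric

/-- Continuous logarithms on the plane. -/
theorem tu_log (h : ℝ × ℝ → ℂ) (hc : Continuous h) (h0 : ∀ z, h z ≠ 0) :
    ∃ L : ℝ × ℝ → ℂ, Continuous L ∧ ∀ z, Complex.exp (L z) = h z := by
  have hs : IsSimplyConnected (univ : Set (ℝ × ℝ)) := by
    have : ContractibleSpace (univ : Set (ℝ × ℝ)) := convex_univ.contractibleSpace univ_nonempty
    show SimplyConnectedSpace _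
    infer_instance
  obtain ⟨f, hf, hf2⟩ := Complex.exists_continuousOn_eqOn_exp_comp hs isOpen_univ hc.continuousOn
    (by simpa using h0)
  exact ⟨f, continuousOn_univ.1 hf, fun z => hf2 (mem_univ z)⟩

theorem tu_const (f : ℝ → ℝ) (hf : Continuous f) (hn : ∀ s, ∃ n : ℤ, f s = n) (s t : ℝ) :
    f s = f t := by
  choose n hn using hn
  have hc : Continuous n := by
    rw [Int.isClosedEmbedding_coe_real.isInducing.continuous_iff]
    have : (Int.cast : ℤ → ℝ) ∘ n = f := by
      funext s
      exact (hn s).symm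
    rw [this]
    exact hf
  rw [hn s, hn t, PreconnectedSpace.constant inferInstance hc]

theorem tu_unique (L L' : ℝ → ℂ) (hL : Continuous L) (hL' : Continuous L')
    (h : ∀ s, Complex.exp (L s) = Complex.exp (L' s)) :
    (L 1 - L 0).im = (L' 1 - L' 0).im := by
  have key := tu_const (fun s => (L s - L' s).im / (2 * Real.pi)) (by fun_prop) (by
    intro s
    obtain ⟨n, hn⟩ := Complex.exp_eq_exp_iff_exists_int.1 (h s)
    refine ⟨n, ?_⟩
    have : L s - L' s = n * (2 * Real.pi * Complex.I) := by rw [hn]; ring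
    simp only [this]
    have h2 : ((n : ℂ) * (2 * Real.pi * Complex.I)).im = n * (2 * Real.pi) := by
      simp
    rw [h2]
    field_simp) 1 0
  have hpi : (2 * Real.pi) ≠ 0 := by positivity
  have k2 := (div_left_inj' hpi).1 key
  simp only [Complex.sub_im] at k2 ⊢
  linarith

/-- The argument of `p j - p k`, antisymmetric up to `π` -/
noncomputable def tuArg {N : ℕ} (p : Fin N → ℂ) (j k : Fin N) : ℝ :=
  if j < k then (p j - p k).arg else (p k - p j).arg + Real.pi

theorem tuArg_swap {N : ℕ} (p : Fin N → ℂ) {j k : Fin N} (h : j < k) :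
    tuArg p k j = tuArg p j k + Real.pi := by
  simp [tuArg, h, h.le]

theorem tuArg_spec {N : ℕ} (p : Fin N → ℂ) (j k : Fin N) {z : ℂ} (h : Complex.exp z = p j - p k) :
    ∃ m : ℤ, z.im = tuArg p j k + 2 * Real.pi * m := by
  have hne : p j - p k ≠ 0 := by rw [← h]; exact Complex.exp_ne_zero z
  have h1 : Complex.exp z = Complex.exp (Complex.log (p j - p k)) := by
    rw [Complex.exp_log hne, h]
  obtain ⟨m, hm⟩ := Complex.exp_eq_exp_iff_exists_int.1 h1
  have hz : z.im = (p j - p k).arg + 2 * Real.pi * m := by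
    rw [hm]
    simp [Complex.log_im]
    ring
  by_cases hjk : j < k
  · exact ⟨m, by rw [hz, tuArg, if_pos hjk]⟩
  · have hne' : p k - p j ≠ 0 := by rw [← neg_sub]; exact neg_ne_zero.2 hne
    have h2 : Complex.exp (Complex.log (p j - p k)) =
        Complex.exp (Complex.log (p k - p j) + Real.pi * Complex.I) := by
      rw [Complex.exp_add, Complex.exp_log hne, Complex.exp_log hne', Complex.exp_pi_mul_I]
      ring
    obtain ⟨m2, hm2⟩ := Complex.exp_eq_exp_iff_exists_int.1 h2
    have hz2 : (p j - p k).arg = (p k - p j).arg + Real.pi + 2 * Real.pi * m2 := by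
      have := congrArg Complex.im hm2
      simp [Complex.log_im] at this
      rw [this]
      ring
    refine ⟨m + m2, ?_⟩
    rw [hz, hz2, tuArg, if_neg hjk]
    push_cast
    ring

/-- T1 -/
theorem turn : Stmt_Turn := by
  intro N p H g hg hd
  classical
  -- the paths on the real line
  let q : Fin N → Fin N → ℝ → ℂ := fun u v s => g u v (projIcc 0 1 zero_le_one s)
  have hqc : ∀ u v, Continuous (q u v) := fun u v => (g u v).continuous.comp continuous_projIcc
  have hq0 : ∀ u v, u < v → H u v → q u v 0 = p u := by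
    intro u v huv hH
    have := (hg u v huv hH).1
    simp only [q, projIcc_left]
    exact this
  have hq1 : ∀ u v, u < v → H u v → q u v 1 = p v := by
    intro u v huv hH
    have := (hg u v huv hH).2
    simp only [q, projIcc_right]
    exact this
  let P : Fin N → Fin N → Fin N → ℤ → Prop := fun u v w m => ∀ L : ℝ → ℂ, Continuous L →
    (∀ s, Complex.exp (L s) = q u v s - p w) →
    (L 1 - L 0).im = tuArg p v w - tuArg p u w + 2 * Real.pi * m
  have hP : ∀ u v w, u < v → H u v → ∃ m, P u v w m := by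
    intro u v w huv hH
    by_cases hex : ∃ L : ℝ → ℂ, Continuous L ∧ ∀ s, Complex.exp (L s) = q u v s - p w
    · obtain ⟨L, hL, hLe⟩ := hex
      obtain ⟨m1, hm1⟩ := tuArg_spec p v w (z := L 1) (by rw [hLe, hq1 u v huv hH])
      obtain ⟨m0, hm0⟩ := tuArg_spec p u w (z := L 0) (by rw [hLe, hq0 u v huv hH])
      refine ⟨m1 - m0, fun L' hL' hLe' => ?_⟩
      rw [tu_unique L' L hL' hL (fun s => by rw [hLe, hLe']), Complex.sub_im, hm1, hm0]
      push_cast
      ring
    · exact ⟨0, fun L hL hLe => absurd ⟨L, hL, hLe⟩ hex⟩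
  refine ⟨fun u v w => if h : ∃ m, P u v w m then h.choose else 0, ?_⟩
  intro u v w x huv hwx hH1 hH2 h1 h2 h3 h4
  have hn : ∀ u v w, u < v → H u v →
      P u v w (if h : ∃ m, P u v w m then h.choose else 0) := by
    intro u v w huv hH
    rw [dif_pos (hP u v w huv hH)]
    exact (hP u v w huv hH).choose_spec
  obtain ⟨L, hL, hLe⟩ := tu_log (fun z => q u v z.1 - q w x z.2) (by
    have h5 := (hqc u v).comp (continuous_fst (X := ℝ) (Y := ℝ))
    have h6 := (hqc w x).comp (continuous_snd (X := ℝ) (Y := ℝ))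
    exact h5.sub h6) (by
    intro z
    exact sub_ne_zero.2 (hd u v w x huv hwx hH1 hH2 h1 h2 h3 h4 _ _))
  have e1 := hn u v w huv hH1 (fun s => L (s, 0)) (by fun_prop) (by
    intro s
    rw [hLe]
    simp only [hq0 w x hwx hH2])
  have e2 := hn u v x huv hH1 (fun s => L (s, 1)) (by fun_prop) (by
    intro s
    rw [hLe]
    simp only [hq1 w x hwx hH2])
  have e3 := hn w x v hwx hH2 (fun t => L (1, t) + Real.pi * Complex.I) (by fun_prop) (by
    intro t
    rw [Complex.exp_add, hLe, Complex.exp_pi_mul_I]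
    simp only [hq1 u v huv hH1]
    ring)
  have e4 := hn w x u hwx hH2 (fun t => L (0, t) + Real.pi * Complex.I) (by fun_prop) (by
    intro t
    rw [Complex.exp_add, hLe, Complex.exp_pi_mul_I]
    simp only [hq0 u v huv hH1]
    ring)
  simp only [Complex.sub_im, Complex.add_im] at e1 e2 e3 e4
  set n1 := (if h : ∃ m, P u v w m then h.choose else 0) with hn1
  set n2 := (if h : ∃ m, P u v x m then h.choose else 0) with hn2
  set n3 := (if h : ∃ m, P w x v m then h.choose else 0) with hn3
  set n4 := (if h : ∃ m, P w x u m then h.choose else 0) with hn4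
  have hpi : 0 < Real.pi := Real.pi_pos
  have key : 2 * Real.pi * ((n1 + n3 - n2 - n4 : ℤ) : ℝ) =
      (tuArg p v x - tuArg p x v) - (tuArg p u x - tuArg p x u)
      + (tuArg p u w - tuArg p w u) - (tuArg p v w - tuArg p w v) := by
    push_cast
    linarith
  have hsw : ∀ j k : Fin N, j ≠ k → tuArg p j k - tuArg p k j =
      Real.pi * ((if k < j then 1 else -1 : ℤ) : ℝ) := by
    intro j k hjk
    rcases lt_or_gt_of_ne hjk with h | h
    · rw [tuArg_swap p h, if_neg (not_lt.2 h.le)]
      push_cast
      ring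
    · rw [tuArg_swap p h, if_pos h]
      push_cast
      ring
  rw [hsw v x h4, hsw u x h2, hsw u w h1, hsw v w h3] at key
  have key2 : 2 * (n1 + n3 - n2 - n4) = (if x < v then 1 else -1 : ℤ) - (if x < u then 1 else -1)
      + (if w < u then 1 else -1) - (if w < v then 1 else -1) := by
    have h5 : Real.pi * ((2 * (n1 + n3 - n2 - n4) : ℤ) : ℝ) =
        Real.pi * (((if x < v then 1 else -1 : ℤ) - (if x < u then 1 else -1)
      + (if w < u then 1 else -1) - (if w < v then 1 else -1) : ℤ) : ℝ) := by
      push_cast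
      push_cast at key
      linarith
    exact_mod_cast mul_left_cancel₀ hpi.ne' h5
  have c1 : x < u ↔ ¬ u < x := by
    rw [not_lt]
    exact ⟨fun h => h.le, fun h => lt_of_le_of_ne h (Ne.symm h2)⟩
  have c2 : w < u ↔ ¬ u < w := by
    rw [not_lt]
    exact ⟨fun h => h.le, fun h => lt_of_le_of_ne h (Ne.symm h1)⟩
  show n1 + n3 - n2 - n4 = _
  by_cases k1 : u < x <;> by_cases k2 : u < w <;> by_cases k3 : x < v <;> by_cases k4 : w < v <;>
    simp only [k1, k2, k3, k4, c1, c2, not_true_eq_false, not_false_eq_true, if_true, if_false,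
      and_true, and_false] at key2 ⊢ <;>
    omega

end Pool.Agent.CT
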