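import Pool.Agent.CT.TStmts
import Pool.Agent.CT.Conn

set_option autoImplicit false

/-! # T17: vertices of a connected family of faces are connected -/

namespace Pool.Agent.CT

open Set

/-- the vertices of one face are connected -/
theorem verts_face {V E F : Type} (M : PolyMap V E F) (f : F) :
    ConnIn M.vadj {v | M.vf v f} := by
  intro a ha b hb
  obtain ⟨e0, ha0, he0⟩ := ha
  have ha' : a ∈ {v | M.vf v f} := ⟨e0, ha0, he0⟩
  have key : {e | M.ef e f ∧ ∀ w, M.ve w e → ReachIn M.vadj {v | M.vf v f} a w} =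
      {e | M.ef e f} := by
    refine M.face_conn f _ (fun e he => he.1) ⟨e0, he0, fun w hw => ?_⟩ ?_
    · by_cases h : a = w
      · rw [h]
        exact ReachIn.refl _
      · exact ReachIn.single ⟨h, e0, ha0, hw⟩ ha' ⟨e0, hw, he0⟩
    · rintro e ⟨he, hew⟩ d hd ⟨v, hve, hvd⟩
      refine ⟨hd, fun w hw => ?_⟩
      by_cases h : v = w
      · rw [← h]
        exact hew v hve
      · exact (hew v hve).tail ⟨h, d, hvd, hw⟩ ⟨e, hve, he⟩ ⟨d, hw, hd⟩
  obtain ⟨e1, hb1, he1⟩ := hb
  have he1' : e1 ∈ {e | M.ef e f} := he1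
  rw [← key] at he1'
  exact he1'.2 b hb1

theorem verts : Stmt_Verts := by
  intro V E F M S hS
  have h := hS.blobs (G := M.vadj) (fun f => {v | M.vf v f}) (fun f _ => verts_face M f) (by
    rintro f - g - ⟨-, e, hef, heg⟩
    obtain ⟨u, v, huv, he⟩ := M.edge_verts e
    have hu : M.ve u e := (he u).mpr (Or.inl rfl)
    have hv : M.ve v e := (he v).mpr (Or.inr rfl)
    exact ⟨u, ⟨e, hu, hef⟩, v, ⟨e, hv, heg⟩, huv, e, hu, hv⟩)
  have heq : (⋃ f ∈ S, {v | M.vf v f}) = {v | ∃ f ∈ S, M.vf v f} := by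
    ext v
    simp only [mem_iUnion, mem_setOf_eq, exists_prop]
  rwa [heq] at h

end Pool.Agent.CT
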