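import Pool.Agent.CT.T.Arc
import Pool.Agent.CT.T.Basic
import Pool.Agent.CT.T.Conn
import Pool.Agent.CT.T.Corner
import Pool.Agent.CT.T.Disc
import Pool.Agent.CT.T.Ends
import Pool.Agent.CT.T.Glue
import Pool.Agent.CT.T.Inter
import Pool.Agent.CT.T.InvDom
import Pool.Agent.CT.T.Kur
import Pool.Agent.CT.T.MapT
import Pool.Agent.CT.T.Planar
import Pool.Agent.CT.T.Poly
import Pool.Agent.CT.T.Pre
import Pool.Agent.CT.T.Regions
import Pool.Agent.CT.T.Three
import Pool.Agent.CT.T.Topo
import Pool.Agent.CT.T.Turn
import Pool.Agent.CT.T.Verts

set_option autoImplicit false

/-! # Part T: the topology of disc tilings, unconditional -/

namespace Pool.Agent.CT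

open Set Metric

theorem disc_final : Stmt_Disc := disc invDom

theorem front_final : Stmt_Front := front invDom

theorem basic_final : Stmt_Basic := basic disc_final

theorem k5_final : Stmt_K5 := k5 turn

theorem k33_final : Stmt_K33 := k33 turn

theorem three_final : Stmt_Three := three disc_final basic_final k33_final

theorem threeFin_final : Stmt_ThreeFin := threeFin basic_final three_final

theorem glue_final : Stmt_Glue := glue compl disc_final basic_final threeFin_final

theorem closed_final : Stmt_Closed := closed disc_final basic_final

theorem star_final : Stmt_Star := star compl disc_final basic_final threeFin_final

theorem notSub_final : Stmt_NotSub :=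
  notSub disc_final basic_final glue_final closed_final circleMax

theorem inter_final : Stmt_InterT :=
  inter disc_final basic_final threeFin_final glue_final notSub_final arcLemma arcCut

theorem nonVertex_final : Stmt_NonVertex := nonVertex disc_final basic_final

theorem corner_final : Stmt_Corner :=
  cornerT disc_final basic_final threeFin_final inter_final nonVertex_final

theorem pre_final : Stmt_Pre :=
  pre disc_final basic_final threeFin_final star_final inter_final nonVertex_final corner_final

theorem poly_final : Stmt_Poly := polyT pre_final closed_final basic_final

theorem planar_final : Stmt_Planar :=
  planar k5_final k33_final disc_final basic_final inter_final pre_final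

theorem region_final : Stmt_Region :=
  region compl disc_final basic_final threeFin_final nonVertex_final

theorem ends_final : Stmt_Ends := ends basic_final region_final outside verts

/-- The vertices, edges and tiles of a tiling form a plane map. -/
theorem map_final : Stmt_Map := mapT poly_final planar_final ends_final

/-- The topological facts. -/
theorem topo_final : Stmt_Topo :=
  topo basic_final front_final disc_final inter_final nonVertex_final pre_final

/-- Connectivity of the tiles meeting a half plane or the outside of a disc. -/
theorem regions_final : Stmt_Regions := regions region_final outside

end Pool.Agent.CT
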