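import Pool.Agent.CT.TStmts

set_option autoImplicit false

/-! # Block T9: arcs of a periodic curve -/

namespace Pool.Agent.CT

open Set Metric

theorem arcT_pre (f : ℝ → ℂ) (hf : Continuous f) (B : Set ℝ) (hB : IsCompact B)
    (hinj : InjOn f B) (S : Set ℂ) (hS : IsPreconnected S) (hSB : S ⊆ f '' B) :
    IsPreconnected (B ∩ f ⁻¹' S) := by
  have : CompactSpace B := isCompact_iff_compactSpace.1 hB
  have h1 : IsPreconnected ((fun x : B => f x) ⁻¹' S) := by
    refine hS.preimage_of_isClosedMap ?_ ?_ ?_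
    · intro x y hxy
      exact Subtype.ext (hinj x.2 y.2 hxy)
    · exact (hf.comp continuous_subtype_val).isClosedMap
    · intro z hz
      obtain ⟨w, hw, rfl⟩ := hSB hz
      exact ⟨⟨w, hw⟩, rfl⟩
  have h2 := h1.image Subtype.val continuous_subtype_val.continuousOn
  have h3 : (Subtype.val : B → ℝ) '' ((fun x : B => f x) ⁻¹' S) = B ∩ f ⁻¹' S := by
    ext x
    constructor
    · rintro ⟨y, hy, rfl⟩
      exact ⟨y.2, hy⟩
    · rintro ⟨hx, hx'⟩
      exact ⟨⟨x, hx⟩, hx', rfl⟩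
  rw [← h3]
  exact h2

theorem arcT_inj (γ : ℝ → ℂ) (hper : ∀ x y, γ x = γ y ↔ ∃ n : ℤ, y = x + n) (x y : ℝ)
    (hxy : γ x = γ y) (h : |y - x| < 1) : x = y := by
  obtain ⟨n, hn⟩ := (hper x y).1 hxy
  have h1 : y - x = n := by linarith
  rw [h1] at h
  have h2 : n = 0 := by
    have : |n| < 1 := by exact_mod_cast h
    exact Int.abs_lt_one_iff.1 this
  rw [h2] at hn
  simpa using hn.symm

theorem arcT_shift (γ : ℝ → ℂ) (hper : ∀ x y, γ x = γ y ↔ ∃ n : ℤ, y = x + n) (c x : ℝ) :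
    ∃ y, c ≤ y ∧ y < c + 1 ∧ γ y = γ x := by
  refine ⟨x - ⌊x - c⌋, ?_, ?_, ?_⟩
  · have := Int.floor_le (x - c)
    linarith
  · have := Int.lt_floor_add_one (x - c)
    linarith
  · rw [hper]
    exact ⟨⌊x - c⌋, by ring⟩

theorem arcLemma : Stmt_ArcLemma := by
  intro γ hγ hper A hA hAc hAp hAn hAne
  have hex : ∃ c, γ c ∉ A := by
    by_contra h
    push Not at h
    apply hAne
    apply Subset.antisymm hA
    rintro z ⟨x, rfl⟩
    exact h x
  obtain ⟨c, hc⟩ := hex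
  have hc1 : γ (c + 1) = γ c := by
    rw [hper]
    exact ⟨-1, by push_cast; ring⟩
  set B : Set ℝ := Icc c (c + 1) ∩ γ ⁻¹' A with hB
  have hBc : IsCompact B := isCompact_Icc.inter_right (hAc.preimage hγ)
  have hBo : ∀ x ∈ B, c < x ∧ x < c + 1 := by
    rintro x ⟨hx, hxA⟩
    constructor
    · refine lt_of_le_of_ne hx.1 ?_
      rintro rfl
      exact hc hxA
    · refine lt_of_le_of_ne hx.2 ?_
      intro h
      rw [h] at hxA
      apply hc
      rw [← hc1]
      exact hxA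
  have hinj : InjOn γ B := by
    intro x hx y hy hxy
    have h1 := hBo x hx
    have h2 := hBo y hy
    refine arcT_inj γ hper x y hxy ?_
    rw [abs_lt]
    constructor <;> linarith
  have himg : γ '' B = A := by
    apply Subset.antisymm
    · rintro z ⟨x, hx, rfl⟩
      exact hx.2
    · intro z hz
      obtain ⟨x, rfl⟩ := hA hz
      obtain ⟨y, hy1, hy2, hy3⟩ := arcT_shift γ hper c x
      exact ⟨y, ⟨⟨hy1, hy2.le⟩, by rw [mem_preimage, hy3]; exact hz⟩, hy3⟩
  have hBp : IsPreconnected B := by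
    have := arcT_pre γ hγ B hBc hinj A hAp (by rw [himg])
    have h2 : B ∩ γ ⁻¹' A = B := by
      apply inter_eq_left.2
      intro x hx
      exact hx.2
    rw [h2] at this
    exact this
  have hBne : B.Nonempty := by
    obtain ⟨z, hz⟩ := hAn.nonempty
    rw [← himg] at hz
    obtain ⟨x, hx, -⟩ := hz
    exact ⟨x, hx⟩
  have hBI := eq_Icc_of_connected_compact ⟨hBne, hBp⟩ hBc
  have ha : sInf B ∈ B := hBc.sInf_mem hBne
  have hb : sSup B ∈ B := hBc.sSup_mem hBne
  refine ⟨sInf B, sSup B, ?_, ?_, ?_⟩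
  · obtain ⟨z, hz, w, hw, hzw⟩ := hAn
    rw [← himg] at hz hw
    obtain ⟨x, hx, rfl⟩ := hz
    obtain ⟨y, hy, rfl⟩ := hw
    have hxy : x ≠ y := fun h => hzw (by rw [h])
    rw [hBI] at hx hy
    rcases lt_or_gt_of_ne hxy with h | h
    · linarith [hx.1, hy.2]
    · linarith [hy.1, hx.2]
  · linarith [(hBo _ ha).1, (hBo _ hb).2]
  · rw [← hBI, himg]

theorem arcCut : Stmt_ArcCut := by
  intro γ hγ hper a b hab hba x hx
  have hinj : InjOn γ (Icc a b) := by
    intro y hy z hz hyz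
    refine arcT_inj γ hper y z hyz ?_
    rw [abs_lt]
    constructor <;> linarith [hy.1, hy.2, hz.1, hz.2]
  have hset : γ '' Icc a b \ {γ x} = γ '' (Icc a b \ {x}) := by
    ext z
    constructor
    · rintro ⟨⟨y, hy, rfl⟩, hz⟩
      refine ⟨y, ⟨hy, ?_⟩, rfl⟩
      intro h
      rw [mem_singleton_iff] at h
      exact hz (by rw [h]; rfl)
    · rintro ⟨y, ⟨hy, hyx⟩, rfl⟩
      refine ⟨⟨y, hy, rfl⟩, ?_⟩
      intro h
      exact hyx (hinj hy hx h)
  constructor
  · intro h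
    by_contra hcon
    push Not at hcon
    have h1 := arcT_pre γ hγ (Icc a b) isCompact_Icc hinj _ h sdiff_subset
    have hma : a ∈ Icc a b ∩ γ ⁻¹' (γ '' Icc a b \ {γ x}) := by
      refine ⟨⟨le_refl _, hab.le⟩, ?_⟩
      rw [hset]
      exact ⟨a, ⟨⟨le_refl _, hab.le⟩, fun h => hcon.1 (mem_singleton_iff.1 h).symm⟩, rfl⟩
    have hmb : b ∈ Icc a b ∩ γ ⁻¹' (γ '' Icc a b \ {γ x}) := by
      refine ⟨⟨hab.le, le_refl _⟩, ?_⟩
      rw [hset]
      exact ⟨b, ⟨⟨hab.le, le_refl _⟩, fun h => hcon.2 (mem_singleton_iff.1 h).symm⟩, rfl⟩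
    have h2 := h1.ordConnected.out hma hmb hx
    exact h2.2.2 rfl
  · intro h
    rw [hset]
    refine IsPreconnected.image ?_ _ hγ.continuousOn
    rcases h with rfl | rfl
    · rw [Icc_sdiff_left]
      exact isPreconnected_Ioc
    · rw [Icc_sdiff_right]
      exact isPreconnected_Ico

theorem circleMax : Stmt_CircleMax := by
  intro γ δ hγ hγp hδ hδp hsub
  by_contra hne
  have hr : range γ = γ '' Icc 0 1 := by
    apply Subset.antisymm
    · rintro z ⟨x, rfl⟩
      obtain ⟨y, hy1, hy2, hy3⟩ := arcT_shift γ hγp 0 x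
      exact ⟨y, ⟨hy1, by linarith⟩, hy3⟩
    · exact image_subset_range _ _
  have hcl : IsClosed (range γ) := by
    rw [hr]
    exact (isCompact_Icc.image hγ).isClosed
  have hnt : (range γ).Nontrivial := by
    refine ⟨γ 0, ⟨0, rfl⟩, γ (1 / 2), ⟨1 / 2, rfl⟩, ?_⟩
    intro h
    have := arcT_inj γ hγp 0 (1 / 2) h (by rw [abs_lt]; constructor <;> norm_num)
    norm_num at this
  have hpr : IsPreconnected (range γ) := isPreconnected_range hγ
  obtain ⟨a, b, hab, hba, hAB⟩ := arcLemma δ hδ hδp (range γ) hsub hcl hpr hnt hne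
  set m := (a + b) / 2 with hm
  have hmI : m ∈ Icc a b := ⟨by linarith, by linarith⟩
  have hmr : δ m ∈ range γ := by
    rw [hAB]
    exact ⟨m, hmI, rfl⟩
  obtain ⟨y, hy⟩ := hmr
  have h1 : range γ \ {γ y} = γ '' Ioo y (y + 1) := by
    ext z
    constructor
    · rintro ⟨⟨x, rfl⟩, hx⟩
      obtain ⟨w, hw1, hw2, hw3⟩ := arcT_shift γ hγp y x
      refine ⟨w, ⟨lt_of_le_of_ne hw1 ?_, hw2⟩, hw3⟩
      rintro rfl
      exact hx hw3.symm
    · rintro ⟨x, ⟨hx1, hx2⟩, rfl⟩
      refine ⟨⟨x, rfl⟩, ?_⟩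
      intro h
      have := arcT_inj γ hγp x y h (by rw [abs_lt]; constructor <;> linarith)
      linarith
  have h2 : IsPreconnected (range γ \ {γ y}) := by
    rw [h1]
    exact isPreconnected_Ioo.image _ hγ.continuousOn
  rw [hy, hAB] at h2
  rcases (arcCut δ hδ hδp a b hab hba m hmI).1 h2 with h | h
  · linarith
  · linarith

end Pool.Agent.CT
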